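import Pool.Agent.Helper8.LG.Defs

/-! # LG-RED: reduction to a finite extension of the field of coefficients -/

set_option autoImplicit false

namespace Pool.Agent.Helper8.LG

open TensorProduct

/-- derivations with prescribed values on a transcendence basis (characteristic zero) -/
theorem red_exists_der {k L T : Type*} [Field k] [Field L] [CharZero L] [Algebra k L]
    (v : T → L) (hi : AlgebraicIndependent k v)
    (ha : Algebra.IsAlgebraic (Algebra.adjoin k (Set.range v)) L) (f : T → L) :
    ∃ D : Derivation k L L, ∀ t, D (v t) = f t := by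
  classical
  let alg : Algebra (MvPolynomial T k) L := (MvPolynomial.aeval v).toRingHom.toAlgebra
  have tow : IsScalarTower k (MvPolynomial T k) L := by
    refine IsScalarTower.of_algebraMap_eq fun x => ?_
    change algebraMap k L x = MvPolynomial.aeval v (algebraMap k (MvPolynomial T k) x)
    simp
  have hX : ∀ t, algebraMap (MvPolynomial T k) L (MvPolynomial.X t) = v t := fun t => by
    change MvPolynomial.aeval v (MvPolynomial.X t) = v t
    simp
  have hinj : Function.Injective (algebraMap (MvPolynomial T k) L) := hi
  have : FaithfulSMul (MvPolynomial T k) L := (faithfulSMul_iff_algebraMap_injective _ _).2 hinj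
  let algK : Algebra (FractionRing (MvPolynomial T k)) L := FractionRing.liftAlgebra _ _
  have towK : IsScalarTower (MvPolynomial T k) (FractionRing (MvPolynomial T k)) L :=
    FractionRing.isScalarTower_liftAlgebra _ _
  have halgR : Algebra.IsAlgebraic (MvPolynomial T k) L := by
    constructor
    intro x
    obtain ⟨p, hp0, hp⟩ := ha.isAlgebraic x
    have hcomp : ∀ a : Algebra.adjoin k (Set.range v),
        algebraMap (MvPolynomial T k) L (hi.aevalEquiv.symm a) = a := by
      intro a
      obtain ⟨q, rfl⟩ := hi.aevalEquiv.surjective a
      rw [AlgEquiv.symm_apply_apply]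
      exact (hi.algebraMap_aevalEquiv q).symm
    refine ⟨p.map (hi.aevalEquiv.symm.toRingEquiv.toRingHom), ?_, ?_⟩
    · exact (Polynomial.map_ne_zero_iff hi.aevalEquiv.symm.injective).2 hp0
    · rw [Polynomial.aeval_def, Polynomial.eval₂_map]
      rw [Polynomial.aeval_def] at hp
      convert! hp using 2
      ext a
      exact hcomp a
  have halgK : Algebra.IsAlgebraic (FractionRing (MvPolynomial T k)) L :=
    (IsFractionRing.comap_isAlgebraic_iff (A := MvPolynomial T k)).1 halgR
  have : CharZero (FractionRing (MvPolynomial T k)) :=
    (algebraMap (FractionRing (MvPolynomial T k)) L).charZero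
  have : Algebra.IsSeparable (FractionRing (MvPolynomial T k)) L := inferInstance
  have e1 : Algebra.FormallyEtale (FractionRing (MvPolynomial T k)) L :=
    Algebra.FormallyEtale.of_isSeparable _ _
  have e2 : Algebra.FormallyEtale (MvPolynomial T k) (FractionRing (MvPolynomial T k)) :=
    Algebra.FormallyEtale.of_isLocalization (nonZeroDivisors (MvPolynomial T k))
  have e3 : Algebra.FormallyEtale (MvPolynomial T k) L :=
    Algebra.FormallyEtale.comp _ (FractionRing (MvPolynomial T k)) _
  let E := KaehlerDifferential.tensorKaehlerEquivOfFormallyEtale k (MvPolynomial T k) L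
  let g : Ω[MvPolynomial T k⁄k] →ₗ[MvPolynomial T k] L :=
    (KaehlerDifferential.mvPolynomialBasis k T).constr (MvPolynomial T k) f
  let F : Ω[L⁄k] →ₗ[L] L := (g.liftBaseChange L) ∘ₗ E.symm.toLinearMap
  refine ⟨F.compDer (KaehlerDifferential.D k L), fun t => ?_⟩
  have hD : E.symm (KaehlerDifferential.D k L (v t)) = 1 ⊗ₜ KaehlerDifferential.D k _ (MvPolynomial.X t) := by
    rw [← hX t]
    exact KaehlerDifferential.tensorKaehlerEquivOfFormallyEtale_symm_D_algebraMap _ _ _ _
  change (g.liftBaseChange L) (E.symm (KaehlerDifferential.D k L (v t))) = f t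
  rw [hD, LinearMap.liftBaseChange_tmul, one_smul]
  rw [← KaehlerDifferential.mvPolynomialBasis_apply]
  exact Module.Basis.constr_basis _ _ _ _

/-- a subfamily of a finite family which is a transcendence basis of the generated field -/
theorem red_subfamily {k L X : Type*} [Field k] [Field L] [Algebra k L] [Fintype X]
    [DecidableEq X] (A : X → L) :
    ∃ T : Finset X, AlgebraicIndependent k (fun p : T => A p) ∧
      (T.card : Cardinal) = Algebra.trdeg k (IntermediateField.adjoin k (Set.range A)) := by
  classical
  set F := IntermediateField.adjoin k (Set.range A) with hF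
  let A' : X → F := fun p => ⟨A p, IntermediateField.subset_adjoin _ _ ⟨p, rfl⟩⟩
  have htop : IntermediateField.adjoin k (Set.range A') = ⊤ := by
    apply IntermediateField.lift_injective F
    rw [IntermediateField.lift_adjoin, IntermediateField.lift_top, ← Set.range_comp]
    rfl
  have h1 : Algebra.IsAlgebraic (IntermediateField.adjoin k (Set.range A')) F := by
    rw [htop]
    constructor
    intro x
    exact isAlgebraic_algebraMap (⟨x, trivial⟩ : (⊤ : IntermediateField k F))
  have h2 : Algebra.IsAlgebraic (Algebra.adjoin k (Set.range A')) F :=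
    IntermediateField.isAlgebraic_adjoin_iff_top.1 h1
  obtain ⟨t, ht, hb⟩ := exists_isTranscendenceBasis_subset (R := k) (Set.range A')
  choose q hq using fun x : t => ht x.2
  have hqi : Function.Injective q := by
    intro x y hxy
    apply Subtype.ext
    rw [← hq x, ← hq y, hxy]
  have htf : Finite t := (Set.finite_range A').subset ht
  have : Fintype t := Fintype.ofFinite t
  refine ⟨Finset.univ.image q, ?_, ?_⟩
  · -- the inverse map
    have hmem : ∀ p : (Finset.univ.image q : Finset X), ∃ x : t, q x = p := fun p => by
      obtain ⟨x, -, hx⟩ := Finset.mem_image.1 p.2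
      exact ⟨x, hx⟩
    choose r hr using hmem
    have hri : Function.Injective r := by
      intro p p' h
      apply Subtype.ext
      rw [← hr p, ← hr p', h]
    have h3 := (hb.1.comp r hri).map' (f := F.val) F.val.injective
    convert! h3 using 1
    funext p
    change A p = F.val (r p)
    rw [← hq (r p), hr p]
    rfl
  · rw [Finset.card_image_of_injective _ hqi, ← hb.cardinalMk_eq_trdeg, Finset.card_univ,
      Cardinal.mk_fintype]

/-- extension of the field of constants -/
theorem red_extend {k₀ L X : Type*} [Field k₀] [Field L] [Algebra k₀ L]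
    (hfg : (⊤ : IntermediateField k₀ L).FG) (v : X → L) (hv : AlgebraicIndependent k₀ v) :
    ∃ k : IntermediateField k₀ L, AlgebraicIndependent k v ∧
      Algebra.IsAlgebraic (Algebra.adjoin k (Set.range v)) L ∧
      FiniteDimensional (IntermediateField.adjoin k (Set.range v)) L := by
  classical
  obtain ⟨t, ht, hb⟩ := exists_isTranscendenceBasis_superset (R := k₀) hv.coe_range
  set s : Set L := t \ Set.range v with hs
  let k : IntermediateField k₀ L := IntermediateField.adjoin k₀ s
  let e : X ⊕ s → t := Sum.elim (fun x => ⟨v x, ht ⟨x, rfl⟩⟩) fun y => ⟨y.1, y.2.1⟩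
  have he : Function.Injective e := by
    rintro (x | x) (y | y) h
    · exact congrArg Sum.inl (hv.injective (congrArg Subtype.val h))
    · exact absurd ⟨x, congrArg Subtype.val h⟩ y.2.2
    · exact absurd ⟨y, (congrArg Subtype.val h).symm⟩ x.2.2
    · have h' : (e (Sum.inr x)).1 = (e (Sum.inr y)).1 := congrArg Subtype.val h
      exact congrArg Sum.inr (Subtype.ext h')
  have h1 : AlgebraicIndependent k₀ (Sum.elim v (Subtype.val : s → L)) := by
    convert! hb.1.comp e he using 1
    funext x
    rcases x with x | x <;> rfl
  have h2 := (AlgebraicIndependent.sumElim_iff.1 h1).2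
  rw [Subtype.range_coe] at h2
  have h3 : AlgebraicIndependent k v := IntermediateField.algebraicIndependent_adjoin_iff.2 h2
  have hK : Algebra.IsAlgebraic (IntermediateField.adjoin k (Set.range v)) L := by
    have h4 := hb.isAlgebraic_field
    rw [Subtype.range_coe] at h4
    have hle : IntermediateField.adjoin k₀ t ≤
        (IntermediateField.adjoin k (Set.range v)).restrictScalars k₀ := by
      rw [IntermediateField.adjoin_le_iff]
      intro x hx
      have key : x ∈ IntermediateField.adjoin k (Set.range v) := by
        by_cases hxv : x ∈ Set.range v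
        · exact IntermediateField.subset_adjoin k (Set.range v) hxv
        · have hxk : x ∈ k := IntermediateField.subset_adjoin k₀ s ⟨hx, hxv⟩
          exact (IntermediateField.adjoin k (Set.range v)).algebraMap_mem ⟨x, hxk⟩
      exact key
    constructor
    intro x
    have h5 := h4.isAlgebraic x
    let f : IntermediateField.adjoin k₀ t →+* IntermediateField.adjoin k (Set.range v) :=
      (IntermediateField.inclusion hle).toRingHom
    obtain ⟨p, hp0, hp⟩ := h5
    refine ⟨p.map f, (Polynomial.map_ne_zero_iff f.injective).2 hp0, ?_⟩
    rw [Polynomial.aeval_def, Polynomial.eval₂_map]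
    rw [Polynomial.aeval_def] at hp
    convert! hp using 2
  refine ⟨k, h3, IntermediateField.isAlgebraic_adjoin_iff_top.1 hK, ?_⟩
  obtain ⟨S, hS, hS1⟩ := IntermediateField.fg_def.1 hfg
  have hfd : FiniteDimensional (IntermediateField.adjoin k (Set.range v))
      (IntermediateField.adjoin (IntermediateField.adjoin k (Set.range v)) S) := by
    have : Finite S := hS
    exact IntermediateField.finiteDimensional_adjoin fun x _ =>
      (hK.isAlgebraic x).isIntegral
  have htop : IntermediateField.adjoin (IntermediateField.adjoin k (Set.range v)) S = ⊤ := by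
    rw [eq_top_iff]
    intro x _
    have hx : x ∈ IntermediateField.adjoin k₀ S := by rw [hS1]; trivial
    have hle : IntermediateField.adjoin k₀ S ≤ ((IntermediateField.adjoin
        (IntermediateField.adjoin k (Set.range v)) S).restrictScalars k).restrictScalars k₀ := by
      rw [IntermediateField.adjoin_le_iff]
      intro y hy
      have key : y ∈ IntermediateField.adjoin (IntermediateField.adjoin k (Set.range v)) S :=
        IntermediateField.subset_adjoin _ _ hy
      exact key
    have key : x ∈ ((IntermediateField.adjoin
        (IntermediateField.adjoin k (Set.range v)) S).restrictScalars k).restrictScalars k₀ :=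
      hle hx
    exact key
  rw [htop] at hfd
  exact Module.Finite.equiv
    (IntermediateField.topEquiv (F := IntermediateField.adjoin k (Set.range v))
      (E := L)).toLinearEquiv

/-- reduction: `T` is a set of indices, at most `c` outside it, such that the `a_p`, `p ∈ T`, are
algebraically independent over a suitable `k` with `L` finite over `k(a_T)`; the derivations `D_s`,
`s ∈ T`, are dual to them, `D_s = 0` for `s ∉ T`. -/
theorem reduce {k₀ L : Type*} [Field k₀] [Field L] [CharZero L] [Algebra k₀ L]
    (hfg : (⊤ : IntermediateField k₀ L).FG)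
    {σ ι : Type*} [Fintype σ] [DecidableEq σ] [Fintype ι] [DecidableEq ι]
    (d : ι → ℕ) (a : (i : ι) → Sym σ (d i) → L) (c : ℕ)
    (hc : (Fintype.card (Ix σ d) : Cardinal) ≤ Algebra.trdeg k₀
      (IntermediateField.adjoin k₀ (Set.range fun p : Ix σ d => a p.1 p.2)) + c) :
    ∃ (T : Finset (Ix σ d)) (k : IntermediateField k₀ L),
      Fintype.card {q : Ix σ d // q ∉ T} ≤ c ∧
      AlgebraicIndependent k (fun p : T => a p.1.1 p.1.2) ∧
      FiniteDimensional (IntermediateField.adjoin k (Set.range fun p : T => a p.1.1 p.1.2)) L ∧
      ∃ (D : Ix σ d → Derivation ℤ L L) (θ : {q : Ix σ d // q ∉ T} → Ix σ d → L),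
        Dual d a D (fun j => j.1) θ ∧ ∀ p (c : k), D p (algebraMap k L c) = 0 := by
  classical
  obtain ⟨T, hT, hTc⟩ := red_subfamily (k := k₀) (fun p : Ix σ d => a p.1 p.2)
  obtain ⟨k, hk1, hk2, hk3⟩ := red_extend hfg (fun p : T => a p.1.1 p.1.2) hT
  refine ⟨T, k, ?_, hk1, hk3, ?_⟩
  · rw [← hTc] at hc
    have hc' : Fintype.card (Ix σ d) ≤ T.card + c := by exact_mod_cast hc
    have h1 : Fintype.card {q : Ix σ d // q ∉ T} = Fintype.card (Ix σ d) - T.card := by
      rw [Fintype.card_subtype_compl, Fintype.card_coe]
    omega
  · have hD : ∀ s : T, ∃ D : Derivation k L L, ∀ t : T,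
        D (a t.1.1 t.1.2) = if s = t then 1 else 0 := fun s =>
      red_exists_der _ hk1 hk2 (fun t : T => if s = t then (1 : L) else 0)
    choose D hD using hD
    let D' : Ix σ d → Derivation ℤ L L := fun s =>
      if h : s ∈ T then (D ⟨s, h⟩).restrictScalars ℤ else 0
    refine ⟨D', fun j s => (if s = j.1 then 1 else 0) - D' s (a j.1.1 j.1.2), ?_, ?_⟩
    · intro s q
      by_cases hq : q ∈ T
      · have h0 : ∑ j : {q : Ix σ d // q ∉ T}, (if j.1 = q then
            ((if s = j.1 then (1 : L) else 0) - D' s (a j.1.1 j.1.2)) else 0) = 0 := by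
          refine Finset.sum_eq_zero fun j _ => ?_
          rw [if_neg]
          rintro rfl
          exact j.2 hq
        rw [h0, sub_zero]
        by_cases hs : s ∈ T
        · simp only [D', dif_pos hs]
          have := hD ⟨s, hs⟩ ⟨q, hq⟩
          simpa using this
        · simp only [D', dif_neg hs]
          rw [if_neg]
          · rfl
          · rintro rfl
            exact hs hq
      · rw [Finset.sum_eq_single (⟨q, hq⟩ : {q : Ix σ d // q ∉ T})]
        · simp
        · intro j _ hj
          rw [if_neg]
          intro h
          exact hj (Subtype.ext h)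
        · intro h
          exact absurd (Finset.mem_univ _) h
    · intro p x
      by_cases hp : p ∈ T
      · simp only [D', dif_pos hp]
        exact (D ⟨p, hp⟩).map_algebraMap x
      · simp only [D', dif_neg hp]
        rfl

end Pool.Agent.Helper8.LG
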