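import Pool.Agent.Helper8.LG.Defs

/-! # LG-TRD: transcendence degree and rank -/

set_option autoImplicit false

namespace Pool.Agent.Helper8.LG

section Trd

variable {k E : Type*} [Field k] [Field E] [Algebra k E] {P : Type*}

/-- the field of all elements whose derivatives lie in a given space -/
def trdV (D : P → Derivation ℤ E E) (hk : ∀ p (c : k), D p (algebraMap k E c) = 0)
    (W : Submodule E (P → E)) : IntermediateField k E where
  carrier := {f | (fun p => D p f) ∈ W}
  mul_mem' := by
    intro f g hf hg
    simp only [Set.mem_ofPred_eq] at *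
    have h := W.add_mem (W.smul_mem f hg) (W.smul_mem g hf)
    have e : (fun p => D p (f * g)) = f • (fun p => D p g) + g • (fun p => D p f) := by
      funext p
      simp [Derivation.leibniz]
    rw [e]
    exact h
  add_mem' := by
    intro f g hf hg
    simp only [Set.mem_ofPred_eq] at *
    have h := W.add_mem hf hg
    have e : (fun p => D p (f + g)) = (fun p => D p f) + (fun p => D p g) := by
      funext p
      simp
    rw [e]
    exact h
  algebraMap_mem' := by
    intro c
    simp only [Set.mem_ofPred_eq]
    have e : (fun p => D p (algebraMap k E c)) = 0 := by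
      funext p
      simp [hk]
    rw [e]
    exact W.zero_mem
  inv_mem' := by
    intro f hf
    simp only [Set.mem_ofPred_eq] at *
    have e : (fun p => D p f⁻¹) = (-(f⁻¹ ^ 2)) • (fun p => D p f) := by
      funext p
      rw [Derivation.leibniz_inv]
      simp
    rw [e]
    exact W.smul_mem _ hf

theorem mem_trdV {D : P → Derivation ℤ E E} {hk : ∀ p (c : k), D p (algebraMap k E c) = 0}
    {W : Submodule E (P → E)} {f : E} : f ∈ trdV D hk W ↔ (fun p => D p f) ∈ W := Iff.rfl

theorem trd_aeval {D : P → Derivation ℤ E E} {hk : ∀ p (c : k), D p (algebraMap k E c) = 0}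
    {W : Submodule E (P → E)} (y : E) (q : Polynomial (trdV D hk W)) :
    ∃ w ∈ W, ∀ p, D p (Polynomial.aeval y q)
      = w p + Polynomial.aeval y (Polynomial.derivative q) * D p y := by
  induction q using Polynomial.induction_on' with
  | add q r hq hr =>
    obtain ⟨w1, h1, e1⟩ := hq
    obtain ⟨w2, h2, e2⟩ := hr
    refine ⟨w1 + w2, W.add_mem h1 h2, fun p => ?_⟩
    rw [map_add, map_add, e1, e2, Polynomial.derivative_add, map_add, Pi.add_apply]
    ring
  | monomial n c =>
    refine ⟨y ^ n • (fun p => D p (c : E)), W.smul_mem _ c.2, fun p => ?_⟩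
    rw [Polynomial.aeval_monomial, Polynomial.derivative_monomial, Polynomial.aeval_monomial,
      Derivation.leibniz, Derivation.leibniz_pow]
    simp only [Pi.smul_apply, smul_eq_mul, map_mul, map_natCast]
    have e : algebraMap (trdV D hk W) E c = (c : E) := rfl
    rw [e]
    simp only [nsmul_eq_mul]
    ring

theorem trd_closed [CharZero E] {D : P → Derivation ℤ E E}
    {hk : ∀ p (c : k), D p (algebraMap k E c) = 0}
    {W : Submodule E (P → E)} {y : E} (hy : IsAlgebraic (trdV D hk W) y) :
    y ∈ trdV D hk W := by
  have hint : IsIntegral (trdV D hk W) y := hy.isIntegral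
  have hirr := minpoly.irreducible hint
  have hsep : (minpoly (trdV D hk W) y).Separable := hirr.separable
  have h0 := hsep.aeval_derivative_ne_zero (minpoly.aeval (trdV D hk W) y)
  obtain ⟨w, hw, he⟩ := trd_aeval y (minpoly (trdV D hk W) y)
  rw [mem_trdV]
  have e : (fun p => D p y) = (-(Polynomial.aeval y (Polynomial.derivative
      (minpoly (trdV D hk W) y)))⁻¹) • w := by
    funext p
    have h1 := he p
    rw [minpoly.aeval, map_zero] at h1
    simp only [Pi.smul_apply, smul_eq_mul]
    have h2 : w p = -(Polynomial.aeval y (Polynomial.derivative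
      (minpoly (trdV D hk W) y)) * D p y) := by linear_combination -h1
    rw [h2]
    field_simp
  rw [e]
  exact W.smul_mem _ hw

end Trd

theorem minors_of_trdeg {k E : Type*} [Field k] [Field E] [CharZero E] [Algebra k E]
    {σ P : Type*} [Finite σ] (D : P → Derivation ℤ E E)
    (hk : ∀ p (c : k), D p (algebraMap k E c) = 0)
    (x : σ → E) (i₀ : σ) (hx : x i₀ = 1) (w : ℕ)
    (hw : Algebra.trdeg k (IntermediateField.adjoin k (Set.range x)) ≤ w) :
    MinorsVanish D x w := by
  set K := IntermediateField.adjoin k (Set.range x) with hK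
  have hxK : ∀ j, x j ∈ K := fun j => IntermediateField.subset_adjoin _ _ ⟨j, rfl⟩
  set S : Set K := Set.range (fun j => (⟨x j, hxK j⟩ : K)) with hS
  have hSfin : S.Finite := Set.finite_range _
  have hSimg : ((↑) : K → E) '' S = Set.range x := by
    rw [hS, ← Set.range_comp]
    rfl
  have htop : IntermediateField.adjoin k S = ⊤ := by
    apply IntermediateField.map_injective K.val
    rw [IntermediateField.adjoin_map, ← AlgHom.fieldRange_eq_map, IntermediateField.fieldRange_val]
    have e : (K.val : K → E) '' S = Set.range x := hSimg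
    rw [e]
  have halg : Algebra.IsAlgebraic (Algebra.adjoin k S) K := by
    rw [← IntermediateField.isAlgebraic_adjoin_iff_top, htop,
      Algebra.isAlgebraic_iff_isIntegral]
    exact Algebra.isIntegral_of_surjective IntermediateField.topEquiv.surjective
  obtain ⟨t, hts, ht⟩ := exists_isTranscendenceBasis_subset (R := k) S
  have htfin : t.Finite := hSfin.subset hts
  have hcard : Cardinal.mk t ≤ w := by
    rw [ht.cardinalMk_eq_trdeg]
    exact hw
  have : Fintype t := htfin.fintype
  have hcard' : Fintype.card t ≤ w := by
    rw [Cardinal.mk_fintype] at hcard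
    exact_mod_cast hcard
  -- the space
  set W : Submodule E (P → E) :=
    Submodule.span E (Set.range (fun u : t => (fun p => D p ((u : K) : E)))) with hW
  have hWr : Module.finrank E W ≤ w := (finrank_range_le_card _).trans hcard'
  have : Module.Finite E W := Module.Finite.span_of_finite E (Set.finite_range _)
  -- all the coordinates belong to the field
  have hV : ∀ j, x j ∈ trdV D hk W := by
    intro j
    apply trd_closed
    have := ht.isAlgebraic_field
    have h1 : IsAlgebraic (IntermediateField.adjoin k (Set.range ((↑) : t → K)))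
      (⟨x j, hxK j⟩ : K) := Algebra.IsAlgebraic.isAlgebraic _
    have hle : IntermediateField.adjoin k (Set.range ((↑) : t → K))
        ≤ (trdV D hk W).comap K.val := by
      rw [IntermediateField.adjoin_le_iff]
      rintro _ ⟨u, rfl⟩
      change (fun p => D p ((u : K) : E)) ∈ W
      exact Submodule.subset_span ⟨u, rfl⟩
    let φ : IntermediateField.adjoin k (Set.range ((↑) : t → K)) →+* trdV D hk W :=
      { toFun := fun f => ⟨((f : K) : E), hle f.2⟩
        map_one' := rfl
        map_mul' := fun _ _ => rfl
        map_zero' := rfl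
        map_add' := fun _ _ => rfl }
    obtain ⟨q, hq0, hq⟩ := h1
    refine ⟨q.map φ, (Polynomial.map_ne_zero_iff φ.injective).2 hq0, ?_⟩
    have h2 := congrArg (K.val : K →+* E) hq
    rw [map_zero, Polynomial.aeval_def, Polynomial.hom_eval₂] at h2
    rw [Polynomial.aeval_def, Polynomial.eval₂_map]
    exact h2
  intro r c
  -- the rows
  set v : Fin (w + 2) → E × W := fun s => (x (r s), ⟨fun p => D p (x (r s)), hV (r s)⟩) with hv
  have hdep : ¬ LinearIndependent E v := by
    intro hli
    have h1 := hli.fintype_card_le_finrank
    rw [Module.finrank_prod, Module.finrank_self, Fintype.card_fin] at h1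
    omega
  rw [Fintype.not_linearIndependent_iff] at hdep
  obtain ⟨g, hg, i, hi⟩ := hdep
  rw [← Matrix.exists_vecMul_eq_zero_iff]
  refine ⟨g, fun h => hi (by rw [h]; rfl), ?_⟩
  have hg1 : ∑ s, g s * x (r s) = 0 := by
    have := congrArg Prod.fst hg
    rw [Prod.fst_sum] at this
    simpa [hv] using this
  have hg2 : ∀ p, ∑ s, g s * D p (x (r s)) = 0 := by
    intro p
    have := congrArg (fun z : E × W => ((z.2 : W) : P → E) p) hg
    simp only [Prod.snd_sum, Submodule.coe_sum, Finset.sum_apply] at this
    simpa [hv] using this
  funext o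
  simp only [Matrix.vecMul, dotProduct, Matrix.of_apply, Pi.zero_apply]
  cases c o with
  | none => exact hg1
  | some p => exact hg2 p

end Pool.Agent.Helper8.LG
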