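import Mathlib

/-! # LG-ULTRA: algebraic independence under linear disjointness -/

set_option autoImplicit false

namespace Pool.Agent.Helper8.LG

open scoped BigOperators

section

variable {k L Ω : Type*} [Field k] [Field L] [Field Ω] [Algebra k L] [Algebra L Ω] [Algebra k Ω]

/-- `L` and the ring `K` are linearly disjoint over `k` -/
def UlDisj (k : Type*) {L Ω : Type*} [Field k] [Field L] [Field Ω] [Algebra k L] [Algebra L Ω]
    (K : Subring Ω) : Prop :=
  ∀ (J : Set L), LinearIndependent k (Subtype.val : J → L) → ∀ (T : Finset J) (z : J → Ω),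
    (∀ b, z b ∈ K) → ∑ b ∈ T, algebraMap L Ω b * z b = 0 → ∀ b ∈ T, z b = 0

theorem ul_algInd [IsScalarTower k L Ω] (K : Subring Ω) (hkK : ∀ b : k, algebraMap k Ω b ∈ K)
    (hLD : UlDisj k (L := L) K) {β : Type*} (c : β → Ω) (hc : ∀ b, c b ∈ K)
    (hind : AlgebraicIndependent k c) : AlgebraicIndependent L c := by
  classical
  rw [algebraicIndependent_iff] at hind ⊢
  intro P hP
  set 𝔟 := Module.Basis.ofVectorSpace k L with h𝔟
  set T : Finset (Module.Basis.ofVectorSpaceIndex k L) :=
    P.support.biUnion fun m => (𝔟.repr (P.coeff m)).support with hT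
  set R : Module.Basis.ofVectorSpaceIndex k L → MvPolynomial β k := fun j =>
    ∑ m ∈ P.support, MvPolynomial.monomial m (𝔟.repr (P.coeff m) j) with hR
  have hcoef : ∀ m ∈ P.support, P.coeff m = ∑ j ∈ T, (𝔟.repr (P.coeff m) j) • (j : L) := by
    intro m hm
    conv_lhs => rw [← 𝔟.linearCombination_repr (P.coeff m)]
    rw [Finsupp.linearCombination_apply, Finsupp.sum_of_support_subset (s := T)]
    · exact Finset.sum_congr rfl fun j _ => by rw [h𝔟, Module.Basis.ofVectorSpace_apply_self]
    · exact Finset.subset_biUnion_of_mem (fun m => (𝔟.repr (P.coeff m)).support) hm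
    · intro i _
      exact zero_smul _ _
  have hzR : ∀ j, MvPolynomial.aeval c (R j) =
      ∑ m ∈ P.support, algebraMap k Ω (𝔟.repr (P.coeff m) j) * m.prod fun i e => c i ^ e := by
    intro j
    rw [hR, map_sum]
    exact Finset.sum_congr rfl fun m _ => MvPolynomial.aeval_monomial _ _ _
  have hK : ∀ j, MvPolynomial.aeval c (R j) ∈ K := by
    intro j
    rw [hzR]
    exact sum_mem fun m _ => mul_mem (hkK _) (prod_mem fun i _ => pow_mem (hc i) _)
  have hsum : ∑ j ∈ T, algebraMap L Ω j * MvPolynomial.aeval c (R j) = 0 := by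
    rw [← hP]
    conv_rhs => rw [P.as_sum, map_sum]
    simp only [hzR, Finset.mul_sum]
    rw [Finset.sum_comm]
    refine Finset.sum_congr rfl fun m hm => ?_
    rw [MvPolynomial.aeval_monomial]
    conv_rhs => rw [hcoef m hm]
    rw [map_sum, Finset.sum_mul]
    refine Finset.sum_congr rfl fun j _ => ?_
    rw [Algebra.smul_def, map_mul, ← IsScalarTower.algebraMap_apply k L Ω]
    ring
  have hz := hLD _ (Module.Basis.ofVectorSpaceIndex.linearIndependent k L) T
    (fun j => MvPolynomial.aeval c (R j)) hK hsum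
  rw [← MvPolynomial.support_eq_empty, Finset.eq_empty_iff_forall_notMem]
  intro m hm
  have h1 : P.coeff m = 0 := by
    rw [hcoef m hm]
    refine Finset.sum_eq_zero fun j hj => ?_
    have h2 := hind _ (hz j hj)
    have h3 : MvPolynomial.coeff m (R j) = 𝔟.repr (P.coeff m) j := by
      rw [hR]
      simp only [MvPolynomial.coeff_sum, MvPolynomial.coeff_monomial]
      rw [Finset.sum_ite_eq' P.support m, if_pos hm]
    rw [← h3, h2, MvPolynomial.coeff_zero, zero_smul]
  exact (MvPolynomial.mem_support_iff.1 hm) h1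

theorem ul_basis {n : ℕ} (c : Fin n → Ω) : ∃ B : Set (Fin n),
    AlgebraicIndependent k (fun b : B => c b) ∧
      ∀ r, IsAlgebraic (Algebra.adjoin k (c '' B)) (c r) := by
  have hfin : ({B : Set (Fin n) | AlgebraicIndepOn k c B}).Finite := Set.toFinite _
  have hne : ({B : Set (Fin n) | AlgebraicIndepOn k c B}).Nonempty := by
    refine ⟨∅, ?_⟩
    show AlgebraicIndependent k (fun b : (∅ : Set (Fin n)) => c b)
    rw [algebraicIndependent_empty_type_iff]
    exact (algebraMap k Ω).injective
  obtain ⟨B, hB⟩ := hfin.exists_maximal hne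
  refine ⟨B, hB.1, fun r => ?_⟩
  by_cases hr : r ∈ B
  · exact isAlgebraic_algebraMap
      (⟨c r, Algebra.subset_adjoin ⟨r, hr, rfl⟩⟩ : Algebra.adjoin k (c '' B))
  · by_contra h
    have h1 : AlgebraicIndepOn k c (insert r B) := (AlgebraicIndepOn.insert_iff hr).2 ⟨hB.1, h⟩
    exact hr (hB.2 h1 (Set.subset_insert r B) (Set.mem_insert r B))

end

end Pool.Agent.Helper8.LG
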