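import Mathlib

/-! # LG-ULTRA: an ultrapower of a field, with its derivations -/

set_option autoImplicit false

namespace Pool.Agent.Helper8.LG

open scoped BigOperators

section

universe u

/-- an ultrapower of the field `L`, as a quotient of the ring of sequences -/
theorem ul_exists (L : Type u) [Field L] : ∃ (Ω : Type u) (_ : Field Ω) (Q : (ℕ → L) →+* Ω),
    Function.Surjective Q ∧
      ∀ f, Q f = 0 ↔ ∀ᶠ m in (Filter.hyperfilter ℕ : Filter ℕ), f m = 0 := by
  refine ⟨(Filter.hyperfilter ℕ : Filter ℕ).Germ L, inferInstance,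
    Filter.Germ.coeRingHom _, ?_, ?_⟩
  · intro x
    induction x using Filter.Germ.inductionOn with
    | _ f => exact ⟨f, rfl⟩
  · intro f
    exact Filter.Germ.coe_eq

variable {L : Type*} [Field L] {Ω : Type*} [Field Ω] (Q : (ℕ → L) →+* Ω)

theorem ul_eq (hker : ∀ f, Q f = 0 ↔ ∀ᶠ m in (Filter.hyperfilter ℕ : Filter ℕ), f m = 0)
    (f g : ℕ → L) : Q f = Q g ↔ ∀ᶠ m in (Filter.hyperfilter ℕ : Filter ℕ), f m = g m := by
  rw [← sub_eq_zero, ← map_sub, hker]
  simp only [Pi.sub_apply, sub_eq_zero]

/-- the derivation of the ultrapower -/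
noncomputable def ulDer (hQ : Function.Surjective Q)
    (hker : ∀ f, Q f = 0 ↔ ∀ᶠ m in (Filter.hyperfilter ℕ : Filter ℕ), f m = 0)
    (D : Derivation ℤ L L) : Derivation ℤ Ω Ω :=
  Derivation.mk' (AddMonoidHom.toIntLinearMap
    { toFun := fun z => Q fun m => D (Function.surjInv hQ z m)
      map_zero' := by
        rw [hker]
        have h : Q (Function.surjInv hQ 0) = 0 := Function.surjInv_eq hQ 0
        rw [hker] at h
        filter_upwards [h] with m hm
        rw [hm, map_zero]
      map_add' := fun x y => by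
        rw [← map_add, ul_eq Q hker]
        have h : Q (Function.surjInv hQ (x + y)) =
            Q (Function.surjInv hQ x + Function.surjInv hQ y) := by
          rw [map_add, Function.surjInv_eq hQ, Function.surjInv_eq hQ, Function.surjInv_eq hQ]
        rw [ul_eq Q hker] at h
        filter_upwards [h] with m hm
        rw [hm, Pi.add_apply, map_add, Pi.add_apply] })
    (fun x y => by
      show Q (fun m => D (Function.surjInv hQ (x * y) m)) =
        x • Q (fun m => D (Function.surjInv hQ y m)) +
          y • Q (fun m => D (Function.surjInv hQ x m))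
      have h : Q (Function.surjInv hQ (x * y)) =
          Q (Function.surjInv hQ x * Function.surjInv hQ y) := by
        rw [map_mul, Function.surjInv_eq hQ, Function.surjInv_eq hQ, Function.surjInv_eq hQ]
      rw [ul_eq Q hker] at h
      rw [smul_eq_mul, smul_eq_mul]
      nth_rewrite 2 [← Function.surjInv_eq hQ x]
      nth_rewrite 3 [← Function.surjInv_eq hQ y]
      rw [← map_mul, ← map_mul, ← map_add, ul_eq Q hker]
      filter_upwards [h] with m hm
      rw [hm, Pi.mul_apply, D.leibniz]
      simp only [smul_eq_mul, Pi.add_apply, Pi.mul_apply])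

theorem ulDer_apply (hQ : Function.Surjective Q)
    (hker : ∀ f, Q f = 0 ↔ ∀ᶠ m in (Filter.hyperfilter ℕ : Filter ℕ), f m = 0)
    (D : Derivation ℤ L L) (f : ℕ → L) :
    ulDer Q hQ hker D (Q f) = Q fun m => D (f m) := by
  show Q (fun m => D (Function.surjInv hQ (Q f) m)) = _
  rw [ul_eq Q hker]
  have h : Q (Function.surjInv hQ (Q f)) = Q f := Function.surjInv_eq hQ _
  rw [ul_eq Q hker] at h
  filter_upwards [h] with m hm
  rw [hm]

/-- linear disjointness of the constants `L` and the `k`-valued germs -/
theorem ul_disj {k : Type*} [Field k] [Algebra k L]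
    (hker : ∀ f, Q f = 0 ↔ ∀ᶠ m in (Filter.hyperfilter ℕ : Filter ℕ), f m = 0)
    (J : Set L) (hJ : LinearIndependent k (Subtype.val : J → L)) (T : Finset J) (g : J → ℕ → k)
    (h : ∑ b ∈ T, Q (fun _ => (b : L)) * Q (fun m => algebraMap k L (g b m)) = 0) :
    ∀ b ∈ T, Q (fun m => algebraMap k L (g b m)) = 0 := by
  have h1 : Q (fun m => ∑ b ∈ T, (b : L) * algebraMap k L (g b m)) = 0 := by
    rw [← h]
    have h2 : (fun m => ∑ b ∈ T, (b : L) * algebraMap k L (g b m)) =
        ∑ b ∈ T, (fun _ => (b : L)) * (fun m => algebraMap k L (g b m)) := by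
      ext m
      rw [Finset.sum_apply]
      rfl
    rw [h2, map_sum]
    exact Finset.sum_congr rfl fun b _ => map_mul Q _ _
  rw [hker] at h1
  intro b hb
  rw [hker]
  filter_upwards [h1] with m hm
  have h3 : ∑ b ∈ T, g b m • (b : L) = 0 := by
    rw [← hm]
    exact Finset.sum_congr rfl fun b _ => by rw [Algebra.smul_def, mul_comm]
  have h4 := linearIndependent_iff'.1 hJ T (fun b => g b m) h3 b hb
  rw [h4, map_zero]

end

end Pool.Agent.Helper8.LG
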