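import Mathlib

/-!
# LG: projective space over a field, homogeneous coordinates, generic fibres
-/

set_option autoImplicit false

open AlgebraicGeometry CategoryTheory CategoryTheory.Limits MvPolynomial

namespace Pool.Agent.Helper8.LG

attribute [local instance] MvPolynomial.gradedAlgebra

universe u

/-- Projective space of dimension `N` over `K`. -/
noncomputable abbrev PN (N : ℕ) (K : Type u) [CommRing K] : Scheme.{u} :=
  Proj (homogeneousSubmodule (Fin (N + 1)) K)

/-- Its structure morphism. -/
noncomputable def PN.toSpec (N : ℕ) (K : Type u) [CommRing K] : PN N K ⟶ Spec (.of K) :=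
  Proj.toSpecZero (homogeneousSubmodule (Fin (N + 1)) K) ≫
    Spec.map (CommRingCat.ofHom (algebraMap K (homogeneousSubmodule (Fin (N + 1)) K 0)))

/-- `x` is a vector of homogeneous coordinates of the point `z`: `x ≠ 0`, and a form lies in the
homogeneous prime ideal `z` if and only if it vanishes at `x`. -/
def IsCoord {N : ℕ} {K : Type u} [CommRing K] (z : PN N K) (x : Fin (N + 1) → K) : Prop :=
  x ≠ 0 ∧ ∀ (n : ℕ) (F : MvPolynomial (Fin (N + 1)) K), F.IsHomogeneous n →
    (F ∈ z.asHomogeneousIdeal ↔ eval x F = 0)

/-- The polynomial `F` does not lie in the homogeneous prime ideal `z`, that is, the form `F` does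
not vanish at the point `z`. -/
def NonVanishing {N : ℕ} {K : Type u} [CommRing K] (z : PN N K)
    (F : MvPolynomial (Fin (N + 1)) K) : Prop :=
  F ∉ z.asHomogeneousIdeal

/-- The polynomial `F(g X)`. -/
noncomputable def subst {N : ℕ} {K M : Type*} [CommRing K] [CommRing M] [Algebra K M]
    (g : Matrix (Fin (N + 1)) (Fin (N + 1)) M) (F : MvPolynomial (Fin (N + 1)) K) :
    MvPolynomial (Fin (N + 1)) M :=
  aeval (fun i => ∑ j, MvPolynomial.C (g i j) * MvPolynomial.X j) F

/-- The field generated over `k` by the coefficients of the polynomials `F i`. -/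
noncomputable def coeffField (k : Type*) {M : Type*} [Field k] [Field M] [Algebra k M] {N r : ℕ}
    (F : Fin r → MvPolynomial (Fin (N + 1)) M) : IntermediateField k M :=
  IntermediateField.adjoin k {z | ∃ i J, z = coeff J (F i)}

/-- The field generated over `k` by the quotients `x_i / x_j`. -/
noncomputable def ratioField (k : Type*) {M : Type*} [Field k] [Field M] [Algebra k M] {N : ℕ}
    (x : Fin (N + 1) → M) : IntermediateField k M :=
  IntermediateField.adjoin k {z | ∃ i j, z = x i / x j}

/-- The generic fibre of `π : U ⟶ B`, a scheme over the function field of `B`. -/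
noncomputable abbrev genFib {B : Scheme.{u}} [IsIntegral B] {U : Scheme.{u}} (π : U ⟶ B) :
    Scheme.{u} :=
  pullback π (B.fromSpecStalk (genericPoint B))

/-- The rational point of the generic fibre defined by a section. -/
noncomputable def genPt {B : Scheme.{u}} [IsIntegral B] {U : Scheme.{u}} (π : U ⟶ B)
    (σ : B ⟶ U) (hσ : σ ≫ π = 𝟙 B) : Spec B.functionField ⟶ genFib π :=
  pullback.lift (B.fromSpecStalk (genericPoint B) ≫ σ) (𝟙 _)
    (by rw [Category.assoc, hσ, Category.comp_id, Category.id_comp])

end Pool.Agent.Helper8.LG
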