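import Pool.Agent.Helper8.LG.Defs
import Pool.Agent.Helper8.LG.SDefs

/-! # LG-POLY: homogeneous polynomials and the function `form` -/

set_option autoImplicit false

open MvPolynomial

namespace Pool.Agent.Helper8.LG

/-- the coefficients of a polynomial, indexed by multisets of size `n` -/
noncomputable def cf {K : Type*} [CommRing K] {N : ℕ} (n : ℕ)
    (F : MvPolynomial (Fin (N + 1)) K) (J : Sym (Fin (N + 1)) n) : K :=
  coeff (Multiset.toFinsupp (J : Multiset (Fin (N + 1)))) F

theorem poly_mon_eq {R : Type*} [CommMonoid R] {N n : ℕ} (x : Fin (N + 1) → R)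
    (J : Sym (Fin (N + 1)) n) :
    mon x J = ∏ i, x i ^ (Multiset.toFinsupp (J : Multiset (Fin (N + 1)))) i := by
  rw [mon, Finset.prod_multiset_map_count]
  simp only [Multiset.toFinsupp_apply]
  refine Finset.prod_subset (Finset.subset_univ _) fun i _ hi => ?_
  rw [Multiset.count_eq_zero_of_notMem (fun h => hi (Multiset.mem_toFinset.2 h)), pow_zero]

theorem poly_toFinsupp_inj {N n : ℕ} :
    Function.Injective fun J : Sym (Fin (N + 1)) n =>
      Multiset.toFinsupp (J : Multiset (Fin (N + 1))) := fun _ _ h =>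
  Subtype.ext (Multiset.toFinsupp.injective h)

theorem poly_exists_sym {N n : ℕ} (m : Fin (N + 1) →₀ ℕ) (hm : m.degree = n) :
    ∃ J : Sym (Fin (N + 1)) n, Multiset.toFinsupp (J : Multiset (Fin (N + 1))) = m := by
  refine ⟨⟨Finsupp.toMultiset m, ?_⟩, ?_⟩
  · rw [Finsupp.card_toMultiset, ← hm, Finsupp.degree_eq_sum]
    exact Finsupp.sum_fintype _ _ fun _ => rfl
  · exact Finsupp.toMultiset_toFinsupp m

theorem form_cf {K : Type*} [CommRing K] {N : ℕ} {n : ℕ} (F : MvPolynomial (Fin (N + 1)) K)
    (hF : F.IsHomogeneous n) (x : Fin (N + 1) → K) : form (cf n F) x = eval x F := by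
  classical
  have h1 : form (cf n F) x = ∑ m ∈ Finset.univ.image (fun J : Sym (Fin (N + 1)) n =>
      Multiset.toFinsupp (J : Multiset (Fin (N + 1)))), coeff m F * ∏ i, x i ^ m i := by
    rw [Finset.sum_image fun a _ b _ h => poly_toFinsupp_inj h, form]
    refine Finset.sum_congr rfl fun J _ => ?_
    rw [poly_mon_eq, cf]
  rw [h1, eval_eq']
  symm
  refine Finset.sum_subset (fun m hm => ?_) fun m _ hm => ?_
  · have h2 : m.degree = n := by
      by_contra h
      exact (mem_support_iff.1 hm) (hF.coeff_eq_zero h)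
    obtain ⟨J, hJ⟩ := poly_exists_sym m h2
    exact Finset.mem_image.2 ⟨J, Finset.mem_univ _, hJ⟩
  · rw [notMem_support_iff.1 hm, zero_mul]

/-- the monomial `X^J` -/
noncomputable def monX (K : Type*) [CommRing K] {N n : ℕ} (J : Sym (Fin (N + 1)) n) :
    MvPolynomial (Fin (N + 1)) K :=
  mon (fun i => X i) J

theorem monX_hom (K : Type*) [CommRing K] {N n : ℕ} (J : Sym (Fin (N + 1)) n) :
    (monX K J).IsHomogeneous n := by
  have h : ∀ s : Multiset (Fin (N + 1)),
      ((s.map fun i => (X i : MvPolynomial (Fin (N + 1)) K)).prod).IsHomogeneous s.card := by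
    intro s
    induction s using Multiset.induction_on with
    | empty => simpa using isHomogeneous_one (Fin (N + 1)) K
    | cons a s ih =>
      rw [Multiset.map_cons, Multiset.prod_cons, Multiset.card_cons, add_comm s.card 1]
      exact (isHomogeneous_X K a).mul ih
  have h2 := h J.1
  rw [J.2] at h2
  exact h2

theorem eval_monX {K : Type*} [CommRing K] {N n : ℕ} (J : Sym (Fin (N + 1)) n)
    (x : Fin (N + 1) → K) : eval x (monX K J) = mon x J := by
  rw [monX, mon, mon, map_multiset_prod, Multiset.map_map]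
  refine congrArg Multiset.prod (Multiset.map_congr rfl fun i _ => ?_)
  rw [Function.comp_apply, eval_X]

theorem card_Ix {N r : ℕ} (d : Fin r → ℕ) :
    Fintype.card (Ix (Fin (N + 1)) d) = ∑ i, (N + d i).choose N := by
  rw [Fintype.card_sigma]
  refine Finset.sum_congr rfl fun i _ => ?_
  rw [Sym.card_sym_eq_choose, Fintype.card_fin]
  have h : N + 1 + d i - 1 = N + d i := by omega
  rw [h, Nat.choose_symm_add]

/-- for homogeneous polynomials all coefficients are among the `cf` -/
theorem coeffField_eq (k : Type*) {M : Type*} [Field k] [Field M] [Algebra k M] {N r : ℕ}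
    (d : Fin r → ℕ) (F : Fin r → MvPolynomial (Fin (N + 1)) M)
    (hF : ∀ i, (F i).IsHomogeneous (d i)) :
    coeffField k F =
      IntermediateField.adjoin k
        (Set.range fun p : Ix (Fin (N + 1)) d => cf (d p.1) (F p.1) p.2) := by
  refine le_antisymm (IntermediateField.adjoin_le_iff.2 ?_) (IntermediateField.adjoin_le_iff.2 ?_)
  · rintro z ⟨i, m, rfl⟩
    by_cases h : m.degree = d i
    · obtain ⟨J, hJ⟩ := poly_exists_sym m h
      refine IntermediateField.subset_adjoin _ _ ⟨⟨i, J⟩, ?_⟩
      change coeff (Multiset.toFinsupp (J : Multiset (Fin (N + 1)))) (F i) = _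
      rw [hJ]
    · rw [(hF i).coeff_eq_zero h]
      exact zero_mem _
  · rintro z ⟨p, rfl⟩
    exact IntermediateField.subset_adjoin _ _ ⟨p.1, _, rfl⟩

theorem subst_hom {K M : Type*} [CommRing K] [CommRing M] [Algebra K M] {N n : ℕ}
    (g : Matrix (Fin (N + 1)) (Fin (N + 1)) M) (F : MvPolynomial (Fin (N + 1)) K)
    (hF : F.IsHomogeneous n) : (subst g F).IsHomogeneous n := by
  have h := hF.aeval (fun i => ∑ j, MvPolynomial.C (g i j) * MvPolynomial.X j) (n := 1)
    fun i => IsHomogeneous.sum _ _ _ fun j _ => isHomogeneous_C_mul_X _ _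
  rw [one_mul] at h
  exact h

theorem eval_subst {K M : Type*} [CommRing K] [CommRing M] [Algebra K M] {N : ℕ}
    (g : Matrix (Fin (N + 1)) (Fin (N + 1)) M) (F : MvPolynomial (Fin (N + 1)) K)
    (x : Fin (N + 1) → M) : eval x (subst g F) = aeval (g.mulVec x) F := by
  have h1 : ∀ G : MvPolynomial (Fin (N + 1)) M, eval x G = aeval (R := M) x G := fun G => by
    rw [aeval_def, eval₂_eq_eval_map]
    simp
  rw [subst]
  have h2 : ((aeval (R := M) x).restrictScalars K).comp
      (aeval (R := K) fun i => ∑ j, MvPolynomial.C (g i j) * MvPolynomial.X j) =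
      aeval (R := K) (g.mulVec x) := by
    refine MvPolynomial.algHom_ext fun i => ?_
    simp only [AlgHom.comp_apply, aeval_X, AlgHom.restrictScalars_apply, map_sum, map_mul,
      aeval_C, Algebra.algebraMap_self, RingHom.id_apply, Matrix.mulVec, dotProduct]
  rw [h1, ← h2]
  rfl

/-- the monomials of `h x` are combinations of the monomials of `x` with coefficients in the ring
generated by the entries of `h` -/
theorem mon_mulVec {M : Type*} [CommRing M] {N n : ℕ}
    (h : Matrix (Fin (N + 1)) (Fin (N + 1)) M) (A : Subring M) (hA : ∀ i j, h i j ∈ A)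
    (J : Sym (Fin (N + 1)) n) :
    ∃ b : Sym (Fin (N + 1)) n → M, (∀ J', b J' ∈ A) ∧
      ∀ x : Fin (N + 1) → M, mon (h.mulVec x) J = ∑ J', b J' * mon x J' := by
  set h' : Matrix (Fin (N + 1)) (Fin (N + 1)) A := fun i j => ⟨h i j, hA i j⟩ with hh'
  set P : MvPolynomial (Fin (N + 1)) A := subst h' (monX A J) with hP
  have hP1 : P.IsHomogeneous n := subst_hom h' _ (monX_hom A J)
  refine ⟨fun J' => A.subtype (cf n P J'), fun J' => (cf n P J').2, fun x => ?_⟩
  have h1 := form_cf (map A.subtype P) (hP1.map _) x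
  have h2 : ∀ J', cf n (map A.subtype P) J' = A.subtype (cf n P J') := fun J' => by
    rw [cf, coeff_map, cf]
  rw [form] at h1
  simp only [h2] at h1
  rw [h1, hP]
  have h3 : map A.subtype (subst h' (monX A J)) = subst h (monX M J) := by
    rw [subst, subst, monX, monX, mon, mon]
    simp only [map_multiset_prod, Multiset.map_map]
    refine congrArg Multiset.prod (Multiset.map_congr rfl fun i _ => ?_)
    simp only [Function.comp_apply, aeval_X, map_sum, map_mul, map_C, map_X]
    rfl
  rw [h3, eval_subst, aeval_def, eval₂_eq_eval_map]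
  have h4 : map (algebraMap M M) (monX M J) = monX M J := by
    rw [Algebra.algebraMap_self, map_id]
  rw [h4, eval_monX]

end Pool.Agent.Helper8.LG
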