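import Pool.Agent.Helper8.LG.SDefs

/-! # LG-SEX: sections and the generic fibre; the function field -/

set_option autoImplicit false

open AlgebraicGeometry CategoryTheory CategoryTheory.Limits

namespace Pool.Agent.Helper8.LG

universe u

/-- the inclusion of the generic point is dominant -/
theorem isDominant_fromSpecStalk_genericPoint (B : Scheme.{u}) [IsIntegral B] :
    IsDominant (B.fromSpecStalk (genericPoint B)) := by
  constructor
  intro x
  have h1 : genericPoint B ∈ Set.range (B.fromSpecStalk (genericPoint B)) :=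
    ⟨_, Scheme.fromSpecStalk_closedPoint⟩
  exact closure_mono (Set.singleton_subset_iff.2 h1)
    ((genericPoint_spec B).specializes trivial).mem_closure

/-- sections which agree generically are equal -/
theorem section_ext {B : Scheme.{u}} [IsIntegral B] {U : Scheme.{u}} (π : U ⟶ B)
    [IsSeparated π] (σ σ' : B ⟶ U) (hσ : σ ≫ π = 𝟙 B) (hσ' : σ' ≫ π = 𝟙 B)
    (h : genPt π σ hσ = genPt π σ' hσ') : σ = σ' := by
  have := isDominant_fromSpecStalk_genericPoint B
  refine ext_of_isDominant_of_isSeparated π (hσ.trans hσ'.symm)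
    (B.fromSpecStalk (genericPoint B)) ?_
  have h2 := congrArg (fun f => f ≫ pullback.fst _ _) h
  simpa only [genPt, pullback.lift_fst] using h2

/-- the map from the base ring to the function field through an affine open set -/
theorem germ_appLE_eq_preimage (R : CommRingCat.{u}) {B : Scheme.{u}} [IsIntegral B]
    (s : B ⟶ Spec R) (V : B.Opens) [Nonempty V] (hV : IsAffineOpen V) (e : V ≤ s ⁻¹ᵁ ⊤) :
    (Scheme.ΓSpecIso R).inv ≫ s.appLE ⊤ V e ≫ B.germToFunctionField V =
      Spec.preimage (B.fromSpecStalk (genericPoint B) ≫ s) := by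
  apply Spec.map_injective
  have hmem : genericPoint B ∈ V :=
    ((genericPoint_spec B).mem_open_set_iff V.isOpen).mpr (by simpa using ‹Nonempty V›)
  rw [Spec.map_preimage, ← hV.fromSpecStalk_eq_fromSpecStalk hmem, IsAffineOpen.fromSpecStalk,
    Category.assoc, ← IsAffineOpen.SpecMap_appLE_fromSpec s (isAffineOpen_top (Spec R)) hV e,
    IsAffineOpen.fromSpec_top, Scheme.isoSpec_Spec_inv, Spec.map_comp, Spec.map_comp,
    Category.assoc]

/-- the function field of an integral scheme locally of finite type over `R` -/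
theorem exists_affine_ft (R : CommRingCat.{u}) {B : Scheme.{u}} [IsIntegral B]
    (s : B ⟶ Spec R) [LocallyOfFiniteType s] (k₀ : Subfield B.functionField)
    (hk₀ : ∀ r : R,
      (Spec.preimage (B.fromSpecStalk (genericPoint B) ≫ s)).hom r ∈ k₀) :
    ∃ (V : B.Opens) (_ : Nonempty V), IsAffineOpen V ∧
      (∃ A : Subalgebra k₀ B.functionField, A.FG ∧
        ∀ b : Γ(B, V), B.germToFunctionField V b ∈ A) ∧
      (⊤ : IntermediateField k₀ B.functionField).FG := by
  classical
  obtain ⟨_, ⟨V, hV, rfl⟩, hmem, -⟩ :=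
    B.isBasis_affineOpens.exists_subset_of_mem_open (Set.mem_univ (genericPoint B)) isOpen_univ
  have hV' : IsAffineOpen V := hV
  have hne : Nonempty V := ⟨⟨_, hmem⟩⟩
  have e : V ≤ s ⁻¹ᵁ ⊤ := le_top
  have hft : (s.appLE ⊤ V e).hom.FiniteType :=
    s.finiteType_appLE (isAffineOpen_top (Spec R)) hV' e
  have hft2 : ((s.appLE ⊤ V e).hom.comp (Scheme.ΓSpecIso R).inv.hom).FiniteType := by
    apply RingHom.FiniteType.comp hft
    apply RingHom.FiniteType.of_surjective
    exact (ConcreteCategory.bijective_of_isIso (Scheme.ΓSpecIso R).inv).2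
  set φ : R →+* Γ(B, V) := (s.appLE ⊤ V e).hom.comp (Scheme.ΓSpecIso R).inv.hom with hφ
  have hkey : ∀ r : R, B.germToFunctionField V (φ r) ∈ k₀ := by
    intro r
    have h1 := hk₀ r
    rw [← germ_appLE_eq_preimage R s V hV' e] at h1
    simpa [hφ] using h1
  let _ : Algebra R Γ(B, V) := φ.toAlgebra
  obtain ⟨T, hT⟩ := hft2.out
  let γ : Γ(B, V) →+* B.functionField := (B.germToFunctionField V).hom
  let A : Subalgebra k₀ B.functionField := Algebra.adjoin k₀ ((T.image γ : Finset _) : Set _)
  have hA : ∀ b : Γ(B, V), γ b ∈ A := by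
    intro b
    have hb : b ∈ Algebra.adjoin R (T : Set Γ(B, V)) := by
      rw [hT]; trivial
    induction hb using Algebra.adjoin_induction with
    | mem x hx =>
      apply Algebra.subset_adjoin
      simp only [Finset.coe_image]
      exact ⟨x, hx, rfl⟩
    | algebraMap r => exact A.algebraMap_mem ⟨_, hkey r⟩
    | add x y _ _ hx hy => rw [map_add]; exact A.add_mem hx hy
    | mul x y _ _ hx hy => rw [map_mul]; exact A.mul_mem hx hy
  refine ⟨V, hne, hV', ⟨A, ⟨_, rfl⟩, hA⟩, ⟨T.image γ, ?_⟩⟩
  rw [eq_top_iff]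
  intro x _
  have := functionField_isFractionRing_of_isAffineOpen B V hV'
  obtain ⟨a, b, -, hx⟩ := IsFractionRing.div_surjective (A := Γ(B, V)) x
  have hsub : ∀ c : Γ(B, V), γ c ∈ IntermediateField.adjoin k₀
      ((T.image γ : Finset _) : Set B.functionField) := fun c =>
    IntermediateField.algebra_adjoin_le_adjoin k₀ _ (hA c)
  rw [← hx]
  exact IntermediateField.div_mem _ (hsub a) (hsub b)

end Pool.Agent.Helper8.LG
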