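import Pool.Agent.Helper8.LG.KPt
import Pool.Agent.Helper8.LG.SecExt

/-! # LG-FFIB: finitely many sections over a given point -/

set_option autoImplicit false

open AlgebraicGeometry CategoryTheory CategoryTheory.Limits MvPolynomial

namespace Pool.Agent.Helper8.LG

attribute [local instance] MvPolynomial.gradedAlgebra

universe u

/-- projective space is separated -/
theorem ffib_separated (N : ℕ) (K : Type u) [CommRing K] : IsSeparated (PN.toSpec N K) := by
  unfold PN.toSpec
  infer_instance

theorem ffib_snd {B : Scheme.{u}} [IsIntegral B] {U : Scheme.{u}} (π : U ⟶ B)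
    (σ : B ⟶ U) (hσ : σ ≫ π = 𝟙 B) : genPt π σ hσ ≫ pullback.snd _ _ = 𝟙 _ := by
  unfold genPt
  exact pullback.lift_snd _ _ _

/-- finitely many sections map to a given point of projective space -/
theorem fib_finite {B : Scheme.{u}} [IsIntegral B] {U : Scheme.{u}} (π : U ⟶ B)
    [IsSeparated π] [LocallyOfFiniteType π] [QuasiCompact π] {N : ℕ}
    (q : genFib π ⟶ PN N B.functionField) (hq : q ≫ PN.toSpec N _ = pullback.snd _ _)
    [LocallyQuasiFinite q] (t : Spec B.functionField) (z : PN N B.functionField) :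
    {σ : B ⟶ U | ∃ hσ : σ ≫ π = 𝟙 B, q (genPt π σ hσ t) = z}.Finite := by
  have hsep : IsSeparated (PN.toSpec N B.functionField) := ffib_separated N _
  have hqc' : QuasiCompact (q ≫ PN.toSpec N B.functionField) := by
    rw [hq]
    infer_instance
  have hqc : QuasiCompact q := QuasiCompact.of_comp q (PN.toSpec N B.functionField)
  have hfin : (q ⁻¹' {z}).Finite := q.finite_preimage_singleton z
  have hF : Finite (q ⁻¹' {z} : Set _) := hfin.to_subtype
  rw [← Set.finite_coe_iff]
  refine Finite.of_injective
    (β := (q ⁻¹' {z} : Set _))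
    (fun σ => ⟨genPt π σ.1 σ.2.choose t, σ.2.choose_spec⟩) ?_
  intro σ σ' h
  have h1 : genPt π σ.1 σ.2.choose t = genPt π σ'.1 σ'.2.choose t := congrArg Subtype.val h
  have h2 : genPt π σ.1 σ.2.choose = genPt π σ'.1 σ'.2.choose :=
    kpoint_ext (K := B.functionField) (pullback.snd _ _) _ _
      (ffib_snd π σ.1 σ.2.choose) (ffib_snd π σ'.1 σ'.2.choose) t h1
  exact Subtype.ext (section_ext π σ.1 σ'.1 σ.2.choose σ'.2.choose h2)

end Pool.Agent.Helper8.LG
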