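import Pool.Agent.Helper8.LG.SDefs

/-! # LG-SPR: values of regular functions of the generic fibre at sections -/

set_option autoImplicit false

open AlgebraicGeometry CategoryTheory CategoryTheory.Limits

namespace Pool.Agent.Helper8.LG

universe u

open TensorProduct in
private theorem SPR_tensor {A C K : Type u} [CommRing A] [IsDomain A] [CommRing C] [Field K]
    [Algebra A C] [Algebra A K] [IsFractionRing A K] (t : C ⊗[A] K) :
    ∃ s : A, algebraMap A K s ≠ 0 ∧ ∃ c : C,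
      ((1 : C) ⊗ₜ[A] (algebraMap A K s)) * t = c ⊗ₜ[A] (1 : K) := by
  have hinj : Function.Injective (algebraMap A K) := IsFractionRing.injective A K
  induction t using TensorProduct.induction_on with
  | zero => exact ⟨1, by simp, 0, by simp⟩
  | tmul c k =>
    obtain ⟨a, s, rfl⟩ := IsLocalization.exists_mk'_eq (nonZeroDivisors A) k
    refine ⟨s, ?_, a • c, ?_⟩
    · intro h
      exact nonZeroDivisors.ne_zero s.2 (hinj (by rw [h, map_zero]))
    · rw [Algebra.TensorProduct.tmul_mul_tmul, one_mul, IsLocalization.mk'_spec',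
        TensorProduct.smul_tmul, Algebra.smul_def, mul_one]
  | add t₁ t₂ h₁ h₂ =>
    obtain ⟨s₁, hs₁, c₁, e₁⟩ := h₁
    obtain ⟨s₂, hs₂, c₂, e₂⟩ := h₂
    refine ⟨s₁ * s₂, by rw [map_mul]; exact mul_ne_zero hs₁ hs₂,
      s₂ • c₁ + s₁ • c₂, ?_⟩
    have f₁ : ((1 : C) ⊗ₜ[A] (algebraMap A K (s₁ * s₂))) =
        ((1 : C) ⊗ₜ[A] (algebraMap A K s₂)) * ((1 : C) ⊗ₜ[A] (algebraMap A K s₁)) := by
      rw [Algebra.TensorProduct.tmul_mul_tmul, one_mul, map_mul, mul_comm]
    have f₂ : ((1 : C) ⊗ₜ[A] (algebraMap A K (s₁ * s₂))) =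
        ((1 : C) ⊗ₜ[A] (algebraMap A K s₁)) * ((1 : C) ⊗ₜ[A] (algebraMap A K s₂)) := by
      rw [Algebra.TensorProduct.tmul_mul_tmul, one_mul, map_mul]
    rw [mul_add]
    conv_lhs =>
      congr
      · rw [f₁, mul_assoc, e₁]
      · rw [f₂, mul_assoc, e₂]
    rw [Algebra.TensorProduct.tmul_mul_tmul, Algebra.TensorProduct.tmul_mul_tmul, one_mul,
      one_mul, mul_one, mul_one, TensorProduct.add_tmul, TensorProduct.smul_tmul,
      TensorProduct.smul_tmul, Algebra.smul_def, Algebra.smul_def, mul_one, mul_one]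

private theorem SPR_mem {B : Scheme.{u}} [IsIntegral B] (V : B.Opens) (b : B) (hb : b ∈ V) :
    genericPoint B ∈ V :=
  ((genericPoint_spec B).mem_open_set_iff V.isOpen).mpr ⟨b, trivial, hb⟩

private theorem SPR_glue {B : Scheme.{u}} [IsIntegral B] (V : B.Opens) [Nonempty V]
    (x : B.functionField)
    (h : ∀ b : V, ∃ (W : B.Opens) (_ : (b : B) ∈ W) (hη : genericPoint B ∈ W) (f : Γ(B, W)),
      W ≤ V ∧ B.presheaf.germ W (genericPoint B) hη f = x) :
    ∃ f : Γ(B, V), B.germToFunctionField V f = x := by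
  choose W hW hη f hle hf using h
  have hcomp : TopCat.Presheaf.IsCompatible B.presheaf W f := by
    intro i j
    have hij : genericPoint B ∈ W i ⊓ W j := ⟨hη i, hη j⟩
    apply germ_injective_of_isIntegral B (genericPoint B) hij
    rw [TopCat.Presheaf.germ_res_apply, TopCat.Presheaf.germ_res_apply, hf, hf]
  obtain ⟨s, hs, -⟩ := B.sheaf.existsUnique_gluing' W V (fun b => homOfLE (hle b))
    (fun b hb => TopologicalSpace.Opens.mem_iSup.mpr ⟨⟨b, hb⟩, hW ⟨b, hb⟩⟩) f hcomp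
  refine ⟨s, ?_⟩
  obtain ⟨b⟩ := (inferInstance : Nonempty V)
  rw [← hf b, ← hs b]
  exact (TopCat.Presheaf.germ_res_apply B.presheaf (homOfLE (hle b)) (genericPoint B) (hη b)
    s).symm


/-- the value of a regular function of the generic fibre at the rational point of a section -/
noncomputable def genVal {B : Scheme.{u}} [IsIntegral B] {U : Scheme.{u}} (π : U ⟶ B)
    (σ : B ⟶ U) (hσ : σ ≫ π = 𝟙 B) (φ : Γ(genFib π, ⊤)) : B.functionField :=
  (Scheme.ΓSpecIso B.functionField).hom ((genPt π σ hσ).appTop φ)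

private theorem SPR_comm {B : Scheme.{u}} [IsIntegral B] (V W : B.Opens) (f : B ⟶ B)
    (hf : f = 𝟙 B) (e : W ≤ f ⁻¹ᵁ V) (hV : genericPoint B ∈ V) (hW : genericPoint B ∈ W) :
    f.appLE V W e ≫ B.presheaf.germ W (genericPoint B) hW =
      B.presheaf.germ V (genericPoint B) hV := by
  subst hf
  rw [Scheme.Hom.appLE, Scheme.Hom.id_app]
  erw [Category.id_comp]
  exact TopCat.Presheaf.germ_res _ _ _ _

open TensorProduct in
private theorem SPR_local {B : Scheme.{u}} [IsIntegral B] {U : Scheme.{u}} (π : U ⟶ B)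
    (V : B.Opens) [Nonempty V] (hV : IsAffineOpen V) (W : U.Opens) (hW : IsAffineOpen W)
    (hle : W ≤ π ⁻¹ᵁ V) (φ : Γ(genFib π, ⊤)) :
    ∃ s : Γ(B, V), B.germToFunctionField V s ≠ 0 ∧ ∃ c : Γ(U, W),
      ∀ (σ : B ⟶ U) (hσ : σ ≫ π = 𝟙 B) (hη : genericPoint B ∈ σ ⁻¹ᵁ W),
        B.germToFunctionField V s * genVal π σ hσ φ =
          B.presheaf.germ (σ ⁻¹ᵁ W) (genericPoint B) hη (σ.app W c) := by
  have hηV : genericPoint B ∈ V := by
    obtain ⟨b⟩ := (inferInstance : Nonempty V)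
    exact SPR_mem V b.1 b.2
  have : IsFractionRing Γ(B, V) B.functionField :=
    functionField_isFractionRing_of_isAffineOpen B V hV
  let algC : Algebra Γ(B, V) Γ(U, W) := (π.appLE V W hle).hom.toAlgebra
  let iL : Γ(U, W) ⟶ CommRingCat.of (Γ(U, W) ⊗[Γ(B, V)] B.functionField) :=
    CommRingCat.ofHom Algebra.TensorProduct.includeLeftRingHom
  let iR : B.functionField ⟶ CommRingCat.of (Γ(U, W) ⊗[Γ(B, V)] B.functionField) :=
    CommRingCat.ofHom
      (Algebra.TensorProduct.includeRight (R := Γ(B, V)) (A := Γ(U, W))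
        (B := B.functionField)).toRingHom
  have hcomp : π.appLE V W hle ≫ iL = B.germToFunctionField V ≫ iR := by
    ext a
    change (algebraMap Γ(B, V) Γ(U, W) a) ⊗ₜ[Γ(B, V)] (1 : B.functionField) =
      (1 : Γ(U, W)) ⊗ₜ[Γ(B, V)] (algebraMap Γ(B, V) B.functionField a)
    rw [Algebra.algebraMap_eq_smul_one, Algebra.algebraMap_eq_smul_one,
      TensorProduct.smul_tmul]
  have hcompat : (Spec.map iL ≫ hW.fromSpec) ≫ π =
      Spec.map iR ≫ B.fromSpecStalk (genericPoint B) := by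
    rw [Category.assoc, ← IsAffineOpen.SpecMap_appLE_fromSpec π hV hW hle,
      ← Spec.map_comp_assoc, hcomp, Spec.map_comp_assoc,
      ← hV.fromSpecStalk_eq_fromSpecStalk hηV]
    rfl
  let g : Spec (CommRingCat.of (Γ(U, W) ⊗[Γ(B, V)] B.functionField)) ⟶ genFib π :=
    pullback.lift (Spec.map iL ≫ hW.fromSpec) (Spec.map iR) hcompat
  let t : Γ(U, W) ⊗[Γ(B, V)] B.functionField :=
    (Scheme.ΓSpecIso (CommRingCat.of (Γ(U, W) ⊗[Γ(B, V)] B.functionField))).hom
      (g.appTop φ)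
  obtain ⟨s, hs, c, hc⟩ := SPR_tensor t
  refine ⟨s, hs, c, ?_⟩
  intro σ hσ hη
  let τ : Γ(U, W) ⟶ B.functionField :=
    σ.app W ≫ B.presheaf.germ (σ ⁻¹ᵁ W) (genericPoint B) hη
  have hτ : π.appLE V W hle ≫ τ = B.germToFunctionField V := by
    have h1 : σ ⁻¹ᵁ W ≤ (σ ≫ π) ⁻¹ᵁ V := by
      intro b hb
      exact hle hb
    have h2 := SPR_comm V (σ ⁻¹ᵁ W) (σ ≫ π) hσ h1 hηV hη
    refine Eq.trans ?_ h2
    change π.appLE V W hle ≫ σ.app W ≫ _ = _
    rw [Scheme.Hom.app_eq_appLE, ← Category.assoc, Scheme.Hom.appLE_comp_appLE]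
  let τA : Γ(U, W) →ₐ[Γ(B, V)] B.functionField :=
    { τ.hom with
      commutes' := fun a => by
        have := congrArg (fun f => f.hom a) hτ
        exact this }
  let m : (Γ(U, W) ⊗[Γ(B, V)] B.functionField) →ₐ[Γ(B, V)] B.functionField :=
    Algebra.TensorProduct.productMap τA (AlgHom.id _ _)
  let mc : CommRingCat.of (Γ(U, W) ⊗[Γ(B, V)] B.functionField) ⟶ B.functionField :=
    CommRingCat.ofHom m.toRingHom
  have hmL : iL ≫ mc = τ := by
    ext a
    change m (a ⊗ₜ[Γ(B, V)] (1 : B.functionField)) = τ a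
    rw [Algebra.TensorProduct.productMap_apply_tmul]
    simp only [map_one, mul_one]
    rfl
  have hmR : iR ≫ mc = 𝟙 _ := by
    ext a
    change m ((1 : Γ(U, W)) ⊗ₜ[Γ(B, V)] a) = a
    rw [Algebra.TensorProduct.productMap_apply_tmul]
    simp
  have hpt : Spec.map mc ≫ g = genPt π σ hσ := by
    apply pullback.hom_ext
    · rw [Category.assoc, pullback.lift_fst, genPt, pullback.lift_fst, ← Category.assoc,
        ← Spec.map_comp, hmL]
      rw [← Scheme.SpecMap_stalkMap_fromSpecStalk σ (x := genericPoint B),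
        ← hW.fromSpecStalk_eq_fromSpecStalk hη, IsAffineOpen.fromSpecStalk,
        ← Spec.map_comp_assoc, Scheme.Hom.germ_stalkMap]
    · rw [Category.assoc, pullback.lift_snd, genPt, pullback.lift_snd, ← Spec.map_comp, hmR,
        Spec.map_id]
  have hval : genVal π σ hσ φ = m t := by
    have h3 : (genPt π σ hσ).appTop ≫ (Scheme.ΓSpecIso B.functionField).hom =
        g.appTop ≫ (Scheme.ΓSpecIso (CommRingCat.of
          (Γ(U, W) ⊗[Γ(B, V)] B.functionField))).hom ≫ mc := by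
      rw [← Scheme.ΓSpecIso_naturality, ← hpt, Scheme.Hom.comp_appTop, Category.assoc]
    exact congrArg (fun f => f.hom φ) h3
  rw [hval]
  have h4 := congrArg m hc
  rw [map_mul, Algebra.TensorProduct.productMap_apply_tmul,
    Algebra.TensorProduct.productMap_apply_tmul] at h4
  simp only [map_one, mul_one, one_mul] at h4
  exact h4

/-- bounded denominators -/
theorem spread {B : Scheme.{u}} [IsIntegral B] {U : Scheme.{u}} (π : U ⟶ B) [QuasiCompact π]
    (V : B.Opens) [Nonempty V] (hV : IsAffineOpen V) (φ : Γ(genFib π, ⊤)) :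
    ∃ s : Γ(B, V), B.germToFunctionField V s ≠ 0 ∧ ∀ (σ : B ⟶ U) (hσ : σ ≫ π = 𝟙 B),
      ∃ b : Γ(B, V), B.germToFunctionField V s * genVal π σ hσ φ =
        B.germToFunctionField V b := by
  classical
  obtain ⟨Us, hUs, hfin, hsup⟩ := U.isBasis_affineOpens.exists_finite_of_isCompact
    (U := π ⁻¹ᵁ V) (QuasiCompact.isCompact_preimage V.1 V.2 hV.isCompact)
  have hloc : ∀ W : U.Opens, ∃ s : Γ(B, V), B.germToFunctionField V s ≠ 0 ∧
      (W ∈ Us → ∃ c : Γ(U, W),
        ∀ (σ : B ⟶ U) (hσ : σ ≫ π = 𝟙 B) (hη : genericPoint B ∈ σ ⁻¹ᵁ W),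
          B.germToFunctionField V s * genVal π σ hσ φ =
            B.presheaf.germ (σ ⁻¹ᵁ W) (genericPoint B) hη (σ.app W c)) := by
    intro W
    by_cases hW : W ∈ Us
    · have hle : W ≤ π ⁻¹ᵁ V := by
        rw [hsup]
        exact le_sSup hW
      obtain ⟨s, hs, c, hc⟩ := SPR_local π V hV W (hUs hW) hle φ
      exact ⟨s, hs, fun _ => ⟨c, hc⟩⟩
    · exact ⟨1, by rw [map_one]; exact one_ne_zero, fun h => absurd h hW⟩
  choose s hs hc using hloc
  refine ⟨∏ W ∈ hfin.toFinset, s W, ?_, ?_⟩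
  · rw [map_prod]
    exact Finset.prod_ne_zero_iff.mpr fun W _ => hs W
  · intro σ hσ
    obtain ⟨b, hb⟩ := SPR_glue V
      (B.germToFunctionField V (∏ W ∈ hfin.toFinset, s W) * genVal π σ hσ φ) (by
        intro b
        have hπσ : π (σ b.1) = b.1 := by
          rw [← Scheme.Hom.comp_apply, hσ]
          rfl
        have hmem : σ b.1 ∈ π ⁻¹ᵁ V := by
          change π (σ b.1) ∈ V
          rw [hπσ]
          exact b.2
        rw [hsup] at hmem
        obtain ⟨W, hW, hbW⟩ := TopologicalSpace.Opens.mem_sSup.mp hmem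
        obtain ⟨c, hc'⟩ := hc W hW
        have hbW' : b.1 ∈ V ⊓ σ ⁻¹ᵁ W := ⟨b.2, hbW⟩
        have hη : genericPoint B ∈ V ⊓ σ ⁻¹ᵁ W := SPR_mem _ b.1 hbW'
        refine ⟨V ⊓ σ ⁻¹ᵁ W, hbW', hη,
          B.presheaf.map (homOfLE inf_le_left).op (∏ W' ∈ hfin.toFinset.erase W, s W') *
            B.presheaf.map (homOfLE inf_le_right).op (σ.app W c), inf_le_left, ?_⟩
        rw [map_mul, TopCat.Presheaf.germ_res_apply, TopCat.Presheaf.germ_res_apply,
          ← hc' σ hσ hη.2, ← mul_assoc]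
        congr 1
        rw [← Finset.prod_erase_mul hfin.toFinset s (hfin.mem_toFinset.mpr hW), map_mul])
    exact ⟨b, hb.symm⟩

end Pool.Agent.Helper8.LG
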