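import Pool.Agent.Helper8.LG.ProjPt
import Pool.Agent.Helper8.LG.Spread
import Pool.Agent.Helper8.LG.SecExt

/-! # LG-GFUN: the functions `G / F` on the generic fibre; finite fibres of the morphism `q` -/

set_option autoImplicit false

open AlgebraicGeometry CategoryTheory CategoryTheory.Limits MvPolynomial

namespace Pool.Agent.Helper8.LG

attribute [local instance] MvPolynomial.gradedAlgebra

universe u

/-- if `F` does not vanish on the image of `q` then `G / F` is a regular function on the generic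
fibre, with the expected values at the sections -/
theorem exists_fun {B : Scheme.{u}} [IsIntegral B] {U : Scheme.{u}} (π : U ⟶ B) {N n : ℕ}
    (q : genFib π ⟶ PN N B.functionField) (hq : q ≫ PN.toSpec N _ = pullback.snd _ _)
    (hn : 0 < n) (F : MvPolynomial (Fin (N + 1)) B.functionField) (hF : F.IsHomogeneous n)
    (hU : ∀ z : genFib π, q z ∈ Proj.basicOpen _ F)
    (G : MvPolynomial (Fin (N + 1)) B.functionField) (hG : G.IsHomogeneous n) :
    ∃ φ : Γ(genFib π, ⊤), ∀ (σ : B ⟶ U) (hσ : σ ≫ π = 𝟙 B) (t : Spec B.functionField)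
      (x : Fin (N + 1) → B.functionField), IsCoord (q (genPt π σ hσ t)) x →
      genVal π σ hσ φ = eval x G / eval x F := by
  have hF' : F ∈ homogeneousSubmodule (Fin (N + 1)) B.functionField n := hF
  have hG' : G ∈ homogeneousSubmodule (Fin (N + 1)) B.functionField n := hG
  let j := Proj.awayι (homogeneousSubmodule (Fin (N + 1)) B.functionField) F hF' hn
  have hr : Set.range q ⊆ Set.range j := by
    rintro _ ⟨z, rfl⟩
    have h1 := hU z
    rw [← Proj.opensRange_awayι _ F hF' hn] at h1
    exact h1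
  let qt := IsOpenImmersion.lift j q hr
  have hqt : qt ≫ j = q := IsOpenImmersion.lift_fac j q hr
  let e : HomogeneousLocalization.Away (homogeneousSubmodule (Fin (N + 1)) B.functionField) F :=
    HomogeneousLocalization.mk ⟨n, ⟨G, hG'⟩, ⟨F, hF'⟩, Submonoid.mem_powers F⟩
  refine ⟨qt.appTop ((Scheme.ΓSpecIso (.of _)).inv e), fun σ hσ t x hx => ?_⟩
  let ψ := Spec.preimage (genPt π σ hσ ≫ qt)
  have hψ : Spec.map ψ = genPt π σ hσ ≫ qt := Spec.map_preimage _
  have h1 : Spec.map ψ ≫ j = genPt π σ hσ ≫ q := by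
    rw [hψ, Category.assoc, hqt]
  have h2 : Spec.map ψ ≫ j ≫ PN.toSpec N B.functionField = 𝟙 _ := by
    rw [← Category.assoc, h1, Category.assoc, hq]
    exact pullback.lift_snd _ _ _
  have h3 := away_eval F hF' hn ψ.hom h2 t x (by
    have h4 : (Spec.map ψ ≫ j) t = q (genPt π σ hσ t) := by
      rw [h1]
      rfl
    change IsCoord ((Spec.map ψ ≫ j) t) x
    rw [h4]
    exact hx) G hG'
  rw [← h3]
  have h5 : (Scheme.ΓSpecIso (.of _)).inv ≫ (Spec.map ψ).appTop ≫
      (Scheme.ΓSpecIso B.functionField).hom = ψ := by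
    rw [Scheme.ΓSpecIso_naturality, Iso.inv_hom_id_assoc]
  have h6 : (genPt π σ hσ ≫ qt).appTop = qt.appTop ≫ (genPt π σ hσ).appTop :=
    Scheme.Hom.comp_appTop _ _
  rw [hψ, h6] at h5
  have h7 := congrArg (fun f => f.hom e) h5
  exact h7

end Pool.Agent.Helper8.LG
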