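import Pool.Agent.Helper8.LG.FieldMain
import Pool.Agent.Helper8.LG.GenFun
import Pool.Agent.Helper8.LG.FinFib

/-! # LG-WRAP: the theorem over schemes -/

set_option autoImplicit false

open AlgebraicGeometry CategoryTheory CategoryTheory.Limits MvPolynomial

namespace Pool.Agent.Helper8.LG

attribute [local instance] MvPolynomial.gradedAlgebra

universe u v

theorem wrap_fg_trans {k K M : Type*} [Field k] [Field K] [Field M] [Algebra k K] [Algebra K M]
    [Algebra k M] [IsScalarTower k K M] (h1 : (⊤ : IntermediateField k K).FG)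
    (h2 : (⊤ : IntermediateField K M).FG) : (⊤ : IntermediateField k M).FG := by
  rw [IntermediateField.fg_top_iff] at h1 h2 ⊢
  exact Algebra.EssFiniteType.comp k K M

theorem main (R : CommRingCat.{u}) (B : Scheme.{u}) [IsIntegral B] (s : B ⟶ Spec R)
    [LocallyOfFiniteType s] [CharZero B.functionField]
    (U : Scheme.{u}) (π : U ⟶ B) [IsSeparated π] [LocallyOfFiniteType π] [QuasiCompact π]
    {N r : ℕ} (d m : Fin r → ℕ) (hd : ∀ i, 0 < d i)
    (F : Fin r → MvPolynomial (Fin (N + 1)) B.functionField)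
    (hF : ∀ i, (F i).IsHomogeneous (d i))
    (q : genFib π ⟶ PN N B.functionField) (hq : q ≫ PN.toSpec N _ = pullback.snd _ _)
    [LocallyQuasiFinite q]
    (Z C : Finset (Fin r)) (hZC : Disjoint Z C) (hm : ∀ i ∈ C, m i ∣ d i)
    (k₀ : Subfield B.functionField)
    (hk₀ : ∀ r : R, (Spec.preimage (B.fromSpecStalk (genericPoint B) ≫ s)).hom r ∈ k₀)
    (M : Type v) [Field M] [Algebra B.functionField M]
    (hM : (⊤ : IntermediateField B.functionField M).FG) (g : GL (Fin (N + 1)) M) (w c : ℕ)
    (hcoef : ((∑ i, (N + d i).choose N : ℕ) : Cardinal) ≤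
      Algebra.trdeg k₀ (coeffField k₀ fun i => subst (g : Matrix _ _ M) (F i)) + c)
    (hnum : 2 * w + 2 + c + ∑ i ∈ C, d i / m i ≤ ∑ i, d i + Z.card ∨
      Z = Finset.univ ∧ 2 * w + 1 + c ≤ ∑ i, (d i + 1) ∧ w + 2 ≤ ∑ i, d i ∧
        2 * N + c ≤ ∑ i, (d i + 1) + 1)
    (hU : ∀ i ∉ Z, i ∉ C → ∀ z : genFib π, q z ∈ Proj.basicOpen _ (F i))
    (hpt : ∀ p : Spec B.functionField ⟶ genFib π, p ≫ pullback.snd _ _ = 𝟙 _ →
      ∀ (t : Spec B.functionField) (x : Fin (N + 1) → B.functionField), IsCoord (q (p t)) x →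
      Algebra.trdeg k₀ (ratioField k₀ ((g⁻¹ : GL (Fin (N + 1)) M).1.mulVec
        fun i => algebraMap B.functionField M (x i))) ≤ w ∧
      (∀ i ∈ Z, eval x (F i) = 0) ∧ ∀ i ∈ C, ∃ y : B.functionField, y ^ m i = eval x (F i)) :
    {σ : B ⟶ U | σ ≫ π = 𝟙 B}.Finite := by
  classical
  obtain ⟨V, hVne, hV, ⟨A, ⟨S₀, hS₀⟩, hA⟩, hKfg⟩ := exists_affine_ft R s k₀ hk₀
  haveI := hVne
  haveI : CharZero M :=
    charZero_of_injective_algebraMap (algebraMap B.functionField M).injective
  have hfg : (⊤ : IntermediateField k₀ M).FG := wrap_fg_trans hKfg hM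
  -- a point of the spectrum of the function field
  let t : Spec B.functionField := IsLocalRing.closedPoint B.functionField
  -- the functions `X^J / F_i` and their denominators
  have hfun : ∀ i : Fin r, ∀ J : Sym (Fin (N + 1)) (d i), ∃ f : B.functionField, f ≠ 0 ∧
      (i ∉ Z → i ∉ C → ∀ (σ : B ⟶ U) (hσ : σ ≫ π = 𝟙 B) (x : Fin (N + 1) → B.functionField),
        IsCoord (q (genPt π σ hσ t)) x → ∃ b ∈ A, f * (mon x J / eval x (F i)) = b) := by
    intro i J
    by_cases hi : i ∉ Z ∧ i ∉ C
    · obtain ⟨φ, hφ⟩ := exists_fun π q hq (hd i) (F i) (hF i) (hU i hi.1 hi.2)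
        (monX B.functionField J) (monX_hom _ J)
      obtain ⟨s', hs', hb⟩ := spread π V hV φ
      refine ⟨B.germToFunctionField V s', hs', fun _ _ σ hσ x hx => ?_⟩
      obtain ⟨b, hb⟩ := hb σ hσ
      refine ⟨B.germToFunctionField V b, hA b, ?_⟩
      rw [← hb, hφ σ hσ t x hx, eval_monX]
    · exact ⟨1, one_ne_zero, fun h1 h2 => absurd ⟨h1, h2⟩ hi⟩
  choose f hf0 hfA using hfun
  -- the algebra over `M`
  let A' : Subalgebra k₀ M := Algebra.adjoin k₀
    ((S₀.image (algebraMap B.functionField M) ∪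
      Finset.univ.image (fun p : Ix (Fin (N + 1)) d =>
        algebraMap B.functionField M (f p.1 p.2)⁻¹) : Finset M) : Set M)
  have hAA' : ∀ b ∈ A, algebraMap B.functionField M b ∈ A' := by
    intro b hb
    rw [← hS₀] at hb
    induction hb using Algebra.adjoin_induction with
    | mem x hx =>
      refine Algebra.subset_adjoin ?_
      rw [Finset.coe_union, Finset.coe_image]
      exact Or.inl ⟨x, hx, rfl⟩
    | algebraMap r => exact A'.algebraMap_mem r
    | add x y _ _ hx hy => rw [map_add]; exact add_mem hx hy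
    | mul x y _ _ hx hy => rw [map_mul]; exact mul_mem hx hy
  have hfA' : ∀ i J, algebraMap B.functionField M (f i J)⁻¹ ∈ A' := by
    intro i J
    refine Algebra.subset_adjoin ?_
    rw [Finset.coe_union]
    exact Or.inr (Finset.mem_coe.2 (Finset.mem_image.2 ⟨⟨i, J⟩, Finset.mem_univ _, rfl⟩))
  have hfin := field_main hfg d m hd F hF g w c Z C hZC hm hcoef hnum A' ⟨_, rfl⟩
  refine Set.Finite.subset (Set.Finite.biUnion hfin
    (t := fun y => {σ : B ⟶ U | ∃ hσ : σ ≫ π = 𝟙 B, IsCoord (q (genPt π σ hσ t)) y.rep})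
    (fun y _ => ?_)) ?_
  · by_cases h : ∃ z : PN N B.functionField, IsCoord z y.rep
    · obtain ⟨z, hz⟩ := h
      refine (fib_finite π q hq t z).subset ?_
      rintro σ ⟨hσ, h2⟩
      exact ⟨hσ, point_unique h2 hz⟩
    · refine Set.Finite.subset Set.finite_empty ?_
      rintro σ ⟨hσ, h2⟩
      exact h ⟨_, h2⟩
  · intro σ hσ
    have hσ' : σ ≫ π = 𝟙 B := hσ
    have hsnd : genPt π σ hσ' ≫ pullback.snd _ _ = 𝟙 _ := pullback.lift_snd _ _ _
    obtain ⟨x, hx⟩ := exists_coord (genPt π σ hσ' ≫ q)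
      (by rw [Category.assoc, hq]; exact hsnd) t
    have hx0 : x ≠ 0 := hx.1
    have hx' : IsCoord (q (genPt π σ hσ' t)) x := by
      have h3 : (genPt π σ hσ' ≫ q) t = q (genPt π σ hσ' t) := Scheme.Hom.comp_apply _ _ _
      rw [← h3]
      exact hx
    obtain ⟨a, ha⟩ := Projectivization.exists_smul_eq_mk_rep B.functionField x hx0
    have hrep : IsCoord (q (genPt π σ hσ' t))
        (Projectivization.mk B.functionField x hx0).rep := by
      have h4 : (Projectivization.mk B.functionField x hx0).rep =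
          fun i => (a : B.functionField) * x i := by
        rw [← ha]
        rfl
      rw [h4]
      exact coord_smul hx' a a.ne_zero
    rw [Set.mem_iUnion₂]
    refine ⟨Projectivization.mk B.functionField x hx0, ?_, hσ', hrep⟩
    obtain ⟨h5, h6, h7⟩ := hpt (genPt π σ hσ') hsnd t _ hrep
    refine ⟨h5, h6, h7, ?_⟩
    intro i hiZ hiC
    have h8 : eval (Projectivization.mk B.functionField x hx0).rep (F i) ≠ 0 := by
      intro h9
      have h10 := (hrep.2 (d i) (F i) (hF i)).2 h9
      exact (ProjectiveSpectrum.mem_basicOpen _ _ _).1 (hU i hiZ hiC _) h10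
    refine ⟨h8, fun J => ?_⟩
    obtain ⟨b, hbA, hb⟩ := hfA i J hiZ hiC σ hσ' _ hrep
    have h11 : algebraMap B.functionField M
        (mon (Projectivization.mk B.functionField x hx0).rep J /
          eval (Projectivization.mk B.functionField x hx0).rep (F i)) =
        algebraMap B.functionField M b * algebraMap B.functionField M (f i J)⁻¹ := by
      rw [← map_mul, ← hb]
      congr 1
      have := hf0 i J
      field_simp
    have h12 : algebraMap B.functionField M
        (mon (Projectivization.mk B.functionField x hx0).rep J /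
          eval (Projectivization.mk B.functionField x hx0).rep (F i)) ∈ A' := by
      rw [h11]
      exact mul_mem (hAA' b hbA) (hfA' i J)
    exact isIntegral_algebraMap (x := (⟨_, h12⟩ : A'))

end Pool.Agent.Helper8.LG
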