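import Pool.Agent.Helper8.LG.Others
import Pool.Agent.Helper70.GG.FinDim
import Pool.Agent.Helper70.GG.OneVar

/-! # LG-FD: finite dimensionality -/

set_option autoImplicit false

namespace Pool.Agent.Helper8.LG

theorem fd_isIntegral_mono {E : Type*} [CommRing E] {A B : Subring E} (h : A ≤ B) {x : E}
    (hx : IsIntegral A x) : IsIntegral B x := by
  obtain ⟨p, hp, he⟩ := hx
  refine ⟨p.map (Subring.inclusion h), hp.map _, ?_⟩
  rw [Polynomial.eval₂_map]
  exact he

theorem fd_isIntegral_adjoin {k L : Type*} [Field k] [Field L] [Algebra k L]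
    (F : IntermediateField k L) (t : L) {x : L} (hx : x ∈ intCl F.toSubfield t) :
    IsIntegral (Algebra.adjoin F {t}) x := by
  have h1 : IsIntegral (Subring.closure ((F.toSubfield : Set L) ∪ {t})) x := hx
  have hle : Subring.closure ((F.toSubfield : Set L) ∪ {t}) ≤ (Algebra.adjoin F {t}).toSubring := by
    rw [Subring.closure_le]
    rintro z (hz | hz)
    · exact (Algebra.adjoin F {t}).algebraMap_mem ⟨z, hz⟩
    · exact Algebra.subset_adjoin hz
  exact fd_isIntegral_mono hle h1

theorem fd {k L τ : Type*} [Field k] [Field L] [CharZero L] [Algebra k L] [Finite τ]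
    (y : τ → L) (hy : AlgebraicIndependent k y)
    (hfin : FiniteDimensional (IntermediateField.adjoin k (Set.range y)) L)
    (Δ Δ' : τ → L) (h0 : ∀ i, Δ i ≠ 0) (h0' : ∀ i, Δ' i ≠ 0) :
    ∃ V : Submodule k L, FiniteDimensional k V ∧ ∀ g : L,
      (∀ i, Δ i * g ∈ intCl (others (k := k) y i) (y i) ∧
        Δ' i * g ∈ intCl (others (k := k) y i) (y i)⁻¹) → g ∈ V := by
  have key := Pool.Agent.Helper70.GG.finite_dim_of_directions y hy hfin
    {g : L | ∀ i, Δ i * g ∈ intCl (others (k := k) y i) (y i) ∧
        Δ' i * g ∈ intCl (others (k := k) y i) (y i)⁻¹} ?_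
  · obtain ⟨W, hW, hS⟩ := key
    exact ⟨W, Module.Finite.iff_fg.mpr hW, fun g hg => hS hg⟩
  · intro i
    rw [← Set.compl_singleton_eq]
    set F := IntermediateField.adjoin k (y '' {i}ᶜ) with hF
    have hC : CharZero F := by
      have : CharZero k := (algebraMap k L).charZero_iff (algebraMap k L).injective |>.2 inferInstance
      infer_instance
    have htr : Transcendental F (y i) := (others_transcendental y hy i).1
    have hfd : FiniteDimensional (IntermediateField.adjoin F {y i}) L := by
      have h1 : (IntermediateField.adjoin F {y i}).restrictScalars k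
          = IntermediateField.adjoin k (Set.range y) := by
        rw [hF, IntermediateField.adjoin_adjoin_left]
        congr 1
        rw [← Set.image_singleton, ← Set.image_union]
        rw [Set.compl_union_self, Set.image_univ]
      have h2 : FiniteDimensional ((IntermediateField.adjoin F {y i}).restrictScalars k) L := by
        rw [h1]
        exact hfin
      exact h2
    obtain ⟨V, hV, h⟩ := Pool.Agent.Helper70.GG.exists_fg_of_isIntegral htr hfd (h0 i) (h0' i)
    exact ⟨V, hV, fun g hg => h g (fd_isIntegral_adjoin F (y i) (hg i).1)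
      (fd_isIntegral_adjoin F (y i)⁻¹ (hg i).2)⟩

end Pool.Agent.Helper8.LG
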