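import Pool.Agent.Helper8.LG.Defs

/-! # LG-DEDB: bounded values on a finite-dimensional space -/

set_option autoImplicit false

namespace Pool.Agent.Helper8.LG

variable {E : Type*} [Field E]

open IsDedekindDomain

/-- the prime of `R` below the valuation ring `O` -/
private noncomputable def dbPrime (R : Subring E) (O : ValuationSubring E)
    (hO : R ≤ O.toSubring) : Ideal R :=
  Ideal.comap (Subring.inclusion hO : R →+* O.toSubring) (IsLocalRing.maximalIdeal O)

private theorem dbPrime_isPrime (R : Subring E) (O : ValuationSubring E)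
    (hO : R ≤ O.toSubring) : (dbPrime R O hO).IsPrime := by
  unfold dbPrime
  exact Ideal.comap_isPrime (Subring.inclusion hO : R →+* O.toSubring)
    (IsLocalRing.maximalIdeal O)

private theorem dbPrime_inv (R : Subring E) (O : ValuationSubring E)
    (hO : R ≤ O.toSubring) (r : R) (hr : r ∉ dbPrime R O hO) :
    (r : E) ≠ 0 ∧ (r : E)⁻¹ ∈ O := by
  have h1 : IsUnit (⟨(r : E), hO r.2⟩ : O) := by
    by_contra h
    exact hr ((IsLocalRing.mem_maximalIdeal _).2 h)
  obtain ⟨u, hu⟩ := h1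
  have h2 : (r : E) * ((u⁻¹ : Oˣ) : O) = 1 := by
    have h3 : ((u : O) : E) * ((u⁻¹ : Oˣ) : O) = 1 := by
      have := u.mul_inv
      exact congrArg (fun z : O => (z : E)) this
    rw [hu] at h3
    exact h3
  have h4 : (r : E) ≠ 0 := by
    intro h
    rw [h, zero_mul] at h2
    exact zero_ne_one h2
  refine ⟨h4, ?_⟩
  have h5 : (r : E)⁻¹ = ((u⁻¹ : Oˣ) : O) := by
    exact (eq_inv_of_mul_eq_one_right h2).symm
  rw [h5]
  exact ((u⁻¹ : Oˣ) : O).2

/-- the elements of `V` of valuation at least `n` -/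
private def dbFil {k : Type*} [Field k] [Algebra k E] (R : Subring E) [IsDedekindDomain R]
    [IsFractionRing R E] (hk : ∀ c : k, algebraMap k E c ∈ R) (V : Submodule k E)
    (v : HeightOneSpectrum R) (n : ℕ) : Submodule k V where
  carrier := {f | v.valuation E (f : E) ≤ WithZero.exp (-(n : ℤ))}
  add_mem' := by
    intro f g hf hg
    have hf' : v.valuation E (f : E) ≤ WithZero.exp (-(n : ℤ)) := hf
    have hg' : v.valuation E (g : E) ≤ WithZero.exp (-(n : ℤ)) := hg
    exact Valuation.map_add_le (v.valuation E) hf' hg'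
  zero_mem' := by
    simp
  smul_mem' := by
    intro c f hf
    show v.valuation E ((c • f : V) : E) ≤ _
    have h1 : ((c • f : V) : E) = algebraMap k E c * (f : E) := by
      rw [Submodule.coe_smul, Algebra.smul_def]
    rw [h1, map_mul]
    have h2 : v.valuation E (algebraMap k E c) ≤ 1 :=
      v.valuation_le_one (K := E) ⟨_, hk c⟩
    calc v.valuation E (algebraMap k E c) * v.valuation E (f : E)
        ≤ 1 * WithZero.exp (-(n : ℤ)) := mul_le_mul' h2 hf
      _ = _ := one_mul _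

private theorem dbBound {k : Type*} [Field k] [Algebra k E] (R : Subring E) [IsDedekindDomain R]
    [IsFractionRing R E] (hk : ∀ c : k, algebraMap k E c ∈ R) (V : Submodule k E)
    [FiniteDimensional k V] (v : HeightOneSpectrum R) :
    ∃ n : ℕ, ∀ f ∈ V, f ≠ 0 → WithZero.exp (-(n : ℤ)) < v.valuation E f := by
  have hanti : Monotone (fun n : ℕ => OrderDual.toDual (dbFil R hk V v n)) := by
    intro m n hmn
    show dbFil R hk V v n ≤ dbFil R hk V v m
    intro f hf
    have h1 : v.valuation E (f : E) ≤ WithZero.exp (-(n : ℤ)) := hf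
    show v.valuation E (f : E) ≤ WithZero.exp (-(m : ℤ))
    refine h1.trans (WithZero.exp_le_exp.2 ?_)
    have : (m : ℤ) ≤ n := by exact_mod_cast hmn
    linarith
  obtain ⟨n, hn⟩ := IsArtinian.monotone_stabilizes
    (⟨fun n : ℕ => OrderDual.toDual (dbFil R hk V v n), hanti⟩ : ℕ →o (Submodule k V)ᵒᵈ)
  refine ⟨n, ?_⟩
  intro f hfV hf0
  by_contra hle
  have hle' : v.valuation E f ≤ WithZero.exp (-(n : ℤ)) := not_lt.1 hle
  have h1 : ∀ m : ℕ, n ≤ m → v.valuation E f ≤ WithZero.exp (-(m : ℤ)) := by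
    intro m hm
    have h2 : dbFil R hk V v n = dbFil R hk V v m := hn m hm
    have h3 : (⟨f, hfV⟩ : V) ∈ dbFil R hk V v n := hle'
    rw [h2] at h3
    exact h3
  have hv0 : v.valuation E f ≠ 0 := (Valuation.ne_zero_iff _).2 hf0
  have h4 := h1 (max n ((-(WithZero.log (v.valuation E f)) + 1).toNat)) (le_max_left _ _)
  rw [← WithZero.exp_log hv0, WithZero.exp_le_exp, WithZero.exp_log hv0] at h4
  have h5 : (-(WithZero.log (v.valuation E f)) + 1) ≤
      ((max n ((-(WithZero.log (v.valuation E f)) + 1).toNat) : ℕ) : ℤ) := by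
    refine (Int.self_le_toNat _).trans ?_
    exact_mod_cast le_max_right _ _
  omega

theorem bounded_of {k : Type*} [Field k] [Algebra k E] (R : Subring E) [IsDedekindDomain R]
    [IsFractionRing R E] (hk : ∀ c : k, algebraMap k E c ∈ R) (V : Submodule k E)
    [FiniteDimensional k V] (Δ : E) (hΔ : Δ ∈ R) (hΔ0 : Δ ≠ 0) :
    ∃ C : ℕ, ∀ O : ValuationSubring E, R ≤ O.toSubring → Δ⁻¹ ∉ O → ∀ f ∈ V, f ≠ 0 →
      Δ ^ C * f⁻¹ ∈ O := by
  classical
  choose n hn using fun v : HeightOneSpectrum R => dbBound R hk V v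
  have hI : (Ideal.span {(⟨Δ, hΔ⟩ : R)}) ≠ 0 := by
    rw [Ne, Ideal.zero_eq_bot, Ideal.span_singleton_eq_bot]
    intro h
    exact hΔ0 (congrArg Subtype.val h)
  have hfin := Ideal.finite_factors hI
  refine ⟨hfin.toFinset.sup n, ?_⟩
  intro O hO hΔO f hf hf0
  have hmem : (⟨Δ, hΔ⟩ : R) ∈ dbPrime R O hO := by
    by_contra h
    exact hΔO (dbPrime_inv R O hO _ h).2
  have hP : dbPrime R O hO ≠ ⊥ := by
    intro h
    rw [h] at hmem
    exact hΔ0 (congrArg Subtype.val ((Submodule.mem_bot _).1 hmem))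
  let v : HeightOneSpectrum R := ⟨dbPrime R O hO, dbPrime_isPrime R O hO, hP⟩
  have hle : ∀ f : E, v.valuation E f ≤ 1 → f ∈ O := by
    intro f hf
    obtain ⟨n, d, h⟩ := v.exists_primeCompl_mul_eq_of_integer (K := E) f hf
    obtain ⟨h1, h2⟩ := dbPrime_inv R O hO d d.2
    have h3 : f = (n : E) * ((d : R) : E)⁻¹ := by
      rw [← div_eq_mul_inv, eq_div_iff h1]
      exact h
    rw [h3]
    exact O.mul_mem _ _ (hO n.2) h2
  have hvI : v ∈ hfin.toFinset := by
    rw [Set.Finite.mem_toFinset]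
    show v.asIdeal ∣ _
    rw [Ideal.dvd_span_singleton]
    exact hmem
  have hC : n v ≤ hfin.toFinset.sup n := Finset.le_sup hvI
  have hv0 : v.valuation E f ≠ 0 := (Valuation.ne_zero_iff _).2 hf0
  have h1 := hn v f hf hf0
  have h2 : v.valuation E Δ ≤ WithZero.exp (-1 : ℤ) := by
    have h3 : v.valuation E (algebraMap R E ⟨Δ, hΔ⟩) < 1 := by
      rw [HeightOneSpectrum.valuation_lt_one_iff_mem]
      exact hmem
    have h4 : v.valuation E Δ < 1 := h3
    have hv0' : v.valuation E Δ ≠ 0 := (Valuation.ne_zero_iff _).2 hΔ0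
    rw [← WithZero.exp_log hv0', ← WithZero.exp_zero, WithZero.exp_lt_exp] at h4
    rw [← WithZero.exp_log hv0', WithZero.exp_le_exp]
    omega
  apply hle
  rw [map_mul, map_pow, map_inv₀]
  rw [← WithZero.exp_log hv0] at h1 ⊢
  rw [WithZero.exp_lt_exp] at h1
  have hv0' : v.valuation E Δ ≠ 0 := (Valuation.ne_zero_iff _).2 hΔ0
  rw [← WithZero.exp_log hv0', WithZero.exp_le_exp] at h2
  rw [← WithZero.exp_log hv0', ← WithZero.exp_nsmul, ← WithZero.exp_neg, ← WithZero.exp_add,
    ← WithZero.exp_zero, WithZero.exp_le_exp]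
  have hC' : ((n v : ℕ) : ℤ) ≤ ((hfin.toFinset.sup n : ℕ) : ℤ) := by exact_mod_cast hC
  rw [nsmul_eq_mul]
  nlinarith [h1, h2, hC', Int.natCast_nonneg (n v),
    Int.natCast_nonneg (hfin.toFinset.sup n)]

end Pool.Agent.Helper8.LG
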