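import Pool.Agent.Helper8.LG.Defs
import Pool.Agent.Helper70.GG.OneVar

/-! # LG-RING: the integral closures -/

set_option autoImplicit false

namespace Pool.Agent.Helper8.LG

variable {E : Type*} [Field E] [CharZero E]

theorem ring_closure_eq (E₀ : Subfield E) (t : E) :
    Subring.closure ((E₀ : Set E) ∪ {t}) = (Algebra.adjoin E₀ {t}).toSubring := by
  rw [Algebra.adjoin_eq_ring_closure]
  congr 2
  ext x
  constructor
  · intro hx
    exact ⟨⟨x, hx⟩, rfl⟩
  · rintro ⟨y, rfl⟩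
    exact y.2

theorem ring_fieldClosure_eq (E₀ : Subfield E) (t : E) :
    Subfield.closure ((E₀ : Set E) ∪ {t}) = (IntermediateField.adjoin E₀ {t}).toSubfield := by
  rw [IntermediateField.adjoin_toSubfield]
  congr 2
  ext x
  constructor
  · intro hx
    exact ⟨⟨x, hx⟩, rfl⟩
  · rintro ⟨y, rfl⟩
    exact y.2

theorem ring_finite (E₀ : Subfield E) (t : E)
    (hfin : FiniteDimensional (Subfield.closure ((E₀ : Set E) ∪ {t})) E) :
    FiniteDimensional (IntermediateField.adjoin E₀ {t}) E := by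
  rw [ring_fieldClosure_eq] at hfin
  exact hfin

theorem ring_isIntegral_iff (E₀ : Subfield E) (A : Subring E) (B : Subalgebra E₀ E)
    (h : A = B.toSubring) (f : E) : IsIntegral A f ↔ IsIntegral B f := by
  subst h
  exact Iff.rfl

theorem ring_mem_intCl (E₀ : Subfield E) (t f : E) :
    f ∈ intCl E₀ t ↔ IsIntegral (Algebra.adjoin E₀ {t}) f :=
  ring_isIntegral_iff E₀ _ _ (ring_closure_eq E₀ t) f

theorem ring_intCl_eq (E₀ : Subfield E) (t : E) :
    intCl E₀ t = (integralClosure (Algebra.adjoin E₀ {t}) E).toSubring := by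
  ext f
  exact ring_mem_intCl E₀ t f

theorem ring_adjoin_dedekind (E₀ : Subfield E) (t : E) (ht : Transcendental E₀ t) :
    IsDedekindDomain (Algebra.adjoin E₀ {t}) := by
  have hinj : Function.Injective (Polynomial.aeval t : Polynomial E₀ →ₐ[E₀] E) :=
    transcendental_iff_injective.mp ht
  let e : Polynomial E₀ ≃+* Algebra.adjoin E₀ {t} :=
    ((AlgEquiv.ofInjective _ hinj).trans
      (Subalgebra.equivOfEq _ _
        (Algebra.adjoin_singleton_eq_range_aeval E₀ t).symm)).toRingEquiv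
  have : IsPrincipalIdealRing (Algebra.adjoin E₀ {t}) :=
    IsPrincipalIdealRing.of_surjective (e : Polynomial E₀ →+* Algebra.adjoin E₀ {t}) e.surjective
  infer_instance

open IntermediateField.algebraAdjoinAdjoin in
theorem intCl_dedekind (E₀ : Subfield E) (t : E) (ht : Transcendental E₀ t)
    (hfin : FiniteDimensional (Subfield.closure ((E₀ : Set E) ∪ {t})) E) :
    IsDedekindDomain (intCl E₀ t) ∧ IsFractionRing (intCl E₀ t) E := by
  have hfin' := ring_finite E₀ t hfin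
  have hD := ring_adjoin_dedekind E₀ t ht
  rw [ring_intCl_eq]
  have h1 : IsDedekindDomain (integralClosure (Algebra.adjoin E₀ {t}) E) :=
    integralClosure.isDedekindDomain (Algebra.adjoin E₀ {t}) (IntermediateField.adjoin E₀ {t}) E
  have h2 : IsFractionRing (integralClosure (Algebra.adjoin E₀ {t}) E) E :=
    integralClosure.isFractionRing_of_finite_extension (IntermediateField.adjoin E₀ {t}) E
  exact ⟨h1, h2⟩

/-- one `Δ` for the derivations and for a finite set of elements -/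
theorem exists_bound {P : Type*} [Finite P] (E₀ : Subfield E) (t : E)
    (ht : Transcendental E₀ t)
    (hfin : FiniteDimensional (Subfield.closure ((E₀ : Set E) ∪ {t})) E)
    (D : P → Derivation ℤ E E) (hE₀ : ∀ p, ∀ f ∈ E₀, D p f ∈ E₀)
    (hDt : ∀ p, D p t ∈ Subring.closure ((E₀ : Set E) ∪ {t})) (S : Set E) (hS : S.Finite) :
    ∃ Δ ∈ Subring.closure ((E₀ : Set E) ∪ {t}), Δ ≠ 0 ∧
      (∀ p, ∀ f ∈ intCl E₀ t, Δ * D p f ∈ intCl E₀ t) ∧ ∀ f ∈ S, Δ * f ∈ intCl E₀ t := by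
  classical
  have hfin' := ring_finite E₀ t hfin
  have hcl : Subring.closure ((E₀ : Set E) ∪ {t}) ≤ intCl E₀ t := by
    intro f hf
    exact isIntegral_algebraMap (R := Subring.closure ((E₀ : Set E) ∪ {t})) (x := ⟨f, hf⟩)
  have hmem : ∀ f, f ∈ Subring.closure ((E₀ : Set E) ∪ {t}) ↔ f ∈ Algebra.adjoin E₀ {t} := by
    intro f
    rw [ring_closure_eq]
    exact Iff.rfl
  have h1 : ∀ p, ∃ Δ ∈ Subring.closure ((E₀ : Set E) ∪ {t}), Δ ≠ 0 ∧
      ∀ f ∈ intCl E₀ t, Δ * D p f ∈ intCl E₀ t := by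
    intro p
    obtain ⟨Δ, hΔ, hΔ0, h⟩ := Pool.Agent.Helper70.GG.exists_derivation_bound ht hfin' (D p)
      (fun a => ⟨⟨D p a, hE₀ p a a.2⟩, rfl⟩) ((hmem _).1 (hDt p))
    exact ⟨Δ, (hmem _).2 hΔ, hΔ0, fun f hf =>
      (ring_mem_intCl E₀ t _).2 (h f ((ring_mem_intCl E₀ t f).1 hf))⟩
  have h2 : ∀ f, ∃ c ∈ Subring.closure ((E₀ : Set E) ∪ {t}), c ≠ 0 ∧ c * f ∈ intCl E₀ t := by
    intro f
    obtain ⟨c, hc, hc0, h⟩ := Pool.Agent.Helper70.GG.exists_mul_isIntegral
      (IntermediateField.adjoin E₀ {t}) rfl f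
    exact ⟨c, (hmem _).2 hc, hc0, (ring_mem_intCl E₀ t _).2 h⟩
  choose Δ₁ hΔ₁ hΔ₁0 hΔ₁D using h1
  choose c hc hc0 hcf using h2
  have := Fintype.ofFinite P
  refine ⟨(∏ p, Δ₁ p) * ∏ f ∈ hS.toFinset, c f, ?_, ?_, ?_, ?_⟩
  · exact mul_mem (prod_mem fun p _ => hΔ₁ p) (prod_mem fun f _ => hc f)
  · exact mul_ne_zero (Finset.prod_ne_zero_iff.2 fun p _ => hΔ₁0 p)
      (Finset.prod_ne_zero_iff.2 fun f _ => hc0 f)
  · intro p f hf
    rw [← Finset.mul_prod_erase Finset.univ Δ₁ (Finset.mem_univ p)]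
    have h3 : Δ₁ p * (∏ x ∈ Finset.univ.erase p, Δ₁ x) * (∏ f ∈ hS.toFinset, c f) * D p f =
        ((∏ x ∈ Finset.univ.erase p, Δ₁ x) * (∏ f ∈ hS.toFinset, c f)) * (Δ₁ p * D p f) := by
      ring
    rw [h3]
    exact mul_mem (hcl (mul_mem (prod_mem fun p _ => hΔ₁ p) (prod_mem fun f _ => hc f)))
      (hΔ₁D p f hf)
  · intro f hf
    rw [← Finset.mul_prod_erase hS.toFinset c (hS.mem_toFinset.2 hf)]
    have h3 : (∏ p, Δ₁ p) * (c f * ∏ x ∈ hS.toFinset.erase f, c x) * f =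
        ((∏ p, Δ₁ p) * ∏ x ∈ hS.toFinset.erase f, c x) * (c f * f) := by
      ring
    rw [h3]
    exact mul_mem (hcl (mul_mem (prod_mem fun p _ => hΔ₁ p) (prod_mem fun f _ => hc f)))
      (hcf f)

/-- an element integral over `E₀[t]` and over `E₀[1/t]` is algebraic over `E₀` -/
theorem algebraic_of_mem (E₀ : Subfield E) (t : E) (ht : Transcendental E₀ t)
    (hfin : FiniteDimensional (Subfield.closure ((E₀ : Set E) ∪ {t})) E) (f : E)
    (h1 : f ∈ intCl E₀ t) (h2 : f ∈ intCl E₀ t⁻¹) : IsAlgebraic E₀ f := by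
  have hfin' := ring_finite E₀ t hfin
  exact (Pool.Agent.Helper70.GG.isIntegral_of_charts ht hfin' ((ring_mem_intCl E₀ t f).1 h1)
    ((ring_mem_intCl E₀ t⁻¹ f).1 h2)).isAlgebraic

end Pool.Agent.Helper8.LG
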