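import Pool.Agent.Helper8.LG.Ded
import Pool.Agent.Helper8.LG.DedBound
import Pool.Agent.Helper8.LG.Ring

/-! # LG-DIR2: one direction of the base, second round -/

set_option autoImplicit false

namespace Pool.Agent.Helper8.LG

open scoped BigOperators

section DirTwoAux

variable {L : Type*} [Field L] {σ : Type*}

theorem dirTwo_mon_mul {n : ℕ} (x : σ → L) (c : L) (J : Sym σ n) :
    mon (fun l => c * x l) J = c ^ n * mon x J := by
  unfold mon
  rw [Multiset.prod_map_mul, Multiset.map_const', Multiset.prod_replicate]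
  congr 2
  exact J.2

theorem dirTwo_form_mul [Fintype σ] [DecidableEq σ] {n : ℕ} (a : Sym σ n → L) (x : σ → L)
    (c : L) : form a (fun l => c * x l) = c ^ n * form a x := by
  unfold form
  rw [Finset.mul_sum]
  refine Finset.sum_congr rfl fun J _ => ?_
  rw [dirTwo_mon_mul]
  ring

theorem dirTwo_mon_mem (R : Subring L) {n : ℕ} (c : L) (x : σ → L) (hx : ∀ l, c * x l ∈ R)
    (J : Sym σ n) : c ^ n * mon x J ∈ R := by
  rw [← dirTwo_mon_mul]
  unfold mon
  refine multiset_prod_mem _ fun b hb => ?_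
  obtain ⟨l, _, rfl⟩ := Multiset.mem_map.1 hb
  exact hx l

theorem dirTwo_int_mem (O : ValuationSubring L) (A : Subring L) (hA : A ≤ O.toSubring)
    {f : L} (hf : IsIntegral A f) : f ∈ O := by
  have h1 : IsIntegral O f := by
    obtain ⟨p, hp, hpe⟩ := hf
    refine ⟨p.map (Subring.inclusion hA), hp.map _, ?_⟩
    rw [Polynomial.eval₂_map]
    exact hpe
  obtain ⟨y, hy⟩ := (IsIntegrallyClosed.isIntegral_iff (R := O) (K := L)).1 h1
  rw [← hy]
  exact y.2

theorem dirTwo_prod_mem {k : Type*} [Field k] [Algebra k L] (V : Submodule k L) (x : σ → L)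
    (hx : ∀ l, x l ∈ V) (J : Multiset σ) : (J.map x).prod ∈ V ^ (Multiset.card J) := by
  induction J using Multiset.induction_on with
  | empty =>
    rw [Multiset.map_zero, Multiset.prod_zero, Multiset.card_zero, pow_zero]
    exact Submodule.one_le.1 le_rfl
  | cons l J ih =>
    rw [Multiset.map_cons, Multiset.prod_cons, Multiset.card_cons, pow_succ']
    exact Submodule.mul_mem_mul (hx l) ih

theorem dirTwo_mon_pow {k : Type*} [Field k] [Algebra k L] (V : Submodule k L) {n : ℕ}
    (x : σ → L) (hx : ∀ l, x l ∈ V) (J : Sym σ n) : mon x J ∈ V ^ n := by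
  have h := dirTwo_prod_mem V x hx (J : Multiset σ)
  have e : Multiset.card (J : Multiset σ) = n := J.2
  rw [e] at h
  exact h

/-- the space containing all values of the form at points with coordinates in `V` -/
noncomputable def dirTwoW {k : Type*} [Field k] [Algebra k L] (V : Submodule k L) {n : ℕ}
    (a : Sym σ n → L) : Submodule k L :=
  Submodule.span k (Set.range a) * V ^ n

theorem dirTwo_form_mem {k : Type*} [Field k] [Algebra k L] [Fintype σ] [DecidableEq σ]
    (V : Submodule k L) {n : ℕ} (a : Sym σ n → L) (x : σ → L) (hx : ∀ l, x l ∈ V) :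
    form a x ∈ dirTwoW V a := by
  unfold form dirTwoW
  refine Submodule.sum_mem _ fun J _ => ?_
  exact Submodule.mul_mem_mul (Submodule.subset_span ⟨J, rfl⟩) (dirTwo_mon_pow V x hx J)

theorem dirTwo_finite {k : Type*} [Field k] [Algebra k L] [Fintype σ] [DecidableEq σ]
    (V : Submodule k L) [FiniteDimensional k V] {n : ℕ} (a : Sym σ n → L) :
    FiniteDimensional k (dirTwoW V a) := by
  have h1 : V.FG := Module.Finite.iff_fg.1 inferInstance
  have h2 : (Submodule.span k (Set.range a)).FG := Submodule.fg_span (Set.finite_range a)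
  exact Module.Finite.iff_fg.2 (h2.mul (h1.pow n))

end DirTwoAux

/-- second round: the poles of `x^J/F_i(x)` and of `G^(e_i) y_i` are bounded -/
theorem dir_two {k L : Type*} [Field k] [Field L] [CharZero L] [Algebra k L]
    {σ ι : Type*} [Fintype σ] [DecidableEq σ] [Fintype ι] [DecidableEq ι]
    (d e m : ι → ℕ) (a : (i : ι) → Sym σ (d i) → L) (D : Ix σ d → Derivation ℤ L L)
    (Z C : Finset ι) (i₀ : σ) (w c : ℕ) (hnum : Num d e m Z C w c)
    (E₀ : Subfield L) (hk : ∀ c : k, algebraMap k L c ∈ E₀) (t : L) (ht : Transcendental E₀ t)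
    (hfin : FiniteDimensional (Subfield.closure ((E₀ : Set L) ∪ {t})) L)
    (S : Set L) (hS : S.Finite) (hSa : ∀ p : Ix σ d, a p.1 p.2 ∈ S)
    (V : Submodule k L) [FiniteDimensional k V] :
    ∃ Δ : L, Δ ≠ 0 ∧ ∀ (x : σ → L) (y : ι → L) (G : L),
      Good d m a D Z C i₀ w (Subring.closure ((E₀ : Set L) ∪ S)) x y →
      G ≠ 0 → (∀ l, G * x l ∈ V) →
      (∀ i ∉ Z, i ∉ C → ∀ J : Sym σ (d i), Δ * (mon x J / form (a i) x) ∈ intCl E₀ t) ∧
      ∀ i ∈ C, Δ * (G ^ e i * y i) ∈ intCl E₀ t := by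
  classical
  obtain ⟨T, hT⟩ : V.FG := Module.Finite.iff_fg.1 inferInstance
  obtain ⟨Δ₀, hΔc, hΔ0, _, hΔS⟩ := exists_bound (P := Empty) E₀ t ht hfin (fun p => p.elim)
    (fun p => p.elim) (fun p => p.elim) (S ∪ (T : Set L)) (hS.union T.finite_toSet)
  obtain ⟨hDed, hFrac⟩ := intCl_dedekind E₀ t ht hfin
  have hcl : Subring.closure ((E₀ : Set L) ∪ {t}) ≤ intCl E₀ t := by
    intro f hf
    exact isIntegral_algebraMap (R := Subring.closure ((E₀ : Set L) ∪ {t})) (x := ⟨f, hf⟩)
  have hE₀R : ∀ f ∈ E₀, f ∈ intCl E₀ t := fun f hf =>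
    hcl (Subring.subset_closure (Or.inl hf))
  have hkR : ∀ c : k, algebraMap k L c ∈ intCl E₀ t := fun c => hE₀R _ (hk c)
  have hΔR : Δ₀ ∈ intCl E₀ t := hcl hΔc
  -- elements of `V` have bounded poles
  have hVR : ∀ v ∈ V, Δ₀ * v ∈ intCl E₀ t := by
    intro v hv
    rw [← hT] at hv
    induction hv using Submodule.span_induction with
    | mem v hv => exact hΔS v (Or.inr hv)
    | zero => rw [mul_zero]; exact zero_mem _
    | add u v _ _ hu hv => rw [mul_add]; exact add_mem hu hv
    | smul c v _ hv =>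
      rw [Algebra.smul_def, mul_left_comm]
      exact mul_mem (hkR c) hv
  -- the constants of `bounded_of`
  have hB : ∀ i : ι, ∃ c : ℕ, ∀ O : ValuationSubring L, intCl E₀ t ≤ O.toSubring →
      Δ₀⁻¹ ∉ O → ∀ f ∈ dirTwoW V (a i), f ≠ 0 → Δ₀ ^ c * f⁻¹ ∈ O := by
    intro i
    have := dirTwo_finite V (a i)
    exact bounded_of (intCl E₀ t) hkR (dirTwoW V (a i)) Δ₀ hΔR hΔ0
  choose B hB using hB
  set N : ℕ := ∑ i, (B i + d i + 1) with hN
  have hNi : ∀ i, B i + d i + 1 ≤ N := fun i =>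
    Finset.single_le_sum (f := fun i => B i + d i + 1) (fun _ _ => Nat.zero_le _)
      (Finset.mem_univ i)
  refine ⟨Δ₀ ^ N, pow_ne_zero _ hΔ0, ?_⟩
  intro x y G hgood hG hGx
  -- the monomials and the forms at `G x`
  have hmon : ∀ i (J : Sym σ (d i)), Δ₀ ^ d i * mon (fun l => G * x l) J ∈ intCl E₀ t :=
    fun i J => dirTwo_mon_mem (intCl E₀ t) Δ₀ _ (fun l => hVR _ (hGx l)) J
  refine ⟨?_, ?_⟩
  · intro i hiZ hiC J
    refine mem_of (intCl E₀ t) _ fun O hO => ?_
    have hΔO : Δ₀ ∈ O := hO hΔR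
    by_cases hinv : Δ₀⁻¹ ∈ O
    · have hA : Subring.closure ((E₀ : Set L) ∪ S) ≤ O.toSubring := by
        rw [Subring.closure_le]
        rintro f (hf | hf)
        · exact hO (hE₀R f hf)
        · have h1 : f = Δ₀⁻¹ * (Δ₀ * f) := by
            rw [← mul_assoc, inv_mul_cancel₀ hΔ0, one_mul]
          rw [h1]
          exact mul_mem (S := ValuationSubring L) hinv (hO (hΔS f (Or.inl hf)))
      exact mul_mem (pow_mem hΔO N) (dirTwo_int_mem O _ hA (hgood.int i hiZ hiC J))
    · have hne : form (a i) (fun l => G * x l) ≠ 0 := by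
        rw [dirTwo_form_mul]
        exact mul_ne_zero (pow_ne_zero _ hG) (hgood.ne i hiZ)
      have h1 := hB i O hO hinv _ (dirTwo_form_mem V (a i) _ hGx) hne
      have h2 : Δ₀ ^ d i * mon (fun l => G * x l) J ∈ O := hO (hmon i J)
      have h3 : mon x J / form (a i) x
          = mon (fun l => G * x l) J * (form (a i) (fun l => G * x l))⁻¹ := by
        rw [dirTwo_mon_mul, dirTwo_form_mul]
        have := hgood.ne i hiZ
        field_simp
      obtain ⟨r, hr⟩ := Nat.exists_eq_add_of_le (hNi i)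
      have h4 : Δ₀ ^ N * (mon x J / form (a i) x) = Δ₀ ^ (r + 1)
          * ((Δ₀ ^ B i * (form (a i) (fun l => G * x l))⁻¹)
            * (Δ₀ ^ d i * mon (fun l => G * x l) J)) := by
        rw [h3, hr]
        ring
      rw [h4]
      exact mul_mem (pow_mem hΔO _) (mul_mem h1 h2)
  · intro i hiC
    have hdm : d i = m i * e i := hnum.deg i hiC
    have hm : 0 < m i := by
      rcases Nat.eq_zero_or_pos (m i) with h0 | h0
      · have := hnum.pos i
        rw [hdm, h0, zero_mul] at this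
        exact absurd this (lt_irrefl 0)
      · exact h0
    have hroot : (G ^ e i * y i) ^ m i = form (a i) (fun l => G * x l) := by
      have h1 : G ^ d i = G ^ (e i * m i) := congrArg (fun r => G ^ r) (hdm.trans (mul_comm _ _))
      rw [mul_pow, hgood.root i hiC, dirTwo_form_mul, ← pow_mul, h1]
    have hform : Δ₀ ^ (d i + 1) * form (a i) (fun l => G * x l) ∈ intCl E₀ t := by
      unfold form
      rw [Finset.mul_sum]
      refine sum_mem fun J _ => ?_
      have h1 : Δ₀ ^ (d i + 1) * (a i J * mon (fun l => G * x l) J)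
          = (Δ₀ * a i J) * (Δ₀ ^ d i * mon (fun l => G * x l) J) := by ring
      rw [h1]
      exact mul_mem (hΔS _ (Or.inl (hSa ⟨i, J⟩))) (hmon i J)
    have hz : Δ₀ ^ (d i + 1) * (G ^ e i * y i) ∈ intCl E₀ t := by
      have h1 : (Δ₀ ^ (d i + 1) * (G ^ e i * y i)) ^ m i ∈ intCl E₀ t := by
        obtain ⟨r, hr⟩ := Nat.exists_eq_succ_of_ne_zero hm.ne'
        have h2 : (Δ₀ ^ (d i + 1) * (G ^ e i * y i)) ^ m i
            = (Δ₀ ^ (d i + 1)) ^ r * (Δ₀ ^ (d i + 1) * form (a i) (fun l => G * x l)) := by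
          rw [mul_pow, hroot, hr, pow_succ]
          ring
        rw [h2]
        exact mul_mem (pow_mem (pow_mem hΔR _) r) hform
      exact IsIntegral.of_pow hm h1
    obtain ⟨r, hr⟩ := Nat.exists_eq_add_of_le (hNi i)
    have h4 : Δ₀ ^ N * (G ^ e i * y i)
        = Δ₀ ^ (B i + r) * (Δ₀ ^ (d i + 1) * (G ^ e i * y i)) := by
      rw [hr]
      ring
    rw [h4]
    exact mul_mem (pow_mem hΔR _) hz

end Pool.Agent.Helper8.LG
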