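import Mathlib

/-! # LG-EXCH: the exchange step -/

set_option autoImplicit false

namespace Pool.Agent.Helper8.LG

theorem exch_iff {L E : Type*} [Field L] [Field E] [Algebra L E] (S : Set E) (f : E) :
    IsAlgebraic (IntermediateField.adjoin L S) f ↔
      f ∈ (AlgebraicIndependent.matroid L E).closure S := by
  rw [AlgebraicIndependent.matroid_closure_eq, SetLike.mem_coe, Subalgebra.mem_algebraicClosure]
  exact IntermediateField.isAlgebraic_adjoin_iff

/-- The exchange step. -/
theorem exchange {L E : Type*} [Field L] [Field E] [Algebra L E] {β : Type*} [Finite β]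
    (c : β → E) (hc : AlgebraicIndependent L c)
    (f : E) (hf : IsAlgebraic (IntermediateField.adjoin L (Set.range c)) f)
    (h : ∀ b, IsAlgebraic (IntermediateField.adjoin L (c '' {b}ᶜ)) f) : IsAlgebraic L f := by
  have hinj : Function.Injective c := hc.injective
  have hI : (AlgebraicIndependent.matroid L E).Indep (Set.range c) := by
    rw [AlgebraicIndependent.matroid_indep_iff]
    exact hc.to_subtype_range
  have h0 : IsAlgebraic (IntermediateField.adjoin L (∅ : Set E)) f := by
    rw [exch_iff]
    rcases isEmpty_or_nonempty β with hβ | hβ
    · rw [exch_iff] at hf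
      rwa [Set.range_eq_empty] at hf
    · have key := Matroid.Indep.closure_iInter_eq_biInter_closure_of_forall_subset
        (Js := fun b => c '' {b}ᶜ) hI (fun b => Set.image_subset_range _ _)
      have he : (⋂ b, c '' {b}ᶜ) = (∅ : Set E) := by
        ext x
        simp only [Set.mem_iInter, Set.mem_image, Set.mem_compl_iff, Set.mem_singleton_iff,
          Set.mem_empty_iff_false, iff_false]
        intro hx
        obtain ⟨b⟩ := hβ
        obtain ⟨y, -, hy⟩ := hx b
        obtain ⟨z, hz, hz'⟩ := hx y
        exact hz (hinj (hz'.trans hy.symm))
      rw [he] at key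
      rw [key, Set.mem_iInter]
      intro b
      rw [← exch_iff]
      exact h b
  rw [IntermediateField.adjoin_empty] at h0
  exact h0.restrictScalars L

end Pool.Agent.Helper8.LG
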