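import Pool.Agent.Helper8.LG.Defs

/-! # LG-SEI: Seidenberg's theorem -/

set_option autoImplicit false

namespace Pool.Agent.Helper8.LG

/-- Iterated differences of the iterates of a derivation. -/
private def sU {E : Type*} [CommRing E] (D : E → E) (y : E) : ℕ → ℕ → E → E
  | 0, m, c => D^[m] c
  | n + 1, m, c => sU D y n m (c * y) - y * sU D y n m c

private theorem sU_zero_right {E : Type*} [CommRing E] (D : E → E) (y : E) (n : ℕ) (c : E) :
    sU D y (n + 1) 0 c = 0 := by
  induction n generalizing c with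
  | zero => simp [sU, mul_comm]
  | succ n ih =>
    rw [sU, ih, ih]
    simp

private theorem sU_succ_right {E : Type*} [CommRing E] (D : Derivation ℤ E E) (y : E) (n m : ℕ)
    (c : E) : sU D y (n + 1) (m + 1) c = D (sU D y (n + 1) m c) + (n + 1) * D y * sU D y n m c := by
  induction n generalizing c with
  | zero =>
    simp only [sU, Function.iterate_succ_apply', map_sub, Derivation.leibniz, smul_eq_mul]
    push_cast
    ring
  | succ n ih =>
    have h1 : sU D y (n + 1 + 1) (m + 1) c =
        sU D y (n + 1) (m + 1) (c * y) - y * sU D y (n + 1) (m + 1) c := rfl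
    have h2 : sU D y (n + 1 + 1) m c = sU D y (n + 1) m (c * y) - y * sU D y (n + 1) m c := rfl
    have h3 : sU D y (n + 1) m c = sU D y n m (c * y) - y * sU D y n m c := rfl
    rw [h1, ih, ih, h2, map_sub, Derivation.leibniz, smul_eq_mul, smul_eq_mul]
    push_cast
    linear_combination (-(n + 1 : E) * D y) * h3

private theorem sU_of_lt {E : Type*} [CommRing E] (D : Derivation ℤ E E) (y : E) (m n : ℕ)
    (h : m < n) (c : E) : sU D y n m c = 0 := by
  induction m generalizing n c with
  | zero =>
    obtain ⟨n, rfl⟩ := Nat.exists_eq_succ_of_ne_zero h.ne'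
    exact sU_zero_right D y n c
  | succ m ih =>
    obtain ⟨n, rfl⟩ := Nat.exists_eq_succ_of_ne_zero (Nat.ne_of_gt (Nat.zero_lt_of_lt h))
    rw [Nat.succ_eq_add_one, sU_succ_right, ih (n + 1) (by omega), ih n (by omega)]
    simp

private theorem sU_diag {E : Type*} [CommRing E] (D : Derivation ℤ E E) (y : E) (n : ℕ) (c : E) :
    sU D y n n c = n.factorial * D y ^ n * c := by
  induction n generalizing c with
  | zero => simp [sU]
  | succ n ih =>
    rw [sU_succ_right, sU_of_lt D y n (n + 1) (by omega), ih, Nat.factorial_succ, pow_succ]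
    push_cast
    simp only [map_zero, zero_add]
    ring

private theorem sU_mem {E : Type*} [CommRing E] (D : E → E) (y : E) (S : Subring E)
    (hD : ∀ x ∈ S, D x ∈ S) (b : E) (hb : ∀ i : ℕ, b * y ^ i ∈ S) (n m : ℕ) (c : E)
    (hc : ∀ i : ℕ, c * y ^ i ∈ S) (i : ℕ) : b * y ^ i * sU D y n m c ∈ S := by
  induction n generalizing c i with
  | zero =>
    refine S.mul_mem (hb i) ?_
    rw [sU]
    have h : ∀ m : ℕ, D^[m] c ∈ S := by
      intro m
      induction m with
      | zero => simpa using hc 0
      | succ m ih =>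
        rw [Function.iterate_succ_apply']
        exact hD _ ih
    exact h m
  | succ n ih =>
    have h1 := ih (c * y) (fun i => by
      have := hc (i + 1)
      rwa [pow_succ', ← mul_assoc] at this) i
    have h2 := ih c hc (i + 1)
    have e : b * y ^ i * sU D y (n + 1) m c =
        b * y ^ i * sU D y n m (c * y) - b * y ^ (i + 1) * sU D y n m c := by
      rw [sU, pow_succ]
      ring
    rw [e]
    exact S.sub_mem h1 h2

theorem seidenberg {E : Type*} [Field E] [CharZero E] (A : Subring E) [IsNoetherianRing A]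
    (hQ : ∀ n : ℕ, n ≠ 0 → ((n : E))⁻¹ ∈ A)
    (hfrac : ∀ f : E, ∃ b ∈ A, b ≠ 0 ∧ f * b ∈ A)
    (D : Derivation ℤ E E) (hD : ∀ f ∈ A, D f ∈ A) (f : E) (hf : IsIntegral A f) :
    IsIntegral A (D f) := by
  have hr : ∀ x : E, x ∈ (algebraMap A E).range ↔ x ∈ A := by
    intro x
    constructor
    · rintro ⟨a, rfl⟩
      exact a.2
    · intro hx
      exact ⟨⟨x, hx⟩, rfl⟩
  have hnz : ∀ {b : A}, (b : E) ≠ 0 → b ∈ nonZeroDivisors A := by
    intro b hb
    refine mem_nonZeroDivisors_of_ne_zero ?_
    rintro rfl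
    exact hb rfl
  obtain ⟨b, hb, hb0, hfb⟩ := hfrac f
  obtain ⟨r, hr0, h⟩ := hf.isAlmostIntegral_of_exists_smul_mem_range
    ⟨⟨b, hb⟩, hnz hb0, (hr _).mpr (by
      rw [Algebra.smul_def, mul_comm]
      exact hfb)⟩
  have hr' : ∀ i : ℕ, (r : E) * f ^ i ∈ A := by
    intro i
    have := (hr _).mp (h i)
    rwa [Algebra.smul_def] at this
  refine IsAlmostIntegral.isIntegral ⟨r * r, mul_mem hr0 hr0, fun n => ?_⟩
  have h1 := sU_mem D f A hD _ hr' n n _ hr' 0
  rw [sU_diag, pow_zero, mul_one] at h1
  rw [hr, Algebra.smul_def]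
  have h2 := A.mul_mem (hQ n.factorial n.factorial_ne_zero) h1
  have h3 : (n.factorial : E) ≠ 0 := by exact_mod_cast n.factorial_ne_zero
  have e : (algebraMap A E) (r * r) * D f ^ n =
      ((n.factorial : E))⁻¹ * ((r : E) * ((n.factorial : E) * D f ^ n * r)) := by
    rw [map_mul]
    change ((r : E) * (r : E)) * D f ^ n = _
    field_simp
  rw [e]
  exact h2

end Pool.Agent.Helper8.LG
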