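import Pool.Agent.Helper8.LG.Defs

/-! # LG-OTH: the fields generated by all variables but one -/

set_option autoImplicit false

namespace Pool.Agent.Helper8.LG

/-- `y_i` is transcendental over the field generated by the others and `L` is finite over
the field generated by both. -/
theorem others_transcendental {k L τ : Type*} [Field k] [Field L] [Algebra k L]
    (y : τ → L) (hy : AlgebraicIndependent k y) (i : τ) :
    Transcendental (others (k := k) y i) (y i) ∧
      Transcendental (others (k := k) y i) (y i)⁻¹ := by
  have h1 : Transcendental (IntermediateField.adjoin k (y '' {i}ᶜ)) (y i) :=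
    IntermediateField.transcendental_adjoin_iff.mpr
      (hy.transcendental_adjoin (s := {i}ᶜ) (i := i) (by simp))
  have h2 : Transcendental (others (k := k) y i) (y i) := h1
  refine ⟨h2, fun h => h2 ?_⟩
  have := h.inv
  rwa [inv_inv] at this

private theorem oth_le {k L τ : Type*} [Field k] [Field L] [Algebra k L] (y : τ → L) (i : τ)
    (t : L) (ht : t ∈ IntermediateField.adjoin k (Set.range y)) :
    Subfield.closure ((others (k := k) y i : Set L) ∪ {t}) ≤
      (IntermediateField.adjoin k (Set.range y)).toSubfield := by
  refine Subfield.closure_le.mpr ?_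
  rintro z (hz | hz)
  · have hle : IntermediateField.adjoin k (y '' {i}ᶜ) ≤ IntermediateField.adjoin k (Set.range y) :=
      IntermediateField.adjoin.mono k _ _ (Set.image_subset_range _ _)
    exact hle hz
  · rw [Set.mem_singleton_iff] at hz
    rw [hz]
    exact ht

private theorem oth_ge {k L τ : Type*} [Field k] [Field L] [Algebra k L] (y : τ → L) (i : τ)
    (S : Subfield L) (h1 : (others (k := k) y i : Set L) ⊆ S) (h2 : y i ∈ S) :
    (IntermediateField.adjoin k (Set.range y)).toSubfield ≤ S := by
  have hk : ∀ c : k, algebraMap k L c ∈ S := fun c =>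
    h1 ((IntermediateField.adjoin k (y '' {i}ᶜ)).algebraMap_mem c)
  let T : IntermediateField k L := { S with algebraMap_mem' := hk }
  have hT : IntermediateField.adjoin k (Set.range y) ≤ T := by
    refine IntermediateField.adjoin_le_iff.mpr ?_
    rintro _ ⟨j, rfl⟩
    by_cases hj : j = i
    · rw [hj]; exact h2
    · exact h1 (IntermediateField.subset_adjoin k _ (Set.mem_image_of_mem _ hj))
  exact fun z hz => hT hz

theorem others_finite {k L τ : Type*} [Field k] [Field L] [Algebra k L]
    (y : τ → L) (hfin : FiniteDimensional (IntermediateField.adjoin k (Set.range y)) L)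
    (i : τ) :
    FiniteDimensional (Subfield.closure ((others (k := k) y i : Set L) ∪ {y i})) L ∧
      FiniteDimensional (Subfield.closure ((others (k := k) y i : Set L) ∪ {(y i)⁻¹})) L := by
  have hy : y i ∈ IntermediateField.adjoin k (Set.range y) :=
    IntermediateField.subset_adjoin k _ (Set.mem_range_self i)
  have hfin' : FiniteDimensional (IntermediateField.adjoin k (Set.range y)).toSubfield L := hfin
  have e1 : Subfield.closure ((others (k := k) y i : Set L) ∪ {y i}) =
      (IntermediateField.adjoin k (Set.range y)).toSubfield := by
    refine le_antisymm (oth_le y i _ hy) (oth_ge y i _ ?_ ?_)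
    · exact fun z hz => Subfield.subset_closure (Or.inl hz)
    · exact Subfield.subset_closure (Or.inr rfl)
  have e2 : Subfield.closure ((others (k := k) y i : Set L) ∪ {(y i)⁻¹}) =
      (IntermediateField.adjoin k (Set.range y)).toSubfield := by
    refine le_antisymm (oth_le y i _ (inv_mem hy)) (oth_ge y i _ ?_ ?_)
    · exact fun z hz => Subfield.subset_closure (Or.inl hz)
    · have := inv_mem (Subfield.subset_closure
        (s := (others (k := k) y i : Set L) ∪ {(y i)⁻¹}) (Or.inr rfl))
      rwa [inv_inv] at this
  constructor
  · rw [e1]; exact hfin'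
  · rw [e2]; exact hfin'

end Pool.Agent.Helper8.LG
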