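import Pool.Agent.Helper8.LG.FieldProj

/-! # LG-FIELD: the theorem over fields, with a change of coordinates -/

set_option autoImplicit false

open MvPolynomial

namespace Pool.Agent.Helper8.LG

open scoped BigOperators LinearAlgebra.Projectivization

private theorem fmain_mon_smul {M : Type*} [Field M] {N n : ℕ} (c : M) (x : Fin (N + 1) → M)
    (J : Sym (Fin (N + 1)) n) : mon (fun i => c * x i) J = c ^ n * mon x J := by
  rw [mon, mon, Multiset.prod_map_mul, Multiset.map_const', Multiset.prod_replicate, Sym.card_coe]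

private theorem fmain_mon_map {L M : Type*} [Field L] [Field M] [Algebra L M] {N n : ℕ}
    (x : Fin (N + 1) → L) (J : Sym (Fin (N + 1)) n) :
    mon (fun i => algebraMap L M (x i)) J = algebraMap L M (mon x J) := by
  rw [mon, mon, map_multiset_prod, Multiset.map_map]
  rfl

private theorem fmain_eval_smul {M : Type*} [Field M] {N n : ℕ}
    (F : MvPolynomial (Fin (N + 1)) M) (hF : F.IsHomogeneous n) (c : M)
    (x : Fin (N + 1) → M) : eval (fun i => c * x i) F = c ^ n * eval x F := by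
  rw [← form_cf F hF, ← form_cf F hF, form, form, Finset.mul_sum]
  refine Finset.sum_congr rfl (fun J _ => ?_)
  rw [fmain_mon_smul]
  ring

private theorem fmain_ratio_smul {k₀ M : Type*} [Field k₀] [Field M] [Algebra k₀ M] {N : ℕ}
    (c : M) (hc : c ≠ 0) (x : Fin (N + 1) → M) :
    ratioField k₀ (fun i => c * x i) = ratioField k₀ x := by
  rw [ratioField, ratioField]
  congr 1
  ext z
  simp only [Set.mem_ofPred_eq, mul_div_mul_left _ _ hc]

/-- with a change of coordinates `g` over an extension field `M` -/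
theorem field_main {k₀ L M : Type*} [Field k₀] [Field L] [Field M] [CharZero M]
    [Algebra k₀ M] [Algebra L M] (hfg : (⊤ : IntermediateField k₀ M).FG) {N r : ℕ}
    (d m : Fin r → ℕ) (hd : ∀ i, 0 < d i) (F : Fin r → MvPolynomial (Fin (N + 1)) L)
    (hF : ∀ i, (F i).IsHomogeneous (d i)) (g : GL (Fin (N + 1)) M) (w c : ℕ)
    (Z C : Finset (Fin r)) (hZC : Disjoint Z C) (hm : ∀ i ∈ C, m i ∣ d i)
    (hcoef : ((∑ i, (N + d i).choose N : ℕ) : Cardinal) ≤
      Algebra.trdeg k₀ (coeffField k₀ fun i => subst (g : Matrix _ _ M) (F i)) + c)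
    (hnum : 2 * w + 2 + c + ∑ i ∈ C, d i / m i ≤ ∑ i, d i + Z.card ∨
      Z = Finset.univ ∧ 2 * w + 1 + c ≤ ∑ i, (d i + 1) ∧ w + 2 ≤ ∑ i, d i ∧
        2 * N + c ≤ ∑ i, (d i + 1) + 1)
    (A : Subalgebra k₀ M) (hA : A.FG) :
    {x : ℙ L (Fin (N + 1) → L) |
      Algebra.trdeg k₀ (ratioField k₀
        ((g⁻¹ : GL (Fin (N + 1)) M).1.mulVec fun i => algebraMap L M (x.rep i))) ≤ w ∧
      (∀ i ∈ Z, eval x.rep (F i) = 0) ∧ (∀ i ∈ C, ∃ y : L, y ^ m i = eval x.rep (F i)) ∧
      ∀ i ∉ Z, i ∉ C → eval x.rep (F i) ≠ 0 ∧ ∀ J : Sym (Fin (N + 1)) (d i),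
        IsIntegral A (algebraMap L M (mon x.rep J / eval x.rep (F i)))}.Finite := by
  classical
  obtain ⟨h, hh⟩ : ∃ h : Matrix (Fin (N + 1)) (Fin (N + 1)) M,
      h = (g⁻¹ : GL (Fin (N + 1)) M).1 := ⟨_, rfl⟩
  have hgh : (g : Matrix (Fin (N + 1)) (Fin (N + 1)) M) * h = 1 := by
    rw [hh]; exact Units.mul_inv g
  have hhg : h * (g : Matrix (Fin (N + 1)) (Fin (N + 1)) M) = 1 := by
    rw [hh]; exact Units.inv_mul g
  rw [← hh]
  -- the coordinates over `M`
  obtain ⟨ξ, hξ⟩ : ∃ ξ : ℙ L (Fin (N + 1) → L) → Fin (N + 1) → M,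
      ξ = fun x i => algebraMap L M (x.rep i) := ⟨_, rfl⟩
  have hgy : ∀ x, (g : Matrix (Fin (N + 1)) (Fin (N + 1)) M).mulVec (h.mulVec (ξ x)) = ξ x := by
    intro x
    rw [Matrix.mulVec_mulVec, hgh, Matrix.one_mulVec]
  have hy0 : ∀ x, h.mulVec (ξ x) ≠ 0 := by
    intro x hx
    have h1 := hgy x
    rw [hx, Matrix.mulVec_zero, hξ] at h1
    refine x.rep_nonzero (funext fun i => ?_)
    have h2 := congrFun h1 i
    simp only [Pi.zero_apply] at h2 ⊢
    exact (map_eq_zero_iff _ (algebraMap L M).injective).1 h2.symm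
  -- the new polynomials
  obtain ⟨F', hF'⟩ : ∃ F' : Fin r → MvPolynomial (Fin (N + 1)) M,
      F' = fun i => subst (g : Matrix _ _ M) (F i) := ⟨_, rfl⟩
  have hF'h : ∀ i, (F' i).IsHomogeneous (d i) := by
    intro i; rw [hF']; exact subst_hom _ _ (hF i)
  have hev : ∀ x i, eval (h.mulVec (ξ x)) (F' i) = algebraMap L M (eval x.rep (F i)) := by
    intro x i
    rw [hF']
    simp only
    rw [eval_subst, hgy, hξ]
    simp only
    rw [aeval_def]
    exact (eval₂_comp_left (algebraMap L M) (RingHom.id L) x.rep (F i)).symm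
  rw [← hF'] at hcoef
  -- the new algebra
  obtain ⟨A', hA'⟩ : ∃ A' : Subalgebra k₀ M,
      A' = A ⊔ Algebra.adjoin k₀ (Set.range fun p : Fin (N + 1) × Fin (N + 1) => h p.1 p.2) :=
    ⟨_, rfl⟩
  have hAA' : A ≤ A' := by rw [hA']; exact le_sup_left
  have hhA' : ∀ i j, h i j ∈ A' := by
    intro i j
    rw [hA']
    exact (le_sup_right : _ ≤ A ⊔ Algebra.adjoin k₀ (Set.range fun p : Fin (N + 1) ×
      Fin (N + 1) => h p.1 p.2)) (Algebra.subset_adjoin ⟨(i, j), rfl⟩)
  have hA'fg : A'.FG := by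
    rw [hA']
    refine hA.sup ?_
    have h1 := Subalgebra.fg_adjoin_finset (R := k₀) (A := M)
      (Finset.univ.image fun p : Fin (N + 1) × Fin (N + 1) => h p.1 p.2)
    rwa [Finset.coe_image, Finset.coe_univ, Set.image_univ] at h1
  -- the map
  obtain ⟨φ, hφ⟩ : ∃ φ : ℙ L (Fin (N + 1) → L) → ℙ M (Fin (N + 1) → M),
      φ = fun x => Projectivization.mk M (h.mulVec (ξ x)) (hy0 x) := ⟨_, rfl⟩
  have hfin := final_proj hfg d m hd F' hF'h w c Z C hZC hm hcoef hnum A' hA'fg
  refine Set.Finite.of_injOn (f := φ) ?_ ?_ hfin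
  · rintro x ⟨h1, h2, h3, h4⟩
    obtain ⟨u, hu⟩ := Projectivization.exists_smul_eq_mk_rep M (h.mulVec (ξ x)) (hy0 x)
    have hrep : (φ x).rep = fun i => (u : M) * h.mulVec (ξ x) i := by
      rw [hφ]
      simp only
      rw [← hu]
      rfl
    have hu0 : (u : M) ≠ 0 := u.ne_zero
    have hevφ : ∀ i, eval (φ x).rep (F' i)
        = (u : M) ^ d i * algebraMap L M (eval x.rep (F i)) := by
      intro i
      rw [hrep, fmain_eval_smul (F' i) (hF'h i), hev]
    refine ⟨?_, ?_, ?_, ?_⟩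
    · rw [hrep, fmain_ratio_smul _ hu0]
      rw [hξ]
      exact h1
    · intro i hi
      rw [hevφ, h2 i hi, map_zero, mul_zero]
    · intro i hi
      obtain ⟨y, hy⟩ := h3 i hi
      refine ⟨(u : M) ^ (d i / m i) * algebraMap L M y, ?_⟩
      rw [hevφ, mul_pow, ← pow_mul, Nat.div_mul_cancel (hm i hi), ← map_pow, hy]
    · intro i hiZ hiC
      obtain ⟨h5, h6⟩ := h4 i hiZ hiC
      have hud : (u : M) ^ d i ≠ 0 := pow_ne_zero _ hu0
      refine ⟨?_, ?_⟩
      · rw [hevφ]
        exact mul_ne_zero hud ((map_ne_zero_iff _ (algebraMap L M).injective).2 h5)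
      · intro J
        obtain ⟨b, hb, hb'⟩ := mon_mulVec h A'.toSubring hhA' J
        have h7 : mon (φ x).rep J / eval (φ x).rep (F' i)
            = ∑ J', b J' * algebraMap L M (mon x.rep J' / eval x.rep (F i)) := by
          rw [hevφ, hrep, fmain_mon_smul, mul_div_mul_left _ _ hud, hb' (ξ x), Finset.sum_div]
          refine Finset.sum_congr rfl (fun J' _ => ?_)
          rw [map_div₀, hξ]
          simp only
          rw [fmain_mon_map, mul_div_assoc]
        rw [h7]
        refine IsIntegral.sum _ (fun J' _ => ?_)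
        refine IsIntegral.mul ?_ ?_
        · exact isIntegral_algebraMap (R := A') (A := M) (x := ⟨b J', hb J'⟩)
        · exact (h6 J').map_of_comp_eq (Subalgebra.inclusion hAA').toRingHom
            (RingHom.id M) rfl
  · intro x _ x' _ hxx
    rw [hφ] at hxx
    simp only at hxx
    rw [Projectivization.mk_eq_mk_iff'] at hxx
    obtain ⟨c', hc'⟩ := hxx
    -- `c' • h ξ' = h ξ`
    have hc1 : ∀ i, c' * algebraMap L M (x'.rep i) = algebraMap L M (x.rep i) := by
      have h1 := congrArg ((g : Matrix (Fin (N + 1)) (Fin (N + 1)) M).mulVec) hc'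
      rw [Matrix.mulVec_smul, hgy, hgy, hξ] at h1
      intro i
      exact congrFun h1 i
    obtain ⟨i₀, hi₀⟩ : ∃ i₀, x'.rep i₀ ≠ 0 := by
      by_contra hne
      push Not at hne
      exact x'.rep_nonzero (funext hne)
    have hi₀' : algebraMap L M (x'.rep i₀) ≠ 0 :=
      (map_ne_zero_iff _ (algebraMap L M).injective).2 hi₀
    rw [← x.mk_rep, ← x'.mk_rep, Projectivization.mk_eq_mk_iff']
    refine ⟨x.rep i₀ / x'.rep i₀, ?_⟩
    funext i
    apply (algebraMap L M).injective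
    rw [Pi.smul_apply, smul_eq_mul, map_mul, map_div₀, ← hc1 i₀, ← hc1 i,
      mul_div_assoc, div_self hi₀', mul_one]

end Pool.Agent.Helper8.LG
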