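import Pool.Agent.Helper8.LG.Final
import Pool.Agent.Helper49.LG.FinalLine
import Pool.Agent.Helper8.LG.Poly

/-! # LG-FPROJ: the theorem over one field, in terms of polynomials and projective points -/

set_option autoImplicit false

open MvPolynomial

namespace Pool.Agent.Helper8.LG

open scoped BigOperators LinearAlgebra.Projectivization

private theorem fproj_mon_div {L : Type*} [Field L] {N n : ℕ} (x : Fin (N + 1) → L) (t : L)
    (J : Sym (Fin (N + 1)) n) : mon (fun i => x i / t) J = mon x J / t ^ n := by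
  rw [mon, mon, Multiset.prod_map_div, Multiset.map_const', Multiset.prod_replicate]
  rw [Sym.card_coe]

private theorem fproj_form_div {L : Type*} [Field L] {N n : ℕ} (F : MvPolynomial (Fin (N + 1)) L)
    (hF : F.IsHomogeneous n) (x : Fin (N + 1) → L) (t : L) :
    form (cf n F) (fun i => x i / t) = eval x F / t ^ n := by
  rw [← form_cf F hF x, form, form, Finset.sum_div]
  refine Finset.sum_congr rfl (fun J _ => ?_)
  rw [fproj_mon_div, mul_div_assoc]

private theorem fproj_inj {L : Type*} [Field L] {N : ℕ} (i₀ : Fin (N + 1))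
    {x y : ℙ L (Fin (N + 1) → L)} (hx : x.rep i₀ ≠ 0) (hy : y.rep i₀ ≠ 0)
    (h : (fun i => x.rep i / x.rep i₀) = fun i => y.rep i / y.rep i₀) : x = y := by
  rw [← x.mk_rep, ← y.mk_rep, Projectivization.mk_eq_mk_iff']
  refine ⟨x.rep i₀ / y.rep i₀, ?_⟩
  funext i
  have h1 : x.rep i / x.rep i₀ = y.rep i / y.rep i₀ := congrFun h i
  rw [Pi.smul_apply, smul_eq_mul]
  field_simp
  field_simp at h1
  linear_combination -h1

private theorem fproj_trdeg {k₀ L : Type*} [Field k₀] [Field L] [Algebra k₀ L]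
    {A B : IntermediateField k₀ L} (h : A ≤ B) : Algebra.trdeg k₀ A ≤ Algebra.trdeg k₀ B :=
  trdeg_le_of_injective (IntermediateField.inclusion h)
    (IntermediateField.inclusion_injective h)

/-- projective version over one field, roots may vanish -/
theorem final_proj {k₀ L : Type*} [Field k₀] [Field L] [CharZero L] [Algebra k₀ L]
    (hfg : (⊤ : IntermediateField k₀ L).FG) {N r : ℕ} (d m : Fin r → ℕ)
    (hd : ∀ i, 0 < d i) (F : Fin r → MvPolynomial (Fin (N + 1)) L)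
    (hF : ∀ i, (F i).IsHomogeneous (d i)) (w c : ℕ) (Z C : Finset (Fin r))
    (hZC : Disjoint Z C) (hm : ∀ i ∈ C, m i ∣ d i)
    (hcoef : ((∑ i, (N + d i).choose N : ℕ) : Cardinal) ≤
      Algebra.trdeg k₀ (coeffField k₀ F) + c)
    (hnum : 2 * w + 2 + c + ∑ i ∈ C, d i / m i ≤ ∑ i, d i + Z.card ∨
      Z = Finset.univ ∧ 2 * w + 1 + c ≤ ∑ i, (d i + 1) ∧ w + 2 ≤ ∑ i, d i ∧
        2 * N + c ≤ ∑ i, (d i + 1) + 1)
    (A : Subalgebra k₀ L) (hA : A.FG) :
    {x : ℙ L (Fin (N + 1) → L) | Algebra.trdeg k₀ (ratioField k₀ x.rep) ≤ w ∧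
      (∀ i ∈ Z, eval x.rep (F i) = 0) ∧ (∀ i ∈ C, ∃ y : L, y ^ m i = eval x.rep (F i)) ∧
      ∀ i ∉ Z, i ∉ C → eval x.rep (F i) ≠ 0 ∧
        ∀ J : Sym (Fin (N + 1)) (d i), IsIntegral A (mon x.rep J / eval x.rep (F i))}.Finite := by
  classical
  have hc : (Fintype.card (Ix (Fin (N + 1)) d) : Cardinal) ≤ Algebra.trdeg k₀
      (IntermediateField.adjoin k₀
        (Set.range fun p : Ix (Fin (N + 1)) d => cf (d p.1) (F p.1) p.2)) + c := by
    rw [card_Ix, ← coeffField_eq k₀ d F hF]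
    exact hcoef
  -- the normalised points
  obtain ⟨S, hSdef⟩ : ∃ S : Fin (N + 1) → Finset (Fin r) → Set (Fin (N + 1) → L),
      S = fun i₀ C₀ => {x : Fin (N + 1) → L | x i₀ = 1 ∧
        Algebra.trdeg k₀ (IntermediateField.adjoin k₀ (Set.range x)) ≤ w ∧
        (∀ i ∈ Z ∪ C₀, form (cf (d i) (F i)) x = 0) ∧
        (∀ i ∉ Z ∪ C₀, form (cf (d i) (F i)) x ≠ 0) ∧
        (∀ i ∈ C \ C₀, ∃ y : L, y ^ m i = form (cf (d i) (F i)) x) ∧
        ∀ i ∉ Z ∪ C₀, i ∉ C \ C₀ → ∀ J : Sym (Fin (N + 1)) (d i),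
          IsIntegral A (mon x J / form (cf (d i) (F i)) x)} := ⟨_, rfl⟩
  have hS : ∀ i₀ C₀, (S i₀ C₀).Finite := by
    intro i₀ C₀
    rw [hSdef]
    rcases hnum with hnum | ⟨hZu, hn1, hn2, hn3⟩
    swap
    · refine (Helper49.LG.final_line hfg d hd (fun i => cf (d i) (F i)) w c hc i₀ hn1 hn2
        (by rw [Fintype.card_fin]; omega)).subset ?_
      rintro x ⟨h1, h2, h3, -⟩
      exact ⟨h1, h2, fun i => h3 i (Finset.mem_union_left _ (hZu ▸ Finset.mem_univ i))⟩
    refine final_aux hfg d (fun i => if i ∈ C \ C₀ then d i / m i else 0) m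
      (fun i => cf (d i) (F i)) w c hc (Z ∪ C₀) (C \ C₀) i₀ ?_ A hA
    refine ⟨hd, ?_, ?_, ?_, ?_⟩
    · intro i hi hi'
      rw [Finset.mem_sdiff] at hi
      rcases Finset.mem_union.1 hi' with h | h
      · exact Finset.disjoint_left.1 hZC h hi.1
      · exact hi.2 h
    · intro i hi
      rw [if_pos hi]
      exact (Nat.mul_div_cancel' (hm i (Finset.mem_sdiff.1 hi).1)).symm
    · intro i hi
      exact if_neg hi
    · have h1 : ∑ i, (if i ∈ C \ C₀ then d i / m i else 0) ≤ ∑ i ∈ C, d i / m i := by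
        rw [← Finset.sum_filter]
        refine Finset.sum_le_sum_of_subset (fun i hi => ?_)
        exact (Finset.mem_sdiff.1 (Finset.mem_filter.1 hi).2).1
      have h2 : Z.card ≤ (Z ∪ C₀).card := Finset.card_le_card Finset.subset_union_left
      omega
  -- the covering
  have hcov : {x : ℙ L (Fin (N + 1) → L) | Algebra.trdeg k₀ (ratioField k₀ x.rep) ≤ w ∧
      (∀ i ∈ Z, eval x.rep (F i) = 0) ∧ (∀ i ∈ C, ∃ y : L, y ^ m i = eval x.rep (F i)) ∧
      ∀ i ∉ Z, i ∉ C → eval x.rep (F i) ≠ 0 ∧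
        ∀ J : Sym (Fin (N + 1)) (d i), IsIntegral A (mon x.rep J / eval x.rep (F i))}
      ⊆ ⋃ i₀ : Fin (N + 1), ⋃ C₀ : Finset (Fin r),
        {x : ℙ L (Fin (N + 1) → L) | x.rep i₀ ≠ 0 ∧
          (fun i => x.rep i / x.rep i₀) ∈ S i₀ C₀} := by
    rintro x ⟨h1, h2, h3, h4⟩
    obtain ⟨i₀, hi₀⟩ : ∃ i₀, x.rep i₀ ≠ 0 := by
      by_contra hne
      push Not at hne
      exact x.rep_nonzero (funext hne)
    rw [Set.mem_iUnion]
    refine ⟨i₀, ?_⟩
    rw [Set.mem_iUnion]
    refine ⟨C.filter (fun i => eval x.rep (F i) = 0), hi₀, ?_⟩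
    have hform : ∀ i, form (cf (d i) (F i)) (fun l => x.rep l / x.rep i₀)
        = eval x.rep (F i) / x.rep i₀ ^ d i := fun i => fproj_form_div (F i) (hF i) _ _
    have ht : ∀ n : ℕ, x.rep i₀ ^ n ≠ 0 := fun n => pow_ne_zero n hi₀
    have hnz : ∀ i ∉ Z ∪ C.filter (fun i => eval x.rep (F i) = 0), eval x.rep (F i) ≠ 0 := by
      intro i hi
      rw [Finset.mem_union, Finset.mem_filter] at hi
      push Not at hi
      by_cases hiC : i ∈ C
      · exact hi.2 hiC
      · exact (h4 i hi.1 hiC).1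
    rw [hSdef]
    refine ⟨div_self hi₀, ?_, ?_, ?_, ?_, ?_⟩
    · refine (fproj_trdeg ?_).trans h1
      rw [ratioField]
      refine IntermediateField.adjoin.mono _ _ _ ?_
      rintro _ ⟨i, rfl⟩
      exact ⟨i, i₀, rfl⟩
    · intro i hi
      rw [hform]
      rcases Finset.mem_union.1 hi with h | h
      · rw [h2 i h, zero_div]
      · rw [(Finset.mem_filter.1 h).2, zero_div]
    · intro i hi
      rw [hform]
      exact div_ne_zero (hnz i hi) (ht _)
    · intro i hi
      have hiC := (Finset.mem_sdiff.1 hi).1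
      obtain ⟨y, hy⟩ := h3 i hiC
      refine ⟨y / x.rep i₀ ^ (d i / m i), ?_⟩
      rw [hform, div_pow, hy, ← pow_mul, Nat.div_mul_cancel (hm i hiC)]
    · intro i hi hi' J
      have hiZ : i ∉ Z := fun h => hi (Finset.mem_union_left _ h)
      have hiC : i ∉ C := by
        intro h
        apply hi'
        rw [Finset.mem_sdiff]
        exact ⟨h, fun h' => hi (Finset.mem_union_right _ h')⟩
      rw [hform, fproj_mon_div, div_div_div_cancel_right₀ (ht _)]
      exact (h4 i hiZ hiC).2 J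
  refine Set.Finite.subset ?_ hcov
  refine Set.finite_iUnion (fun i₀ => Set.finite_iUnion (fun C₀ => ?_))
  refine Set.Finite.of_injOn (f := fun x : ℙ L (Fin (N + 1) → L) =>
    fun i => x.rep i / x.rep i₀) (fun x hx => hx.2) ?_ (hS i₀ C₀)
  intro x hx y hy hxy
  exact fproj_inj i₀ hx.1 hy.1 hxy

end Pool.Agent.Helper8.LG
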