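import Pool.Agent.Helper8.LG.SDefs

/-! # LG-KPT: coordinates of points, rational points over a field -/

set_option autoImplicit false

open AlgebraicGeometry CategoryTheory CategoryTheory.Limits MvPolynomial

namespace Pool.Agent.Helper8.LG

attribute [local instance] MvPolynomial.gradedAlgebra

universe u

private theorem kpt_eval_smul {N n : ℕ} {K : Type*} [CommRing K] (F : MvPolynomial (Fin (N + 1)) K)
    (hF : F.IsHomogeneous n) (c : K) (x : Fin (N + 1) → K) :
    eval (fun i => c * x i) F = c ^ n * eval x F := by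
  rw [eval_eq, eval_eq, Finset.mul_sum]
  refine Finset.sum_congr rfl fun s hs => ?_
  have h1 : ∑ i ∈ s.support, s i = n := by
    have h2 := hF (mem_support_iff.1 hs)
    simpa [Finsupp.weight_apply, Finsupp.sum] using h2
  have h3 : ∏ i ∈ s.support, (c * x i) ^ s i = c ^ n * ∏ i ∈ s.support, x i ^ s i := by
    rw [← h1, ← Finset.prod_pow_eq_pow_sum, ← Finset.prod_mul_distrib]
    exact Finset.prod_congr rfl fun i _ => mul_pow _ _ _
  rw [h3]
  ring

/-- coordinates are unique up to a scalar -/
theorem coord_unique {N : ℕ} {K : Type u} [Field K] {z : PN N K} {x x' : Fin (N + 1) → K}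
    (hx : IsCoord z x) (hx' : IsCoord z x') : ∃ c : K, c ≠ 0 ∧ ∀ i, x' i = c * x i := by
  obtain ⟨j, hj⟩ : ∃ j, x j ≠ 0 := by
    by_contra h
    push Not at h
    exact hx.1 (funext h)
  have h1 : ∀ i, x j * x' i = x i * x' j := by
    intro i
    have h2 : (C (x j) * X i - C (x i) * X j : MvPolynomial (Fin (N + 1)) K).IsHomogeneous 1 :=
      ((isHomogeneous_C_mul_X _ _).sub (isHomogeneous_C_mul_X _ _))
    have h3 := (hx.2 1 _ h2).2 (by simp; ring)
    have h4 := (hx'.2 1 _ h2).1 h3
    simp only [map_sub, map_mul, eval_C, eval_X] at h4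
    exact sub_eq_zero.1 h4
  have h5 : x' j ≠ 0 := by
    intro h
    apply hx'.1
    funext i
    have h6 := h1 i
    rw [h, mul_zero] at h6
    exact (mul_eq_zero.1 h6).resolve_left hj
  refine ⟨x' j / x j, div_ne_zero h5 hj, fun i => ?_⟩
  rw [div_mul_eq_mul_div, eq_div_iff hj]
  linear_combination h1 i

/-- scaling coordinates -/
theorem coord_smul {N : ℕ} {K : Type u} [Field K] {z : PN N K} {x : Fin (N + 1) → K}
    (hx : IsCoord z x) (c : K) (hc : c ≠ 0) : IsCoord z fun i => c * x i := by
  refine ⟨?_, fun n F hF => ?_⟩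
  · intro h
    apply hx.1
    funext i
    have h1 := congrFun h i
    exact (mul_eq_zero.1 h1).resolve_left hc
  · rw [hx.2 n F hF, kpt_eval_smul F hF]
    exact ⟨fun h => by rw [h, mul_zero], fun h => (mul_eq_zero.1 h).resolve_left (pow_ne_zero _ hc)⟩

/-- coordinates determine the point -/
theorem point_unique {N : ℕ} {K : Type u} [Field K] {z z' : PN N K} {x : Fin (N + 1) → K}
    (hx : IsCoord z x) (hx' : IsCoord z' x) : z = z' := by
  apply ProjectiveSpectrum.ext
  apply HomogeneousIdeal.ext'
  intro n F hF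
  have hF' : F.IsHomogeneous n := hF
  exact (hx.2 n F hF').trans (hx'.2 n F hF').symm

/-- a rational point of a scheme over a field is determined by its image point -/
theorem kpoint_ext {K : Type u} [Field K] {X : Scheme.{u}} (f : X ⟶ Spec (.of K))
    (p p' : Spec (.of K) ⟶ X) (hp : p ≫ f = 𝟙 _) (hp' : p' ≫ f = 𝟙 _) (t : Spec (.of K))
    (h : p t = p' t) : p = p' := by
  obtain ⟨⟨x, a⟩, rfl⟩ := (Scheme.SpecToEquivOfField K X).symm.surjective p
  obtain ⟨⟨x', a'⟩, rfl⟩ := (Scheme.SpecToEquivOfField K X).symm.surjective p'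
  simp only [Scheme.SpecToEquivOfField_symm_apply] at *
  have h1 : x = x' := by
    rw [Scheme.Hom.comp_apply, Scheme.Hom.comp_apply, Scheme.fromSpecResidueField_apply,
      Scheme.fromSpecResidueField_apply] at h
    exact h
  subst h1
  obtain ⟨b, hb⟩ : ∃ b : CommRingCat.of K ⟶ X.residueField x,
      Spec.map b = X.fromSpecResidueField x ≫ f := ⟨Spec.preimage _, Spec.map_preimage _⟩
  rw [Category.assoc, ← hb, ← Spec.map_comp] at hp hp'
  have h2 : b ≫ a = 𝟙 _ := Spec.map_injective (by rw [hp, Spec.map_id])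
  have h3 : b ≫ a' = 𝟙 _ := Spec.map_injective (by rw [hp', Spec.map_id])
  have h4 : a = a' := by
    ext y
    have h5 : ∀ k : K, a.hom (b.hom k) = k := fun k => by
      have := congrArg (fun f => f.hom k) h2
      exact this
    have h6 : ∀ k : K, a'.hom (b.hom k) = k := fun k => by
      have := congrArg (fun f => f.hom k) h3
      exact this
    have h7 : b.hom (a.hom y) = y := a.hom.injective (h5 _)
    have h8 := h6 (a.hom y)
    rw [h7] at h8
    exact h8.symm
  rw [h4]

end Pool.Agent.Helper8.LG
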