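import Pool.Agent.Helper8.LG.KeyMinor
import Pool.Agent.Helper8.LG.KeyPath
import Pool.Agent.Helper8.LG.KeyFun
import Pool.Agent.Helper74.LG.KeyAux

/-! # LG-KEY: the linear algebra -/

set_option autoImplicit false

namespace Pool.Agent.Helper8.LG

open scoped BigOperators

private theorem left_rows_le {E σ κ Q : Type*} [Field E] [Fintype κ] [DecidableEq κ] [Fintype Q]
    (C : Q → σ → E) (w : ℕ)
    (hm : ∀ (r : Fin (w + 2) → σ) (c : Fin (w + 2) → Q),
      Matrix.det (Matrix.of fun s t => C (c t) (r s)) = 0)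
    (K : κ → σ → E) (hK : ∀ t, K t ∈ Submodule.span E (Set.range C)) (M : Matrix κ κ E)
    (hM : M.det ≠ 0) (S : Finset κ) (ρ : κ → σ) (hS : ∀ s ∈ S, ∀ t, M s t = K t (ρ s)) :
    S.card ≤ w + 1 := by
  by_contra hcon
  have hcard : w + 2 ≤ S.card := by omega
  let f : Fin (w + 2) → κ := fun i => (S.equivFin.symm (Fin.castLE hcard i) : S)
  have hf : Function.Injective f := by
    intro i j hij
    have h1 := S.equivFin.symm.injective (Subtype.ext hij)
    exact Fin.castLE_injective hcard h1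
  have hfS : ∀ i, f i ∈ S := fun i => (S.equivFin.symm (Fin.castLE hcard i)).2
  have hlin : LinearIndependent E fun i : Fin (w + 2) => fun q : Q => C q (ρ (f i)) := by
    rw [Fintype.linearIndependent_iff]
    intro c hc
    have h1 : LinearIndependent E fun i : Fin (w + 2) => M (f i) :=
      (Matrix.linearIndependent_rows_of_det_ne_zero hM).comp f hf
    rw [Fintype.linearIndependent_iff] at h1
    refine h1 c ?_
    funext t
    obtain ⟨T, hT⟩ := (Submodule.mem_span_range_iff_exists_fun E).1 (hK t)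
    simp only [Finset.sum_apply, Pi.smul_apply, smul_eq_mul, Pi.zero_apply]
    have h2 : ∀ i, M (f i) t = ∑ q, T q * C q (ρ (f i)) := by
      intro i
      rw [hS _ (hfS i), ← hT]
      simp
    calc ∑ i, c i * M (f i) t = ∑ q, T q * ∑ i, c i * C q (ρ (f i)) := by
          simp only [h2, Finset.mul_sum]
          rw [Finset.sum_comm]
          exact Finset.sum_congr rfl fun q _ => Finset.sum_congr rfl fun i _ => by ring
      _ = 0 := by
          apply Finset.sum_eq_zero
          intro q _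
          have h3 := congrFun hc q
          simp only [Finset.sum_apply, Pi.smul_apply, smul_eq_mul, Pi.zero_apply] at h3
          rw [h3, mul_zero]
  obtain ⟨c, _, hc⟩ := exists_minor _ hlin
  apply hc
  have h4 := hm (fun s => ρ (f s)) c
  rw [← Matrix.det_transpose] at h4
  exact h4

private theorem sum_single_smul {E κ V : Type*} [Semiring E] [AddCommMonoid V] [Module E V]
    [Fintype κ] [DecidableEq κ] (t : κ) (c : E) (v : κ → V) :
    ∑ t', (Pi.single t c : κ → E) t' • v t' = c • v t := by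
  rw [Finset.sum_eq_single t]
  · rw [Pi.single_eq_same]
  · intro t' _ h
    rw [Pi.single_eq_of_ne h, zero_smul]
  · intro h
    exact absurd (Finset.mem_univ t) h

section

variable {E : Type*} [Field E] {σ ι Tt : Type*} [Fintype σ] [DecidableEq σ] [DecidableEq ι]
  (n : ι → ℕ) (a : (i : ι) → Sym σ (n i + 1) → E)
  (D : Ix σ (fun i => n i + 1) → Derivation ℤ E E)
  (θ : Tt → Ix σ (fun i => n i + 1) → E) (Z : Finset ι) (x : σ → E)

omit [Fintype σ] [DecidableEq σ] [DecidableEq ι] in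
private theorem phi_inj {c : E} (hc : c ≠ 0) :
    Function.Injective (phi (σ := σ) (ι := ι) (τ := Tt) c) := by
  intro f g h
  funext r
  have h1 := congrFun h r
  rcases r with (l | i) | j
  · simp only [phi, LinearMap.pi_apply, LinearMap.smul_apply, LinearMap.proj_apply, Sum.elim_inl,
      smul_eq_mul] at h1
    exact mul_left_cancel₀ hc h1
  · simpa only [phi, LinearMap.pi_apply, LinearMap.smul_apply, LinearMap.proj_apply, Sum.elim_inl,
      Sum.elim_inr, smul_eq_mul, one_mul] using h1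
  · simpa only [phi, LinearMap.pi_apply, LinearMap.smul_apply, LinearMap.proj_apply, Sum.elim_inr,
      smul_eq_mul, one_mul] using h1

omit [Fintype σ] [DecidableEq σ] [DecidableEq ι] in
private theorem phi_apply (c : E) (f : (σ ⊕ ι) ⊕ Tt → E) (r : (σ ⊕ ι) ⊕ Tt) :
    phi c f r = (Sum.elim (Sum.elim (fun _ => c) (fun _ => 1)) (fun _ => 1) r : E) * f r := rfl

omit [Fintype σ] [DecidableEq σ] in
private theorem eul_row {i : ι} (hi : i ∈ Z) :
    (eul n Z x : (σ ⊕ ι) ⊕ Tt → E) (Sum.inl (Sum.inr i)) = 0 := by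
  simp [eul, hi]

private theorem cv_row (s : Ix σ (fun i => n i + 1)) {i : ι} (hi : i ∈ Z) :
    cv n a D θ Z x s (Sum.inl (Sum.inr i)) = 0 := by
  simp [cv, hi]

private theorem syz_row (s : Σ i : ι, Sym σ (n i) × σ × σ) {i : ι} (hi : i ∈ Z) :
    syz n a D θ Z x s (Sum.inl (Sum.inr i)) = 0 := by
  simp [syz, cv_row n a D θ Z x _ hi]

/-- the column indexed by `o` -/
private def colF (o : Option (Σ i : ι, Sym σ (n i) × σ × σ)) : (σ ⊕ ι) ⊕ Tt → E :=
  o.elim (eul n Z x) (syz n a D θ Z x)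

/-- the column indexed by `i` -/
private def colR (j : σ) (i : ι) : (σ ⊕ ι) ⊕ Tt → E :=
  cv n a D θ Z x ⟨i, Sym.replicate (n i + 1) j⟩

omit [Fintype σ] [DecidableEq σ] in
private theorem mon_rep (x : σ → E) (m : ℕ) (j : σ) : mon x (Sym.replicate m j) = x j ^ m := by
  simp [mon, Sym.coe_replicate]

variable {n a D θ Z x}

private theorem span_tilde (b : Set (Option (Σ i : ι, Sym σ (n i) × σ × σ))) (hb0 : none ∈ b)
    (hbsp : ∀ s, syz n a D θ Z x s ∈
      Submodule.span E (Set.range fun o : b => colF n a D θ Z x (o : Option _)))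
    (hU : ∀ i ∉ Z, form (a i) x ≠ 0) {c : E} (hc : c ≠ 0)
    (s : Σ i : ι, Sym σ (n i) × σ × σ) :
    syz n a D θ Z (fun l => x l / c) s ∈
      Submodule.span E (Set.range fun o : b => colF n a D θ Z (fun l => x l / c) (o : Option _)) := by
  set W := Submodule.span E
    (Set.range fun o : b => colF n a D θ Z (fun l => x l / c) (o : Option _)) with hW
  have h0 : eul n Z (fun l => x l / c) ∈ W := Submodule.subset_span ⟨⟨none, hb0⟩, rfl⟩
  have h0' : (eul n Z x : (σ ⊕ ι) ⊕ Tt → E) ∈ W.map (phi c) := by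
    rw [eul_scale n Z x c hc]
    exact Submodule.mem_map_of_mem h0
  have h1 : Submodule.span E (Set.range fun o : b => colF n a D θ Z x (o : Option _)) ≤
      W.map (phi c) := by
    rw [Submodule.span_le]
    rintro _ ⟨⟨o, ho⟩, rfl⟩
    rcases o with _ | s'
    · exact h0'
    · obtain ⟨bb, hbb⟩ := syz_scale n a D θ Z x hU c hc s'
      change syz n a D θ Z x s' ∈ W.map (phi c)
      rw [hbb]
      exact add_mem (Submodule.smul_mem _ _ (Submodule.mem_map_of_mem
        (Submodule.subset_span ⟨⟨some s', ho⟩, rfl⟩))) (Submodule.smul_mem _ _ h0')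
  obtain ⟨bb, hbb⟩ := syz_scale n a D θ Z x hU c hc s
  have h2 := h1 (hbsp s)
  have h3 : c • phi c (syz n a D θ Z (fun l => x l / c) s) ∈ W.map (phi c) := by
    have h4 := sub_mem h2 (Submodule.smul_mem _ bb h0')
    rwa [hbb, add_sub_cancel_right] at h4
  have h5 : phi c (syz n a D θ Z (fun l => x l / c) s) ∈ W.map (phi c) := by
    have h6 := Submodule.smul_mem _ c⁻¹ h3
    rwa [smul_smul, inv_mul_cancel₀ hc, one_smul] at h6
  obtain ⟨y, hy, hy2⟩ := h5
  rw [← phi_inj hc hy2]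
  exact hy

/-- the column indexed by `t` -/
private def colK (n : ι → ℕ) (a : (i : ι) → Sym σ (n i + 1) → E)
    (D : Ix σ (fun i => n i + 1) → Derivation ℤ E E)
    (θ : Tt → Ix σ (fun i => n i + 1) → E) (Z : Finset ι)
    (b : Set (Option (Σ i : ι, Sym σ (n i) × σ × σ))) (x : σ → E) (j : σ) :
    (b ⊕ ι) → (σ ⊕ ι) ⊕ Tt → E :=
  Sum.elim (fun o : b => colF n a D θ Z x (o : Option _)) (colR n a D θ Z x j)

private def rkK {S : Type*} (b : Set (Option S)) : (b ⊕ ι) → ℕ :=
  Sum.elim (fun o : b => (o : Option S).elim 0 fun _ => 1) fun _ => 2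

private def gK (n : ι → ℕ) {S : Type*} (b : Set (Option S)) (c : E) : (b ⊕ ι) → E :=
  Sum.elim (fun o : b => (o : Option S).elim 1 fun _ => c) fun i => (c ^ (n i + 1))⁻¹

private theorem exists_T [Fintype ι] (b : Set (Option (Σ i : ι, Sym σ (n i) × σ × σ)))
    [Fintype b] [DecidableEq (b ⊕ ι)] (hb0 : none ∈ b)
    (hbsp : ∀ s, syz n a D θ Z x s ∈
      Submodule.span E (Set.range fun o : b => colF n a D θ Z x (o : Option _)))
    (hU : ∀ i ∉ Z, form (a i) x ≠ 0) (i₀ : σ) (hx : x i₀ = 1) (j₀ : σ) (hj : x j₀ ≠ 0)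
    (t : b ⊕ ι) :
    ∃ τ : (b ⊕ ι) → E,
      colK n a D θ Z b x i₀ t =
        ∑ t', τ t' • phi (x j₀) (colK n a D θ Z b (fun l => x l / x j₀) j₀ t') ∧
      τ t = gK n b (x j₀) t ∧ ∀ t', t' ≠ t → rkK b t ≤ rkK b t' → τ t' = 0 := by
  set c := x j₀ with hc
  set xt : σ → E := fun l => x l / c with hxt
  set N : b ⊕ ι := Sum.inl ⟨none, hb0⟩ with hN
  have hN1 : phi c (colK n a D θ Z b xt j₀ N) = eul n Z x := (eul_scale n Z x c hj).symm
  rcases t with ⟨o, ho⟩ | i
  · rcases o with _ | s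
    · refine ⟨Pi.single N 1, ?_, ?_, ?_⟩
      · rw [sum_single_smul, one_smul, hN1]
        rfl
      · rw [← hN, Pi.single_eq_same]
        rfl
      · intro t' ht _
        rw [Pi.single_eq_of_ne ht]
    · obtain ⟨bb, hbb⟩ := syz_scale n a D θ Z x hU c hj s
      have hne : (Sum.inl ⟨some s, ho⟩ : b ⊕ ι) ≠ N := by
        intro h
        have h1 := congrArg Subtype.val (Sum.inl_injective h)
        cases h1
      refine ⟨Pi.single (Sum.inl ⟨some s, ho⟩) c + Pi.single N bb, ?_, ?_, ?_⟩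
      · simp only [Pi.add_apply, add_smul, Finset.sum_add_distrib, sum_single_smul]
        rw [hN1]
        exact hbb
      · rw [Pi.add_apply, Pi.single_eq_same, Pi.single_eq_of_ne hne, add_zero]
        rfl
      · intro t' ht hrk
        have h1 : t' ≠ N := by
          intro h
          rw [h] at hrk
          change 1 ≤ 0 at hrk
          omega
        rw [Pi.add_apply, Pi.single_eq_of_ne ht, Pi.single_eq_of_ne h1, add_zero]
  · have h1 := cv_sub_mem n a D θ Z xt j₀ i (Sym.replicate (n i + 1) i₀)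
    have hxj : xt j₀ = 1 := div_self hj
    rw [hxj, one_pow, one_smul, mon_rep] at h1
    have h2 : Submodule.span E (Set.range (syz n a D θ Z xt)) ≤
        Submodule.span E (Set.range fun o : b => colF n a D θ Z xt (o : Option _)) := by
      rw [Submodule.span_le]
      rintro _ ⟨s, rfl⟩
      exact span_tilde b hb0 hbsp hU hj s
    obtain ⟨cf, hcf⟩ := (Submodule.mem_span_range_iff_exists_fun E).1 (h2 h1)
    have hxi : xt i₀ ^ (n i + 1) = (c ^ (n i + 1))⁻¹ := by
      rw [hxt]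
      simp only
      rw [hx, one_div, inv_pow]
    rw [hxi] at hcf
    have h3 : cv n a D θ Z xt ⟨i, Sym.replicate (n i + 1) i₀⟩ =
        (c ^ (n i + 1))⁻¹ • colK n a D θ Z b xt j₀ (Sum.inr i) +
          ∑ o : b, cf o • colK n a D θ Z b xt j₀ (Sum.inl o) := by
      have h4 : ∑ o : b, cf o • colK n a D θ Z b xt j₀ (Sum.inl o) =
          cv n a D θ Z xt ⟨i, Sym.replicate (n i + 1) i₀⟩ -
            (c ^ (n i + 1))⁻¹ • cv n a D θ Z xt ⟨i, Sym.replicate (n i + 1) j₀⟩ := hcf
      rw [h4]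
      change _ = (c ^ (n i + 1))⁻¹ • cv n a D θ Z xt ⟨i, Sym.replicate (n i + 1) j₀⟩ + _
      abel
    set bb := D ⟨i, Sym.replicate (n i + 1) i₀⟩ c / c with hbb
    have h5 : colK n a D θ Z b x i₀ (Sum.inr i) =
        (c ^ (n i + 1))⁻¹ • phi c (colK n a D θ Z b xt j₀ (Sum.inr i)) +
          ∑ o : b, cf o • phi c (colK n a D θ Z b xt j₀ (Sum.inl o)) +
            bb • phi c (colK n a D θ Z b xt j₀ N) := by
      rw [hN1]
      have h6 := cv_scale n a D θ Z x hU c hj ⟨i, Sym.replicate (n i + 1) i₀⟩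
      rw [h3, map_add, map_smul, map_sum] at h6
      simp only [map_smul] at h6
      exact h6
    have hNr : (Sum.inr i : b ⊕ ι) ≠ N := Sum.inr_ne_inl
    refine ⟨Pi.single (Sum.inr i) (c ^ (n i + 1))⁻¹ + Sum.elim cf 0 + Pi.single N bb, ?_, ?_, ?_⟩
    · simp only [Pi.add_apply, add_smul, Finset.sum_add_distrib, sum_single_smul]
      rw [h5]
      congr 2
      rw [Fintype.sum_sum_type]
      simp
    · rw [Pi.add_apply, Pi.add_apply, Pi.single_eq_same, Pi.single_eq_of_ne hNr, add_zero]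
      simp [gK]
    · intro t' ht hrk
      rcases t' with o | i'
      · exfalso
        rcases o with ⟨_ | s, ho⟩
        · change 2 ≤ 0 at hrk
          omega
        · change 2 ≤ 1 at hrk
          omega
      · have h7 : (Sum.inr i' : b ⊕ ι) ≠ N := Sum.inr_ne_inl
        rw [Pi.add_apply, Pi.add_apply, Pi.single_eq_of_ne ht, Pi.single_eq_of_ne h7]
        simp

/-- the weights of the rows -/
private def wt (u : ι → E) (e : ι → ℕ) (c : E) : (σ ⊕ ι) ⊕ Tt → E :=
  Sum.elim (Sum.elim (fun _ => 1) fun i => u i / c ^ e i) fun _ => 1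

private theorem entry_mem (b : Set (Option (Σ i : ι, Sym σ (n i) × σ × σ)))
    (u : ι → E) (e : ι → ℕ) (c : E) (j₀ : σ) (O : ValuationSubring E) (Δ : E)
    (xt : σ → E) (hxt : ∀ l, xt l ∈ O) (hD : Bdd D Δ O) (hθ : ∀ j s, Δ * θ j s ∈ O)
    (r : (σ ⊕ ι) ⊕ Tt)
    (hr : ∀ i, r = Sum.inl (Sum.inr i) → i ∉ Z ∧ Δ * (u i / c ^ e i) ∈ O ∧
      ∀ p, Δ * (u i / c ^ e i * (D p (form (a i) xt) / form (a i) xt)) ∈ O) (t : b ⊕ ι) :
    Δ * (wt u e c r * colK n a D θ Z b xt j₀ t r) ∈ O := by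
  have h1 : Δ * (wt u e c r * eul n Z xt r) ∈ O := by
    rcases r with (l | i) | j
    · simp only [wt, eul, Sum.elim_inl, one_mul]
      exact mul_mem hD.1 (hxt l)
    · obtain ⟨h2, h3, _⟩ := hr i rfl
      simp only [wt, eul, Sum.elim_inl, Sum.elim_inr, if_neg h2]
      rw [← mul_assoc]
      exact mul_mem h3 (natCast_mem O _)
    · simp only [wt, eul, Sum.elim_inr, mul_zero]
      exact zero_mem O
  have h2 : ∀ p, Δ * (wt u e c r * cv n a D θ Z xt p r) ∈ O := by
    intro p
    rcases r with (l | i) | j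
    · simp only [wt, cv, Sum.elim_inl, one_mul]
      exact hD.2 p _ (hxt l)
    · obtain ⟨h2, _, h3⟩ := hr i rfl
      simp only [wt, cv, Sum.elim_inl, Sum.elim_inr, if_neg h2]
      exact h3 p
    · simp only [wt, cv, Sum.elim_inr, one_mul]
      exact hθ j p
  rcases t with ⟨o, ho⟩ | i
  · rcases o with _ | s
    · exact h1
    · have h3 : colK n a D θ Z b xt j₀ (Sum.inl ⟨some s, ho⟩) r =
          xt s.2.2.1 * cv n a D θ Z xt ⟨s.1, s.2.2.2 ::ₛ s.2.1⟩ r -
            xt s.2.2.2 * cv n a D θ Z xt ⟨s.1, s.2.2.1 ::ₛ s.2.1⟩ r := rfl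
      have h4 := sub_mem (mul_mem (hxt s.2.2.1) (h2 ⟨s.1, s.2.2.2 ::ₛ s.2.1⟩))
        (mul_mem (hxt s.2.2.2) (h2 ⟨s.1, s.2.2.1 ::ₛ s.2.1⟩))
      rw [h3]
      have h5 : Δ * (wt u e c r * (xt s.2.2.1 * cv n a D θ Z xt ⟨s.1, s.2.2.2 ::ₛ s.2.1⟩ r -
            xt s.2.2.2 * cv n a D θ Z xt ⟨s.1, s.2.2.1 ::ₛ s.2.1⟩ r)) =
          xt s.2.2.1 * (Δ * (wt u e c r * cv n a D θ Z xt ⟨s.1, s.2.2.2 ::ₛ s.2.1⟩ r)) -
            xt s.2.2.2 * (Δ * (wt u e c r * cv n a D θ Z xt ⟨s.1, s.2.2.1 ::ₛ s.2.1⟩ r)) := by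
        ring
      rw [h5]
      exact h4
  · exact h2 _

/-- the columns are linearly independent -/
private theorem li_K [Fintype ι] [Fintype Tt] (jj : Tt → Ix σ (fun i => n i + 1))
    (hD : Dual (fun i => n i + 1) a D jj θ)
    (hZ : ∀ i ∈ Z, form (a i) x = 0) (hU : ∀ i ∉ Z, form (a i) x ≠ 0)
    (b : Set (Option (Σ i : ι, Sym σ (n i) × σ × σ)))
    (hbli : LinearIndependent E fun o : b => colF n a D θ Z x (o : Option _))
    (i₀ : σ) (hx : x i₀ = 1) : LinearIndependent E (colK n a D θ Z b x i₀) := by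
  obtain ⟨lam, hl1, hl2, hl3⟩ := exists_functional n a D jj θ hD Z x hZ hU
  have hlF : ∀ o : b, lam (colF n a D θ Z x (o : Option _)) = 0 := by
    rintro ⟨o, ho⟩
    rcases o with _ | s
    · exact hl1
    · exact hl3 s
  have hlR : ∀ i, lam (colR n a D θ Z x i₀ i) = Pi.single i (-1) := by
    intro i
    rw [colR, hl2, mon_rep, hx, one_pow]
  have key1 : ∀ f : ι → E, lam (∑ i, f i • colR n a D θ Z x i₀ i) = -f := by
    intro f
    rw [map_sum]
    simp only [map_smul, hlR]
    funext i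
    rw [Finset.sum_apply, Finset.sum_eq_single i]
    · simp
    · intro i' _ h
      rw [Pi.smul_apply, Pi.single_eq_of_ne h.symm, smul_zero]
    · intro h
      exact absurd (Finset.mem_univ i) h
  have hRli : LinearIndependent E (colR n a D θ Z x i₀) := by
    rw [Fintype.linearIndependent_iff]
    intro f hf i
    have h1 := key1 f
    rw [hf, map_zero] at h1
    have h2 := congrFun h1 i
    rw [Pi.zero_apply, Pi.neg_apply] at h2
    exact neg_eq_zero.1 h2.symm
  refine LinearIndependent.sum_type hbli hRli ?_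
  rw [Submodule.disjoint_def]
  intro z hz1 hz2
  have h1 : lam z = 0 := by
    have h2 : Submodule.span E (Set.range fun o : b => colF n a D θ Z x (o : Option _)) ≤
        LinearMap.ker lam := by
      rw [Submodule.span_le]
      rintro _ ⟨o, rfl⟩
      exact hlF o
    exact h2 hz1
  obtain ⟨f, hf⟩ := (Submodule.mem_span_range_iff_exists_fun E).1 hz2
  have h2 := key1 f
  rw [hf, h1] at h2
  have h3 : f = 0 := neg_eq_zero.1 h2.symm
  rw [← hf, h3]
  simp

/-- the `x`-rows of the columns are combinations of `x` and the `D_p x` -/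
private theorem colK_span [Fintype ι] (b : Set (Option (Σ i : ι, Sym σ (n i) × σ × σ)))
    (i₀ : σ) (t : b ⊕ ι) : (fun l => colK n a D θ Z b x i₀ t (Sum.inl (Sum.inl l))) ∈
      Submodule.span E (Set.range (col D x)) := by
  have h1 : ∀ q, col D x q ∈ Submodule.span E (Set.range (col D x)) :=
    fun q => Submodule.subset_span ⟨q, rfl⟩
  rcases t with ⟨o, ho⟩ | i
  · rcases o with _ | s
    · exact h1 none
    · exact sub_mem (Submodule.smul_mem _ (x s.2.2.1) (h1 (some ⟨s.1, s.2.2.2 ::ₛ s.2.1⟩)))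
        (Submodule.smul_mem _ (x s.2.2.2) (h1 (some ⟨s.1, s.2.2.1 ::ₛ s.2.1⟩)))
  · exact h1 (some ⟨i, Sym.replicate (n i + 1) i₀⟩)

private theorem colK_zero (b : Set (Option (Σ i : ι, Sym σ (n i) × σ × σ)))
    (i₀ : σ) (t : b ⊕ ι) {i : ι} (hi : i ∈ Z) : colK n a D θ Z b x i₀ t (Sum.inl (Sum.inr i)) = 0 := by
  rcases t with ⟨o, ho⟩ | i'
  · rcases o with _ | s
    · exact eul_row (Tt := Tt) n Z x hi
    · exact syz_row n a D θ Z x s hi
  · exact cv_row n a D θ Z x _ hi

omit [DecidableEq ι] in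
private theorem prod_gK [Fintype ι] {S : Type*} (b : Set (Option S)) [Fintype b]
    (hb0 : none ∈ b) (c : E) (hc : c ≠ 0) :
    (∏ t, gK n b c t) * (c * c ^ ∑ i, (n i + 1)) = c ^ Fintype.card b := by
  classical
  rw [Fintype.prod_sum_type]
  have h1 : ∏ i : ι, gK n b c (Sum.inr i) = (c ^ ∑ i, (n i + 1))⁻¹ := by
    rw [← Finset.prod_pow_eq_pow_sum, ← Finset.prod_inv_distrib]
    rfl
  have h2 : (∏ o : b, gK n b c (Sum.inl o)) * c = c ^ Fintype.card b := by
    rw [← Finset.mul_prod_erase Finset.univ _ (Finset.mem_univ (⟨none, hb0⟩ : b))]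
    have h3 : gK n b c (Sum.inl ⟨none, hb0⟩) = 1 := rfl
    rw [h3, one_mul, Finset.prod_congr rfl (g := fun _ => c)]
    · rw [Finset.prod_const, Finset.card_erase_of_mem (Finset.mem_univ _), Finset.card_univ,
        ← pow_succ]
      congr 1
      have h5 : 0 < Fintype.card b := Fintype.card_pos_iff.2 ⟨⟨none, hb0⟩⟩
      exact Nat.sub_add_cancel h5
    · rintro ⟨o, ho⟩ h
      rcases o with _ | s
      · exact absurd rfl (Finset.ne_of_mem_erase h)
      · rfl
  rw [h1]
  have h4 : c ^ ∑ i, (n i + 1) ≠ 0 := pow_ne_zero _ hc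
  calc (∏ o : b, gK n b c (Sum.inl o)) * (c ^ ∑ i, (n i + 1))⁻¹ * (c * c ^ ∑ i, (n i + 1))
      = ((∏ o : b, gK n b c (Sum.inl o)) * c) * ((c ^ ∑ i, (n i + 1))⁻¹ * c ^ ∑ i, (n i + 1)) := by
        ring
    _ = c ^ Fintype.card b := by rw [inv_mul_cancel₀ h4, mul_one, h2]

end

private theorem key_aux {E : Type*} [Field E] {σ ι Tt : Type*} [Fintype σ] [DecidableEq σ]
    [Fintype ι] [DecidableEq ι] [Fintype Tt] (n e : ι → ℕ)
    (a : (i : ι) → Sym σ (n i + 1) → E)
    (D : Ix σ (fun i => n i + 1) → Derivation ℤ E E)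
    (jj : Tt → Ix σ (fun i => n i + 1)) (θ : Tt → Ix σ (fun i => n i + 1) → E)
    (hD : Dual (fun i => n i + 1) a D jj θ)
    (Z : Finset ι) (x : σ → E) (i₀ : σ) (hx : x i₀ = 1)
    (hZ : ∀ i ∈ Z, form (a i) x = 0) (hU : ∀ i ∉ Z, form (a i) x ≠ 0)
    (u : ι → E) (hu : ∀ i ∉ Z, u i ≠ 0)
    (w : ℕ) (hw : 2 * w + 2 + Fintype.card Tt + ∑ i, e i ≤ ∑ i, (n i + 1) + Z.card)
    (hm : MinorsVanish D x w) :
    ∃ G : E, G ≠ 0 ∧ KeyG (fun i => n i + 1) e a D θ Z u x G := by
  classical
  have heul : (eul n Z x : (σ ⊕ ι) ⊕ Tt → E) ≠ 0 := by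
    intro h
    have h1 := congrFun h (Sum.inl (Sum.inl i₀))
    simp only [eul, Sum.elim_inl, Pi.zero_apply, hx] at h1
    exact one_ne_zero h1
  obtain ⟨b, hb0, hbli, hbsp⟩ := Helper74.LG.exists_basis_part (E := E) (eul n Z x) heul
    (syz n a D θ Z x)
  have : Fintype b := Fintype.ofFinite b
  have hK := li_K jj hD hZ hU b hbli i₀ hx
  obtain ⟨r, hrinj, hrdet⟩ := exists_minor _ hK
  have hrZ : ∀ s i, r s = Sum.inl (Sum.inr i) → i ∉ Z := by
    intro s i hs hi
    apply hrdet
    refine Matrix.det_eq_zero_of_row_eq_zero s fun t => ?_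
    rw [Matrix.of_apply, hs]
    exact colK_zero b i₀ t hi
  set uw : (σ ⊕ ι) ⊕ Tt → E := Sum.elim (Sum.elim (fun _ => 1) u) (fun _ => 1) with huw
  set ee : (σ ⊕ ι) ⊕ Tt → ℕ := Sum.elim (Sum.elim (fun _ => 0) e) (fun _ => 0) with hee
  set isx : (σ ⊕ ι) ⊕ Tt → Bool :=
    Sum.elim (Sum.elim (fun _ => true) (fun _ => false)) (fun _ => false) with hisx
  -- counting
  set lft : Finset (b ⊕ ι) := Finset.univ.filter fun s => isx (r s) = true with hlft
  set rgt : Finset (b ⊕ ι) := Finset.univ.filter fun s => ¬ isx (r s) = true with hrgt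
  have hn' : lft.card ≤ w + 1 := by
    refine left_rows_le (col D x) w hm (fun t l => colK n a D θ Z b x i₀ t (Sum.inl (Sum.inl l)))
      (colK_span b i₀) _ hrdet lft
      (fun s => Sum.elim (Sum.elim id (fun _ => i₀)) (fun _ => i₀) (r s)) ?_
    intro s hs t
    rw [hlft, Finset.mem_filter] at hs
    rcases h : r s with (l | i) | j
    · simp [h]
    · rw [h] at hs
      simp [hisx] at hs
    · rw [h] at hs
      simp [hisx] at hs
  have hq' : rgt.card + Z.card ≤ Fintype.card ι + Fintype.card Tt := by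
    have h1 : rgt.image r ⊆ ((Finset.univ \ Z).map ⟨fun i => Sum.inl (Sum.inr i),
          Sum.inl_injective.comp Sum.inr_injective⟩) ∪
        (Finset.univ : Finset Tt).map ⟨Sum.inr, Sum.inr_injective⟩ := by
      intro y hy
      rw [Finset.mem_image] at hy
      obtain ⟨s, hs, rfl⟩ := hy
      rw [hrgt, Finset.mem_filter] at hs
      rw [Finset.mem_union]
      rcases h : r s with (l | i) | j
      · rw [h] at hs
        simp [hisx] at hs
      · left
        rw [Finset.mem_map]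
        exact ⟨i, Finset.mem_sdiff.2 ⟨Finset.mem_univ i, hrZ s i h⟩, rfl⟩
      · right
        rw [Finset.mem_map]
        exact ⟨j, Finset.mem_univ j, rfl⟩
    have h2 := (Finset.card_le_card h1).trans (Finset.card_union_le _ _)
    rw [Finset.card_image_of_injective _ hrinj, Finset.card_map, Finset.card_map,
      Finset.card_sdiff_of_subset (Finset.subset_univ Z), Finset.card_univ,
      Finset.card_univ] at h2
    have h3 : Z.card ≤ Fintype.card ι := Finset.card_le_univ Z
    omega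
  have hcard : Fintype.card b + Fintype.card ι = lft.card + rgt.card := by
    rw [← Fintype.card_sum, ← Finset.card_univ (α := b ⊕ ι)]
    exact (Finset.card_filter_add_card_filter_not _).symm
  have hesum : ∑ s, ee (r s) ≤ ∑ i, e i := by
    calc ∑ s, ee (r s) = ∑ y ∈ Finset.univ.image r, ee y :=
          (Finset.sum_image fun _ _ _ _ h => hrinj h).symm
      _ ≤ ∑ y, ee y := Finset.sum_le_sum_of_subset (Finset.subset_univ _)
      _ = ∑ i, e i := by
          rw [Fintype.sum_sum_type, Fintype.sum_sum_type]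
          simp [hee]
  obtain ⟨m, hmP⟩ : ∃ m, 1 + ∑ i, (n i + 1) = (∑ s, ee (r s) + lft.card + Fintype.card b) + 1 + m :=
    Nat.exists_eq_add_of_le (by omega)
  obtain ⟨k', hk'⟩ : ∃ k', Fintype.card σ + Fintype.card ι + Fintype.card Tt =
      Fintype.card (b ⊕ ι) + k' := by
    apply Nat.exists_eq_add_of_le
    rw [← Fintype.card_sum, ← Fintype.card_sum]
    exact Fintype.card_le_of_injective r hrinj
  refine ⟨Matrix.det (Matrix.of fun s t => uw (r s) * colK n a D θ Z b x i₀ t (r s)), ?_, ?_⟩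
  · have h1 := Matrix.det_mul_column (fun s => uw (r s))
      (Matrix.of fun s t => colK n a D θ Z b x i₀ t (r s))
    simp only [Matrix.of_apply] at h1
    rw [h1]
    refine mul_ne_zero (Finset.prod_ne_zero_iff.2 fun s _ => ?_) hrdet
    rcases h : r s with (l | i) | j
    · rw [huw]
      simp
    · rw [huw]
      simpa using hu i (hrZ s i h)
    · rw [huw]
      simp
  · intro O Δ hO hθ hrow l
    obtain ⟨j₀, hj, hjO⟩ := Helper74.LG.exists_max_coord O x i₀ (by
      rw [hx]
      exact one_ne_zero)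
    set c := x j₀ with hc
    have hci : c⁻¹ ∈ O := by
      have h1 := hjO i₀
      rwa [hx, one_div] at h1
    choose τ hτ1 hτ2 hτ3 using exists_T b hb0 hbsp hU i₀ hx j₀ hj
    set Kt := colK n a D θ Z b (fun l => x l / x j₀) j₀ with hKt
    set rf : (σ ⊕ ι) ⊕ Tt → E := Sum.elim (Sum.elim (fun _ => c) (fun _ => 1)) (fun _ => 1)
      with hrf
    set N : Matrix (b ⊕ ι) (b ⊕ ι) E := Matrix.of fun s t => wt u e c (r s) * Kt t (r s) with hN
    set T : Matrix (b ⊕ ι) (b ⊕ ι) E := Matrix.of fun t' t => τ t t' with hT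
    have hTdet : T.det = ∏ t, gK n b c t :=
      Helper74.LG.det_tri T (rkK b) _ (fun t => hτ2 t) fun t' t h1 h2 => hτ3 t t' h1 h2
    have hdecomp : ∀ s, uw s = c ^ ee s * wt u e c s := by
      rintro ((s | i) | j)
      · simp [huw, hee, wt]
      · have h1 : c ^ e i ≠ 0 := pow_ne_zero _ hj
        simp only [huw, hee, wt, Sum.elim_inl, Sum.elim_inr]
        field_simp
      · simp [huw, hee, wt]
    have hmat : (Matrix.of fun s t => uw (r s) * colK n a D θ Z b x i₀ t (r s)) =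
        (Matrix.of fun s t' => (c ^ ee (r s) * rf (r s)) * N s t') * T := by
      ext s t
      rw [Matrix.mul_apply, Matrix.of_apply, hτ1 t, Finset.sum_apply, Finset.mul_sum]
      refine Finset.sum_congr rfl fun t' _ => ?_
      rw [Pi.smul_apply, smul_eq_mul, phi_apply, hdecomp]
      simp only [hN, hT, Matrix.of_apply]
      change _ * (_ * (rf (r s) * Kt t' (r s))) = _
      ring
    have hdet : Matrix.det (Matrix.of fun s t => uw (r s) * colK n a D θ Z b x i₀ t (r s)) *
        (c * c ^ ∑ i, (n i + 1)) =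
        c ^ (∑ s, ee (r s) + lft.card + Fintype.card b) * N.det := by
      rw [hmat, Matrix.det_mul, Matrix.det_mul_column, hTdet, mul_assoc, prod_gK b hb0 c hj,
        Finset.prod_mul_distrib, Finset.prod_pow_eq_pow_sum]
      have h1 : ∏ s, rf (r s) = c ^ lft.card := by
        rw [hlft, ← Finset.prod_const, Finset.prod_filter]
        refine Finset.prod_congr rfl fun s _ => ?_
        rcases h : r s with (l | i) | j <;> simp [hrf, hisx]
      rw [h1]
      ring
    set G := Matrix.det (Matrix.of fun s t => uw (r s) * colK n a D θ Z b x i₀ t (r s)) with hG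
    have hG2 : G * c ^ (m + 1) = N.det := by
      have h1 : c * c ^ ∑ i, (n i + 1) =
          c ^ (∑ s, ee (r s) + lft.card + Fintype.card b) * c ^ (m + 1) := by
        rw [← pow_succ', ← pow_add]
        congr 1
        omega
      rw [h1] at hdet
      have h2 : c ^ (∑ s, ee (r s) + lft.card + Fintype.card b) ≠ 0 := pow_ne_zero _ hj
      apply mul_left_cancel₀ h2
      rw [← hdet]
      ring
    have hNdet : Δ ^ Fintype.card (b ⊕ ι) * N.det ∈ O := by
      rw [← Matrix.det_smul]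
      refine Helper74.LG.det_mem O.toSubring _ fun s t => ?_
      rw [Matrix.smul_apply, smul_eq_mul]
      refine entry_mem (D := D) b u e c j₀ O Δ _ hjO hO hθ (r s) (fun i hi => ?_) t
      obtain ⟨h1, h2⟩ := hrow i (hrZ s i hi) j₀ hj hjO
      exact ⟨hrZ s i hi, h1, h2⟩
    have hfin : Δ ^ (Fintype.card σ + Fintype.card ι + Fintype.card Tt) * (G * x l) =
        Δ ^ k' * (c⁻¹ ^ m * (x l / c)) * (Δ ^ Fintype.card (b ⊕ ι) * N.det) := by
      have h1 : c⁻¹ ^ m * c ^ (m + 1) = c := by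
        rw [pow_succ, ← mul_assoc, ← mul_pow, inv_mul_cancel₀ hj, one_pow, one_mul]
      have h2 : x l / c * c = x l := div_mul_cancel₀ _ hj
      rw [hk', pow_add, ← hG2]
      calc Δ ^ Fintype.card (b ⊕ ι) * Δ ^ k' * (G * x l)
          = Δ ^ Fintype.card (b ⊕ ι) * Δ ^ k' * (G * (x l / c * (c⁻¹ ^ m * c ^ (m + 1)))) := by
            rw [h1, h2]
        _ = _ := by ring
    rw [hfin]
    exact mul_mem (mul_mem (pow_mem hO.1 _) (mul_mem (pow_mem hci _) (hjO l))) hNdet

theorem key {E : Type*} [Field E] {σ ι τ : Type*} [Fintype σ] [DecidableEq σ] [Fintype ι]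
    [DecidableEq ι] [Fintype τ] (d e : ι → ℕ) (hd : ∀ i, 0 < d i)
    (a : (i : ι) → Sym σ (d i) → E) (D : Ix σ d → Derivation ℤ E E)
    (jj : τ → Ix σ d) (θ : τ → Ix σ d → E) (hD : Dual d a D jj θ)
    (Z : Finset ι) (x : σ → E) (i₀ : σ) (hx : x i₀ = 1)
    (hZ : ∀ i ∈ Z, form (a i) x = 0) (hU : ∀ i ∉ Z, form (a i) x ≠ 0)
    (u : ι → E) (hu : ∀ i ∉ Z, u i ≠ 0)
    (w : ℕ) (hw : 2 * w + 2 + Fintype.card τ + ∑ i, e i ≤ ∑ i, d i + Z.card)
    (hm : MinorsVanish D x w) :
    ∃ G : E, G ≠ 0 ∧ KeyG d e a D θ Z u x G := by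
  obtain ⟨n, rfl⟩ : ∃ n : ι → ℕ, d = fun i => n i + 1 :=
    ⟨fun i => d i - 1, funext fun i => (Nat.sub_add_cancel (hd i)).symm⟩
  exact key_aux n e a D jj θ hD Z x i₀ hx hZ hU u hu w hw hm

end Pool.Agent.Helper8.LG
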