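import Pool.Agent.Helper8.LG.KPt

/-! # LG-PT: rational points of projective space -/

set_option autoImplicit false

open AlgebraicGeometry CategoryTheory CategoryTheory.Limits MvPolynomial

namespace Pool.Agent.Helper8.LG

attribute [local instance] MvPolynomial.gradedAlgebra

universe u

private theorem pt_mem_away {N : ℕ} {K : Type u} [Field K] {m n : ℕ}
    (F : MvPolynomial (Fin (N + 1)) K)
    (hF : F ∈ homogeneousSubmodule (Fin (N + 1)) K m) (hm : 0 < m)
    (ψ : HomogeneousLocalization.Away (homogeneousSubmodule (Fin (N + 1)) K) F →+* K)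
    (t : Spec (.of K)) (G : MvPolynomial (Fin (N + 1)) K)
    (hG : G ∈ homogeneousSubmodule (Fin (N + 1)) K n) (hn : 0 < n) :
    G ∈ ((Spec.map (CommRingCat.ofHom ψ) ≫ Proj.awayι _ F hF hm) t).asHomogeneousIdeal ↔
      ψ (HomogeneousLocalization.Away.isLocalizationElem hF hG) = 0 := by
  have h := Proj.awayι_preimage_basicOpen (homogeneousSubmodule (Fin (N + 1)) K) hF hm hG hn
  have h1 : (Spec.map (CommRingCat.ofHom ψ) t) ∈ (Proj.awayι _ F hF hm) ⁻¹ᵁ
      (Proj.basicOpen (homogeneousSubmodule (Fin (N + 1)) K) G) ↔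
      (Spec.map (CommRingCat.ofHom ψ) t) ∈ PrimeSpectrum.basicOpen
        (HomogeneousLocalization.Away.isLocalizationElem hF hG) := by
    rw [h]
    rfl
  have h2 : (Spec.map (CommRingCat.ofHom ψ) t) ∈ (Proj.awayι _ F hF hm) ⁻¹ᵁ
      (Proj.basicOpen (homogeneousSubmodule (Fin (N + 1)) K) G) ↔
      ¬ (G ∈ ((Spec.map (CommRingCat.ofHom ψ) ≫ Proj.awayι _ F hF hm) t).asHomogeneousIdeal) :=
    Iff.rfl
  have h3 : (Spec.map (CommRingCat.ofHom ψ) t) ∈ PrimeSpectrum.basicOpen
        (HomogeneousLocalization.Away.isLocalizationElem hF hG) ↔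
      ¬ (ψ (HomogeneousLocalization.Away.isLocalizationElem hF hG) ∈ t.asIdeal) := Iff.rfl
  have h4 : t.asIdeal = (⊥ : Ideal K) := Ideal.eq_bot_of_prime _
  rw [h4] at h3
  have h5 : ψ (HomogeneousLocalization.Away.isLocalizationElem hF hG) ∈ (⊥ : Ideal K) ↔
      ψ (HomogeneousLocalization.Away.isLocalizationElem hF hG) = 0 := Ideal.mem_bot
  tauto

/-- `ψ` is the identity on the scalars -/
private theorem pt_scalar {N : ℕ} {K : Type u} [Field K] {m : ℕ}
    (F : MvPolynomial (Fin (N + 1)) K)
    (hF : F ∈ homogeneousSubmodule (Fin (N + 1)) K m) (hm : 0 < m)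
    (ψ : HomogeneousLocalization.Away (homogeneousSubmodule (Fin (N + 1)) K) F →+* K)
    (hψ : Spec.map (CommRingCat.ofHom ψ) ≫ Proj.awayι _ F hF hm ≫ PN.toSpec N K = 𝟙 _) (c : K) :
    ψ (HomogeneousLocalization.fromZeroRingHom _ _
      (algebraMap K (homogeneousSubmodule (Fin (N + 1)) K 0) c)) = c := by
  unfold PN.toSpec at hψ
  rw [Proj.awayι_toSpecZero_assoc, ← Spec.map_comp, ← Spec.map_comp, ← Spec.map_id] at hψ
  have h := Spec.map_injective hψ
  have h1 := congrArg (fun f => f.hom c) h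
  exact h1

/-- a form not in the prime of a point of `D₊(F)` -/
private theorem pt_not_mem {N : ℕ} {K : Type u} [Field K] {m : ℕ}
    (F : MvPolynomial (Fin (N + 1)) K)
    (hF : F ∈ homogeneousSubmodule (Fin (N + 1)) K m) (hm : 0 < m)
    (ψ : HomogeneousLocalization.Away (homogeneousSubmodule (Fin (N + 1)) K) F →+* K)
    (t : Spec (.of K)) :
    F ∉ ((Spec.map (CommRingCat.ofHom ψ) ≫ Proj.awayι _ F hF hm) t).asHomogeneousIdeal := by
  rw [pt_mem_away F hF hm ψ t F hF hm]
  have h : HomogeneousLocalization.Away.isLocalizationElem hF hF = 1 := by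
    ext
    rw [HomogeneousLocalization.Away.val_mk, HomogeneousLocalization.val_one]
    exact Localization.mk_self (⟨F ^ m, m, rfl⟩ : Submonoid.powers F)
  rw [h, map_one]
  exact one_ne_zero

/-- some coordinate does not vanish -/
private theorem pt_exists_X {N : ℕ} {K : Type u} [Field K] (z : PN N K) :
    ∃ j, (X j : MvPolynomial (Fin (N + 1)) K) ∉ z.asHomogeneousIdeal := by
  by_contra! h
  refine z.not_irrelevant_le ?_
  intro p hp
  have hp1 := (HomogeneousIdeal.mem_irrelevant_iff _ _).1 hp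
  have hp2 : homogeneousComponent 0 p = 0 := (decomposition.decompose'_apply p 0).symm.trans hp1
  rw [homogeneousComponent_zero, C_eq_zero] at hp2
  have h1 : p ∈ Ideal.span (MvPolynomial.X '' (Set.univ : Set (Fin (N + 1)))) := by
    rw [mem_ideal_span_X_image]
    intro m hm
    by_contra! h2
    have h3 : m = 0 := by
      ext i
      exact h2 i (Set.mem_univ i)
    rw [h3, mem_support_iff] at hm
    exact hm hp2
  have h4 : Ideal.span (MvPolynomial.X '' (Set.univ : Set (Fin (N + 1)))) ≤
      z.asHomogeneousIdeal.toIdeal := by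
    rw [Ideal.span_le]
    rintro _ ⟨i, -, rfl⟩
    exact h i
  exact h4 h1

private theorem pt_eval_hom {N n : ℕ} {K : Type u} [Field K] {S : Type u} [CommRing S]
    (G : MvPolynomial (Fin (N + 1)) K) (hG : G.IsHomogeneous n)
    (a : MvPolynomial (Fin (N + 1)) K →+* S) (s : S) :
    eval₂ (a.comp C) (fun i => a (X i) * s) G = a G * s ^ n := by
  rw [eval₂_eq']
  have e4 : ∀ d ∈ G.support, (a.comp C) (coeff d G) * ∏ i, (a (X i) * s) ^ d i =
      a (monomial d (coeff d G)) * s ^ n := by
    intro d hd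
    have h1 : ∑ i, d i = n := by
      have h2 := hG.degree_eq_sum_deg_support hd
      rw [h2]
      exact (Finset.sum_subset (Finset.subset_univ _) fun i _ hi => by
        simpa using hi).symm
    simp only [mul_pow]
    rw [Finset.prod_mul_distrib, Finset.prod_pow_eq_pow_sum, h1, ← mul_assoc]
    congr 1
    rw [monomial_eq, map_mul, Finsupp.prod_fintype _ _ (by simp), map_prod]
    simp only [map_pow]
    rfl
  rw [Finset.sum_congr rfl e4, ← Finset.sum_mul, ← map_sum, ← MvPolynomial.as_sum]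

/-- the function `X_i / X_j` -/
private noncomputable def ptY {N : ℕ} (K : Type u) [Field K] (j i : Fin (N + 1)) :
    HomogeneousLocalization.Away (homogeneousSubmodule (Fin (N + 1)) K) (X j) :=
  HomogeneousLocalization.Away.mk _ ((mem_homogeneousSubmodule 1 _).2 (isHomogeneous_X K j)) 1
    (X i) ((mem_homogeneousSubmodule _ _).2 (isHomogeneous_X K i))

/-- the scalars -/
private noncomputable def ptC {N : ℕ} (K : Type u) [Field K] (j : Fin (N + 1)) :
    K →+* HomogeneousLocalization.Away (homogeneousSubmodule (Fin (N + 1)) K) (X j) :=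
  (HomogeneousLocalization.fromZeroRingHom _ _).comp
        (algebraMap K (homogeneousSubmodule (Fin (N + 1)) K 0))

/-- dehomogenisation -/
private theorem pt_dehom {N : ℕ} {K : Type u} [Field K] (j : Fin (N + 1)) {n : ℕ}
    (G : MvPolynomial (Fin (N + 1)) K) (hG : G.IsHomogeneous n)
    (hG' : G ∈ homogeneousSubmodule (Fin (N + 1)) K (n • 1)) :
    HomogeneousLocalization.Away.mk (homogeneousSubmodule (Fin (N + 1)) K)
      ((mem_homogeneousSubmodule 1 _).2 (isHomogeneous_X K j)) n G hG' =
      eval₂ (ptC K j) (ptY K j) G := by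
  apply HomogeneousLocalization.val_injective
  have e5 : (⟨X j ^ 1, 1, rfl⟩ : Submonoid.powers (X j : MvPolynomial (Fin (N + 1)) K)) =
        ⟨X j, Submonoid.mem_powers _⟩ := Subtype.ext (pow_one _)
  have h1 := pt_eval_hom G hG (algebraMap _ (Localization.Away (X j :
    MvPolynomial (Fin (N + 1)) K))) (Localization.mk 1 ⟨X j, Submonoid.mem_powers _⟩)
  have h2 := hom_eval₂ G (ptC K j) (algebraMap _ (Localization.Away (X j :
    MvPolynomial (Fin (N + 1)) K))) (ptY K j)
  refine Eq.trans ?_ (h1.symm.trans (Eq.trans ?_ h2.symm))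
  · rw [HomogeneousLocalization.Away.val_mk, ← Localization.mk_one_eq_algebraMap,
      Localization.mk_pow, Localization.mk_mul, one_pow, mul_one, one_mul]
    rfl
  · congr 1
    · funext c
      rw [← Localization.mk_one_eq_algebraMap, Localization.mk_mul, mul_one, one_mul, ← e5]
      rfl

/-- the values of the functions `G / F` at a rational point -/
theorem away_eval {N : ℕ} {K : Type u} [Field K] {n : ℕ} (F : MvPolynomial (Fin (N + 1)) K)
    (hF : F ∈ homogeneousSubmodule (Fin (N + 1)) K n) (hn : 0 < n)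
    (ψ : HomogeneousLocalization.Away (homogeneousSubmodule (Fin (N + 1)) K) F →+* K)
    (hψ : Spec.map (CommRingCat.ofHom ψ) ≫ Proj.awayι _ F hF hn ≫ PN.toSpec N K = 𝟙 _)
    (t : Spec (.of K)) (x : Fin (N + 1) → K)
    (hx : IsCoord ((Spec.map (CommRingCat.ofHom ψ) ≫ Proj.awayι _ F hF hn) t) x)
    (G : MvPolynomial (Fin (N + 1)) K) (hG : G ∈ homogeneousSubmodule (Fin (N + 1)) K n) :
    ψ (HomogeneousLocalization.mk ⟨n, ⟨G, hG⟩, ⟨F, hF⟩, Submonoid.mem_powers F⟩) =
      eval x G / eval x F := by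
  have hF0 : eval x F ≠ 0 := fun h =>
    pt_not_mem F hF hn ψ t ((hx.2 n F ((mem_homogeneousSubmodule n F).1 hF)).2 h)
  set c : K := eval x G / eval x F with hc
  set H : MvPolynomial (Fin (N + 1)) K := G - c • F with hH
  have hHm : H ∈ homogeneousSubmodule (Fin (N + 1)) K n :=
    Submodule.sub_mem _ hG (Submodule.smul_mem _ c hF)
  have hH0 : eval x H = 0 := by
    rw [hH, map_sub, smul_eval, hc, div_mul_cancel₀ _ hF0, sub_self]
  have h1 := (pt_mem_away F hF hn ψ t H hHm hn).1
    ((hx.2 n H ((mem_homogeneousSubmodule n H).1 hHm)).2 hH0)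
  have h2 : HomogeneousLocalization.Away.isLocalizationElem hF hHm =
      (HomogeneousLocalization.mk ⟨n, ⟨H, hHm⟩, ⟨F, hF⟩, Submonoid.mem_powers F⟩ :
        HomogeneousLocalization.Away (homogeneousSubmodule (Fin (N + 1)) K) F) ^ n := by
    ext
    rw [HomogeneousLocalization.Away.val_mk, HomogeneousLocalization.val_pow,
      HomogeneousLocalization.val_mk, Localization.mk_pow]
    rfl
  rw [h2, map_pow] at h1
  have h3 := eq_zero_of_pow_eq_zero h1
  have h4 : (HomogeneousLocalization.mk ⟨n, ⟨H, hHm⟩, ⟨F, hF⟩, Submonoid.mem_powers F⟩ :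
        HomogeneousLocalization.Away (homogeneousSubmodule (Fin (N + 1)) K) F) =
      HomogeneousLocalization.mk ⟨n, ⟨G, hG⟩, ⟨F, hF⟩, Submonoid.mem_powers F⟩ -
        HomogeneousLocalization.fromZeroRingHom _ _
          (algebraMap K (homogeneousSubmodule (Fin (N + 1)) K 0) c) := by
    ext
    have e1 : (HomogeneousLocalization.fromZeroRingHom (homogeneousSubmodule (Fin (N + 1)) K)
        (Submonoid.powers F) (algebraMap K (homogeneousSubmodule (Fin (N + 1)) K 0) c)).val =
        Localization.mk (MvPolynomial.C c) 1 := rfl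
    rw [HomogeneousLocalization.val_sub, e1, HomogeneousLocalization.val_mk,
      HomogeneousLocalization.val_mk, Localization.sub_mk]
    congr 1
    · simp only [hH, smul_eq_C_mul]
      simp [mul_comm]
    · simp
  rw [h4, map_sub, pt_scalar F hF hn ψ hψ] at h3
  exact sub_eq_zero.1 h3

theorem exists_coord {N : ℕ} {K : Type u} [Field K] (p : Spec (.of K) ⟶ PN N K)
    (hp : p ≫ PN.toSpec N K = 𝟙 _) (t : Spec (.of K)) : ∃ x, IsCoord (p t) x := by
  obtain ⟨j, hj⟩ := pt_exists_X (p t)
  have hXj := (mem_homogeneousSubmodule 1 _).2 (isHomogeneous_X K j)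
  have hr : Set.range p ⊆ Set.range
      (Proj.awayι (homogeneousSubmodule (Fin (N + 1)) K) (X j) hXj one_pos) := by
    rintro _ ⟨t', rfl⟩
    have h1 : t' = t := by
      apply PrimeSpectrum.ext
      have h4 : t.asIdeal = (⊥ : Ideal K) := Ideal.eq_bot_of_prime _
      have h5 : t'.asIdeal = (⊥ : Ideal K) := Ideal.eq_bot_of_prime _
      rw [h4, h5]
    rw [h1]
    have h2 : p t ∈ (Proj.awayι (homogeneousSubmodule (Fin (N + 1)) K) (X j) hXj
        one_pos).opensRange := by
      rw [Proj.opensRange_awayι]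
      exact hj
    exact h2
  obtain ⟨ψ, hψ⟩ : ∃ ψ : HomogeneousLocalization.Away
      (homogeneousSubmodule (Fin (N + 1)) K) (X j) →+* K,
      p = Spec.map (CommRingCat.ofHom ψ) ≫ Proj.awayι _ (X j) hXj one_pos := by
    refine ⟨(Spec.preimage (IsOpenImmersion.lift (Proj.awayι _ (X j) hXj one_pos) p hr)).hom, ?_⟩
    rw [CommRingCat.ofHom_hom, Spec.map_preimage, IsOpenImmersion.lift_fac]
  have hψ1 : Spec.map (CommRingCat.ofHom ψ) ≫ Proj.awayι _ (X j) hXj one_pos ≫ PN.toSpec N K =
      𝟙 _ := by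
    rw [← Category.assoc, ← hψ, hp]
  set x : Fin (N + 1) → K := fun i => ψ (ptY K j i) with hxdef
  have hev : ∀ (n : ℕ) (G : MvPolynomial (Fin (N + 1)) K) (_ : G.IsHomogeneous n)
      (hG' : G ∈ homogeneousSubmodule (Fin (N + 1)) K (n • 1)),
      ψ (HomogeneousLocalization.Away.mk (homogeneousSubmodule (Fin (N + 1)) K) hXj n G hG') =
        eval x G := by
    intro n G hG hG'
    rw [pt_dehom j G hG hG', hom_eval₂]
    have h1 : ψ.comp (ptC K j) = RingHom.id K := by
      ext c
      exact pt_scalar (X j) hXj one_pos ψ hψ1 c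
    rw [h1]
    rfl
  refine ⟨x, ?_, ?_⟩
  · intro h0
    have h1 := hev 1 (X j) (isHomogeneous_X K j) hXj
    rw [h0] at h1
    have h2 : HomogeneousLocalization.Away.mk (homogeneousSubmodule (Fin (N + 1)) K) hXj 1 (X j)
        hXj = 1 := by
      ext
      rw [HomogeneousLocalization.Away.val_mk, HomogeneousLocalization.val_one]
      simp
    rw [h2, map_one] at h1
    simp at h1
  · intro n F hF
    rcases Nat.eq_zero_or_pos n with hn | hn
    · subst hn
      obtain ⟨c, rfl⟩ : ∃ c : K, F = C c :=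
        ⟨_, totalDegree_eq_zero_iff_eq_C.1 ((totalDegree_zero_iff_isHomogeneous _).2 hF)⟩
      rw [eval_C]
      constructor
      · intro h1
        by_contra hc
        have h2 : (1 : MvPolynomial (Fin (N + 1)) K) ∈ (p t).asHomogeneousIdeal.toIdeal := by
          have h3 := Ideal.mul_mem_left (p t).asHomogeneousIdeal.toIdeal (C c⁻¹) h1
          rwa [← C_mul, inv_mul_cancel₀ hc, C_1] at h3
        exact (p t).isPrime.ne_top ((Ideal.eq_top_iff_one _).2 h2)
      · intro h1
        rw [h1, C_0]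
        exact Submodule.zero_mem (p t).asHomogeneousIdeal.toIdeal
    · rw [hψ, pt_mem_away (X j) hXj one_pos ψ t F ((mem_homogeneousSubmodule n F).2 hF) hn]
      have h1 := hev n (F ^ 1) (by rw [pow_one]; exact hF)
        (by rw [pow_one, smul_eq_mul, mul_one]; exact (mem_homogeneousSubmodule n F).2 hF)
      rw [h1, pow_one]

end Pool.Agent.Helper8.LG
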